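import Pool.Agent.Work.MP_090684_an.Main

set_option autoImplicit false

namespace Pool.Agent.Work.MP_090684_an

open Complex Metric Set MeasureTheory Filter Topology
open scoped Real ComplexConjugate

variable {P Q Z : ℂ → ℂ} {k₀ k₁ : ℂ}

/-- the boundary coefficient on each circle -/
def coef (k₀ k₁ : ℂ) : Fin 4 → ℂ := ![k₀, k₁, 1, 1]

theorem Data.rel (h : Data P Q Z k₀ k₁) (j : Fin 4) {w : ℂ} (hw : w ∈ sphere (cen j) (rad j)) :
    (w - cen j) * P w = coef k₀ k₁ j * conj (Q w) := by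
  fin_cases j
  · have e : ‖w‖ = 1000 := by simpa [cen, rad] using hw
    simpa [cen, coef] using h.r0 w e
  · have e : ‖w‖ = 1 / 10000 := by simpa [cen, rad] using hw
    simpa [cen, coef] using h.r1 w e
  · have e : ‖w - 1‖ = 1 / 10000 := by simpa [cen, rad, dist_eq_norm] using hw
    simpa [cen, coef] using h.r2 w e
  · have e : ‖w + 1‖ = 1 / 10000 := by simpa [cen, rad, dist_eq_norm] using hw
    simpa [cen, coef] using h.r3 w e

theorem Data.circle_eq (h : Data P Q Z k₀ k₁) (f : ℂ → ℂ) (j : Fin 4) :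
    ∮ w in C(cen j, rad j), f (Z w) * P w * Q w
      = (I * coef k₀ k₁ j / rad j) *
        ∫ t in (0 : ℝ)..1, f (gam Z j t) * ((‖deriv (gam Z j) t‖ : ℝ) : ℂ) := by
  have hr : (rad j : ℂ) ≠ 0 := by exact_mod_cast (rad_pos j).ne'
  have e1 : ∮ w in C(cen j, rad j), f (Z w) * P w * Q w
      = ∫ θ in (0 : ℝ)..(2 * π), (I * coef k₀ k₁ j) *
        (f (Z (circleMap (cen j) (rad j) θ))
          * (((‖Q (circleMap (cen j) (rad j) θ)‖ ^ 2 : ℝ)) : ℂ)) := by
    simp only [circleIntegral, deriv_circleMap, smul_eq_mul]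
    apply intervalIntegral.integral_congr
    intro θ _
    simp only
    set w := circleMap (cen j) (rad j) θ with hw
    have hrel := h.rel j (w := w) (circleMap_mem_sphere _ (rad_pos j).le θ)
    have e0 : circleMap 0 (rad j) θ = w - cen j := by
      rw [hw]; simp [circleMap]
    have e2 : (((‖Q w‖ ^ 2 : ℝ)) : ℂ) = conj (Q w) * Q w := by
      rw [mul_comm, Complex.mul_conj, Complex.normSq_eq_norm_sq]
    rw [e0, e2]
    linear_combination (I * f (Z w) * Q w) * hrel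
  rw [e1, intervalIntegral.integral_const_mul]
  have e3 : ∫ t in (0 : ℝ)..1, f (gam Z j t) * ((‖deriv (gam Z j) t‖ : ℝ) : ℂ)
      = ∫ t in (0 : ℝ)..1, (rad j * (2 * π) : ℂ) *
        ((fun θ : ℝ => f (Z (circleMap (cen j) (rad j) θ))
          * (((‖Q (circleMap (cen j) (rad j) θ)‖ ^ 2 : ℝ)) : ℂ)) (2 * π * t)) := by
    apply intervalIntegral.integral_congr
    intro t _
    simp only
    rw [h.norm_gam_deriv]
    unfold gam
    push_cast
    ring
  have hpi : (2 * π : ℝ) ≠ 0 := by positivity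
  have hcomp := intervalIntegral.integral_comp_mul_left (a := 0) (b := 1)
    (fun θ : ℝ => f (Z (circleMap (cen j) (rad j) θ))
          * (((‖Q (circleMap (cen j) (rad j) θ)‖ ^ 2 : ℝ)) : ℂ)) hpi
  rw [mul_zero, mul_one, Complex.real_smul] at hcomp
  rw [e3, intervalIntegral.integral_const_mul, hcomp]
  have hpic : (π : ℂ) ≠ 0 := by exact_mod_cast Real.pi_ne_zero
  push_cast
  field_simp

/-- the linear relation between the arc length periods -/
theorem Data.period_relation (h : Data P Q Z k₀ k₁) {U : Set ℂ} (hU : IsOpen U)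
    (hGU : closure (Z '' SO) ⊆ U) {f : ℂ → ℂ} (hf : DifferentiableOn ℂ f U) {α : Fin 4 → ℂ}
    (hα : ∀ j, (∫ t in (0 : ℝ)..1, f (gam Z j t) * ((‖deriv (gam Z j) t‖ : ℝ) : ℂ)) = α j) :
    (I * k₀ / 1000) * α 0 = (I * k₁ / (1 / 10000 : ℝ)) * α 1 + (I / (1 / 10000 : ℝ)) * α 2
      + (I / (1 / 10000 : ℝ)) * α 3 := by
  set V : Set ℂ := DD ∩ Z ⁻¹' U with hV
  have hVo : IsOpen V := h.contZ.isOpen_inter_preimage isOpen_DD hU
  have hKV : SK ⊆ V := by
    intro w hw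
    refine ⟨SK_subset_DD hw, hGU ?_⟩
    rw [h.closure_G]
    exact ⟨w, hw, rfl⟩
  have hd : DifferentiableOn ℂ (fun w => f (Z w) * P w * Q w) V := by
    intro w hw
    apply DifferentiableAt.differentiableWithinAt
    have h1 : DifferentiableAt ℂ f (Z w) := hf.differentiableAt (hU.mem_nhds hw.2)
    have h2 : DifferentiableAt ℂ (fun w => f (Z w)) w :=
      DifferentiableAt.comp (g := f) w h1 (h.dZ w hw.1).differentiableAt
    exact (h2.mul (h.dP w hw.1)).mul (h.dQ w hw.1)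
  have hc := cauchy3 hVo (R := 1000) (r := 1 / 10000) (by norm_num) (by norm_num) (by norm_num)
    hKV hd
  have c0 := h.circle_eq f 0
  have c1 := h.circle_eq f 1
  have c2 := h.circle_eq f 2
  have c3 := h.circle_eq f 3
  rw [hα] at c0 c1 c2 c3
  simp only [cen, rad, coef, Matrix.cons_val_zero, Matrix.cons_val_one, Matrix.cons_val] at c0 c1 c2 c3
  rw [c0, c1, c2, c3] at hc
  rw [mul_one] at hc
  push_cast at hc ⊢
  exact hc

theorem Data.not_onto (h : Data P Q Z k₀ k₁) :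
    ¬ ∀ α : Fin 4 → ℂ, ∃ U : Set ℂ, IsOpen U ∧ closure (Z '' SO) ⊆ U ∧
      ∃ f : ℂ → ℂ, DifferentiableOn ℂ f U ∧
        ∀ j, (∫ t in (0 : ℝ)..1, f (gam Z j t) * ((‖deriv (gam Z j) t‖ : ℝ) : ℂ)) = α j := by
  intro hall
  obtain ⟨U, hU, hGU, f, hf, hα⟩ := hall (fun j => if j = 0 then 1 else 0)
  have := h.period_relation hU hGU hf hα
  simp at this
  exact h.k0 this

/-- A sphere contained in a finite disjoint union of closed sets meets only one of them. -/
theorem meets_one {Γ : Fin 4 → Set ℂ} (hc : ∀ j, IsClosed (Γ j))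
    (hd : ∀ i j, i ≠ j → Disjoint (Γ i) (Γ j)) {s : Set ℂ} (hs : IsPreconnected s)
    (hsub : s ⊆ ⋃ j, Γ j) {i j : Fin 4} (hi : (s ∩ Γ i).Nonempty) (hj : (s ∩ Γ j).Nonempty) :
    i = j := by
  by_contra hij
  set T : Set ℂ := ⋃ k ∈ {k : Fin 4 | k ≠ i}, Γ k with hT
  have hTc : IsClosed T := by
    apply Set.Finite.isClosed_biUnion (Set.toFinite _)
    intro k _
    exact hc k
  have hcov : s ⊆ Γ i ∪ T := by
    intro x hx
    obtain ⟨k, hk⟩ := mem_iUnion.1 (hsub hx)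
    by_cases hki : k = i
    · left; rw [← hki]; exact hk
    · right
      rw [hT]
      simp only [mem_iUnion]
      exact ⟨k, hki, hk⟩
  have h2 : (s ∩ T).Nonempty := by
    obtain ⟨x, hx, hxj⟩ := hj
    refine ⟨x, hx, ?_⟩
    rw [hT]
    simp only [mem_iUnion]
    exact ⟨j, fun h => hij h.symm, hxj⟩
  obtain ⟨x, hx, hx1, hx2⟩ := isPreconnected_closed_iff.1 hs (Γ i) T (hc i) hTc hcov hi h2
  rw [hT] at hx2
  simp only [mem_iUnion] at hx2
  obtain ⟨k, hk, hxk⟩ := hx2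
  exact Set.disjoint_left.1 (hd k i hk) hxk hx1

theorem annulus_frontier_sub (c : ℂ) (r₁ r₂ : ℝ) :
    frontier {z : ℂ | r₁ < ‖z - c‖ ∧ ‖z - c‖ < r₂} ⊆ sphere c r₁ ∪ sphere c r₂ := by
  intro z hz
  have hcl : z ∈ {z : ℂ | r₁ ≤ ‖z - c‖ ∧ ‖z - c‖ ≤ r₂} := by
    have hclosed : IsClosed {z : ℂ | r₁ ≤ ‖z - c‖ ∧ ‖z - c‖ ≤ r₂} :=
      IsClosed.and (isClosed_le continuous_const (by fun_prop))
        (isClosed_le (by fun_prop) continuous_const)
    have hss : {z : ℂ | r₁ < ‖z - c‖ ∧ ‖z - c‖ < r₂} ⊆ {z : ℂ | r₁ ≤ ‖z - c‖ ∧ ‖z - c‖ ≤ r₂} :=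
      fun z hz => ⟨hz.1.le, hz.2.le⟩
    exact closure_minimal hss hclosed (frontier_subset_closure hz)
  have hopen : IsOpen {z : ℂ | r₁ < ‖z - c‖ ∧ ‖z - c‖ < r₂} :=
    IsOpen.and (isOpen_lt continuous_const (by fun_prop)) (isOpen_lt (by fun_prop) continuous_const)
  have hn : z ∉ {z : ℂ | r₁ < ‖z - c‖ ∧ ‖z - c‖ < r₂} := by
    intro h
    rw [hopen.frontier_eq] at hz
    exact hz.2 h
  by_cases h1 : r₁ = ‖z - c‖
  · left
    rw [mem_sphere, dist_eq_norm, h1]
  · right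
    rw [mem_sphere, dist_eq_norm]
    by_contra h2
    exact hn ⟨lt_of_le_of_ne hcl.1 h1, lt_of_le_of_ne hcl.2 h2⟩

theorem sphere_sub_frontier {c : ℂ} {r₁ r₂ : ℝ} (h1 : 0 < r₁) (h12 : r₁ < r₂) {s : ℝ}
    (hs : s = r₁ ∨ s = r₂) :
    sphere c s ⊆ frontier {z : ℂ | r₁ < ‖z - c‖ ∧ ‖z - c‖ < r₂} := by
  intro z hz
  have hopen : IsOpen {z : ℂ | r₁ < ‖z - c‖ ∧ ‖z - c‖ < r₂} :=
    IsOpen.and (isOpen_lt continuous_const (by fun_prop)) (isOpen_lt (by fun_prop) continuous_const)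
  rw [hopen.frontier_eq]
  have hzs : ‖z - c‖ = s := by rw [mem_sphere, dist_eq_norm] at hz; exact hz
  have hs0 : 0 < s := by rcases hs with rfl | rfl <;> linarith
  refine ⟨?_, ?_⟩
  · -- approximate by radial dilations towards the middle circle
    set m : ℝ := (r₁ + r₂) / 2 with hm
    have ht : Tendsto (fun e : ℝ => c + ((1 + e * (m / s - 1) : ℝ) : ℂ) * (z - c)) (𝓝[>] 0)
        (𝓝 z) := by
      have hc : Continuous (fun e : ℝ => c + ((1 + e * (m / s - 1) : ℝ) : ℂ) * (z - c)) := by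
        apply Continuous.add continuous_const
        apply Continuous.mul _ continuous_const
        exact Complex.continuous_ofReal.comp (by fun_prop)
      have := hc.tendsto 0
      simp only [zero_mul, add_zero, Complex.ofReal_one, one_mul, add_sub_cancel] at this
      exact this.mono_left nhdsWithin_le_nhds
    apply mem_closure_of_tendsto ht
    have hmem : Ioo (0 : ℝ) 1 ∈ 𝓝[>] (0 : ℝ) := Ioo_mem_nhdsGT (by norm_num)
    filter_upwards [hmem] with e he
    obtain ⟨he0, he1⟩ := he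
    have hnn : (1 + e * (m / s - 1)) * s = s + e * (m - s) := by
      field_simp
    have hpos : 0 < s + e * (m - s) := by
      have hm0 : 0 < m := by rw [hm]; linarith
      nlinarith
    have hpos2 : 0 < 1 + e * (m / s - 1) := by
      by_contra hneg
      push Not at hneg
      have := mul_nonpos_of_nonpos_of_nonneg hneg hs0.le
      linarith
    have hn : ‖c + ((1 + e * (m / s - 1) : ℝ) : ℂ) * (z - c) - c‖ = s + e * (m - s) := by
      rw [add_sub_cancel_left, norm_mul, Complex.norm_real, hzs, Real.norm_of_nonneg hpos2.le, hnn]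
    show r₁ < _ ∧ _ < r₂
    rw [hn]
    rcases hs with rfl | rfl
    · have : 0 < e * (m - s) := mul_pos he0 (by rw [hm]; linarith)
      have : e * (m - s) < 1 * (m - s) := mul_lt_mul_of_pos_right he1 (by rw [hm]; linarith)
      rw [hm] at *
      constructor <;> linarith
    · have : 0 < e * (s - m) := mul_pos he0 (by rw [hm]; linarith)
      have : e * (s - m) < 1 * (s - m) := mul_lt_mul_of_pos_right he1 (by rw [hm]; linarith)
      rw [hm] at *
      constructor <;> linarith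
  · rintro ⟨ha, hb⟩
    rw [hzs] at ha hb
    rcases hs with rfl | rfl <;> linarith

theorem Data.not_annulus (h : Data P Q Z k₀ k₁) :
    ¬ ∃ c : ℂ, ∃ r₁ r₂ : ℝ, 0 < r₁ ∧ r₁ < r₂ ∧
      Z '' SO = {z : ℂ | r₁ < ‖z - c‖ ∧ ‖z - c‖ < r₂} := by
  rintro ⟨c, r₁, r₂, h1, h12, hG⟩
  have hf := h.frontier_G
  rw [hG] at hf
  have hcl : ∀ j, IsClosed (range (gam Z j)) := by
    intro j
    rw [range_gam]
    apply IsCompact.isClosed
    apply (isCompact_sphere _ _).image_of_continuousOn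
    exact h.contZ.mono ((sphere_sub_SK j).trans (sdiff_subset.trans SK_subset_DD))
  have hd : ∀ i j, i ≠ j → Disjoint (range (gam Z i)) (range (gam Z j)) := fun i j hij =>
    h.gam_disjoint hij
  have hp : ∀ s, IsPreconnected (sphere c s) := by
    intro s
    apply isPreconnected_sphere
    rw [Complex.rank_real_complex]
    norm_num
  have hs1 : sphere c r₁ ⊆ ⋃ j, range (gam Z j) := by
    rw [← hf]; exact sphere_sub_frontier h1 h12 (Or.inl rfl)
  have hs2 : sphere c r₂ ⊆ ⋃ j, range (gam Z j) := by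
    rw [← hf]; exact sphere_sub_frontier h1 h12 (Or.inr rfl)
  have hx : ∀ j : Fin 4, gam Z j 0 ∈ sphere c r₁ ∪ sphere c r₂ := by
    intro j
    apply annulus_frontier_sub
    rw [hf]
    exact mem_iUnion.2 ⟨j, ⟨0, rfl⟩⟩
  have k1 : ∀ i j : Fin 4, gam Z i 0 ∈ sphere c r₁ → gam Z j 0 ∈ sphere c r₁ → i = j := by
    intro i j hi hj
    exact meets_one hcl hd (hp r₁) hs1 ⟨_, hi, ⟨0, rfl⟩⟩ ⟨_, hj, ⟨0, rfl⟩⟩
  have k2 : ∀ i j : Fin 4, gam Z i 0 ∈ sphere c r₂ → gam Z j 0 ∈ sphere c r₂ → i = j := by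
    intro i j hi hj
    exact meets_one hcl hd (hp r₂) hs2 ⟨_, hi, ⟨0, rfl⟩⟩ ⟨_, hj, ⟨0, rfl⟩⟩
  rcases hx 0 with a0 | a0 <;> rcases hx 1 with a1 | a1 <;> rcases hx 2 with a2 | a2
  all_goals first
    | exact absurd (k1 0 1 a0 a1) (by decide)
    | exact absurd (k1 0 2 a0 a2) (by decide)
    | exact absurd (k1 1 2 a1 a2) (by decide)
    | exact absurd (k2 0 1 a0 a1) (by decide)
    | exact absurd (k2 0 2 a0 a2) (by decide)
    | exact absurd (k2 1 2 a1 a2) (by decide)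

theorem counterexample : ∃ (G : Set ℂ) (γ : Fin 4 → ℝ → ℂ),
      IsOpen G ∧ IsConnected G ∧ Bornology.IsBounded G ∧
      (∀ j, AnalyticOnNhd ℝ (γ j) Set.univ) ∧
      (∀ j, Function.Periodic (γ j) 1) ∧
      (∀ j, Set.InjOn (γ j) (Set.Ico 0 1)) ∧
      (∀ j t, deriv (γ j) t ≠ 0) ∧
      (∀ i j, i ≠ j → Disjoint (Set.range (γ i)) (Set.range (γ j))) ∧
      frontier G = ⋃ j, Set.range (γ j) ∧
      (¬ ∀ α : Fin 4 → ℂ, ∃ U : Set ℂ, IsOpen U ∧ closure G ⊆ U ∧
          ∃ f : ℂ → ℂ, DifferentiableOn ℂ f U ∧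
            ∀ j, (∫ t in (0:ℝ)..1, f (γ j t) * (((‖deriv (γ j) t‖ : ℝ)) : ℂ)) = α j) ∧
        ¬ ∃ c : ℂ, ∃ r₁ r₂ : ℝ, 0 < r₁ ∧ r₁ < r₂ ∧
            G = {z : ℂ | r₁ < ‖z - c‖ ∧ ‖z - c‖ < r₂} := by
  obtain ⟨P, Q, Z, k₀, k₁, h⟩ := exists_data
  exact ⟨Z '' SO, gam Z, h.isOpen_G, h.connected_G, h.bounded_G, h.gam_analytic, gam_periodic,
    h.gam_inj, h.gam_deriv_ne, fun i j hij => h.gam_disjoint hij, h.frontier_G, h.not_onto,
    h.not_annulus⟩

end Pool.Agent.Work.MP_090684_an
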