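import Pool.Agent.Work.MP_090684_an.Fix

set_option autoImplicit false

namespace Pool.Agent.Work.MP_090684_an

open Complex Metric Set MeasureTheory Filter Topology
open scoped Real ComplexConjugate BoundedContinuousFunction

/-- radial retraction onto the closed ball of radius `2` -/
noncomputable def cut (z : ℂ) : ℂ := ((2 / max 2 ‖z‖ : ℝ) : ℂ) * z

theorem cut_continuous : Continuous cut := by
  unfold cut
  apply Continuous.mul _ continuous_id
  apply Complex.continuous_ofReal.comp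
  apply continuous_const.div (continuous_const.max continuous_norm)
  intro z
  have : (2 : ℝ) ≤ max 2 ‖z‖ := le_max_left _ _
  linarith

theorem cut_of_le {z : ℂ} (hz : ‖z‖ ≤ 2) : cut z = z := by
  unfold cut
  rw [max_eq_left hz]
  simp

theorem norm_cut (z : ℂ) : ‖cut z‖ ≤ 2 := by
  unfold cut
  have h1 : (2 : ℝ) ≤ max 2 ‖z‖ := le_max_left _ _
  have h2 : ‖z‖ ≤ max 2 ‖z‖ := le_max_right _ _
  rw [norm_mul, Complex.norm_real, Real.norm_of_nonneg (by positivity), div_mul_eq_mul_div,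
    div_le_iff₀ (by linarith)]
  linarith

theorem cut_conj (z : ℂ) : cut (conj z) = conj (cut z) := by
  unfold cut
  rw [map_mul, Complex.conj_ofReal, RCLike.norm_conj]

theorem cut_neg (z : ℂ) : cut (-z) = -cut z := by
  unfold cut
  rw [norm_neg, mul_neg]

theorem exists_mkB {F : ℂ → ℂ} (h : ContinuousOn F (closedBall 0 2)) :
    ∃ f : ℂ →ᵇ ℂ, ∀ z, f z = F (cut z) := by
  obtain ⟨C, hC⟩ := (isCompact_closedBall (0 : ℂ) 2).exists_bound_of_continuousOn h
  have hmem : ∀ z, cut z ∈ closedBall (0 : ℂ) 2 := fun z => by simpa using norm_cut z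
  refine ⟨BoundedContinuousFunction.ofNormedAddCommGroup (fun z => F (cut z))
    (h.comp_continuous cut_continuous hmem) C (fun z => hC _ (hmem z)), fun z => rfl⟩

open Classical in
noncomputable def mkB (F : ℂ → ℂ) : ℂ →ᵇ ℂ :=
  if h : ContinuousOn F (closedBall 0 2) then Classical.choose (exists_mkB h) else 0

theorem mkB_apply {F : ℂ → ℂ} (h : ContinuousOn F (closedBall 0 2)) (z : ℂ) :
    mkB F z = F (cut z) := by
  unfold mkB
  rw [dif_pos h]
  exact Classical.choose_spec (exists_mkB h) z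

abbrev EE : Type := (ℂ →ᵇ ℂ) × (ℂ →ᵇ ℂ) × (ℂ →ᵇ ℂ)

noncomputable def Phi (x : EE) : EE :=
  (mkB (an x.1 x.2.1 x.2.2), mkB (a0n x.1 x.2.1 x.2.2), mkB (BB x.1 x.2.1 x.2.2))

/-- The complete set on which we iterate. -/
def SSet : Set EE := {x | (DifferentiableOn ℂ x.1 (ball 0 2) ∧ DifferentiableOn ℂ x.2.1 (ball 0 2)
  ∧ DifferentiableOn ℂ x.2.2 (ball 0 2)) ∧ ((∀ z, ‖x.1 z - 1‖ ≤ 1 / 200) ∧
  (∀ z, ‖x.2.1 z - 1‖ ≤ 1 / 200) ∧ (∀ z, ‖x.2.2 z‖ ≤ 1 / 200)) ∧ Sym x.1 x.2.1 x.2.2}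

theorem SSet_reg {x : EE} (hx : x ∈ SSet) : Reg x.1 x.2.1 x.2.2 where
  ca := x.1.continuous
  ca0 := x.2.1.continuous
  cB := x.2.2.continuous
  da := hx.1.1
  da0 := hx.1.2.1
  dB := hx.1.2.2
  ba := fun z => (hx.2.1.1 z).trans (by norm_num)
  ba0 := fun z => (hx.2.1.2.1 z).trans (by norm_num)
  bB := fun z => (hx.2.1.2.2 z).trans (by norm_num)

theorem isClosed_diff : IsClosed {f : ℂ →ᵇ ℂ | DifferentiableOn ℂ f (ball 0 2)} := by
  apply IsSeqClosed.isClosed
  intro fn f hfn hf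
  have h1 := (BoundedContinuousFunction.tendsto_iff_tendstoUniformly).1 hf
  have h2 : TendstoLocallyUniformlyOn (fun n z => fn n z) f atTop (ball 0 2) :=
    h1.tendstoUniformlyOn.tendstoLocallyUniformlyOn
  exact h2.differentiableOn (Filter.Eventually.of_forall hfn) isOpen_ball

theorem cont_eval (z : ℂ) : Continuous fun f : ℂ →ᵇ ℂ => f z := by
  apply LipschitzWith.continuous (K := 1)
  apply LipschitzWith.of_dist_le_mul
  intro f g
  simpa using BoundedContinuousFunction.dist_coe_le_dist (f := f) (g := g) z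

theorem isClosed_SSet : IsClosed SSet := by
  have e : SSet = ({x : EE | DifferentiableOn ℂ x.1 (ball 0 2)}
      ∩ {x : EE | DifferentiableOn ℂ x.2.1 (ball 0 2)}
      ∩ {x : EE | DifferentiableOn ℂ x.2.2 (ball 0 2)})
      ∩ ((⋂ z : ℂ, {x : EE | ‖x.1 z - 1‖ ≤ 1 / 200}) ∩ (⋂ z : ℂ, {x : EE | ‖x.2.1 z - 1‖ ≤ 1 / 200})
      ∩ (⋂ z : ℂ, {x : EE | ‖x.2.2 z‖ ≤ 1 / 200}))
      ∩ ((⋂ z : ℂ, {x : EE | x.1 (conj z) = conj (x.1 z)})
      ∩ (⋂ z : ℂ, {x : EE | x.2.1 (conj z) = conj (x.2.1 z)})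
      ∩ (⋂ z : ℂ, {x : EE | x.2.2 (conj z) = conj (x.2.2 z)})
      ∩ (⋂ z : ℂ, {x : EE | x.2.1 (-z) = x.2.1 z})
      ∩ (⋂ z : ℂ, {x : EE | x.2.2 (-z) = -x.2.2 z})) := by
    ext x
    simp only [SSet, mem_inter_iff, mem_iInter, mem_ofPred_eq]
    constructor
    · rintro ⟨⟨h1, h2, h3⟩, ⟨h4, h5, h6⟩, h7⟩
      exact ⟨⟨⟨⟨h1, h2⟩, h3⟩, ⟨⟨h4, h5⟩, h6⟩⟩, ⟨⟨⟨⟨h7.ra, h7.ra0⟩, h7.rB⟩, h7.ea0⟩, h7.oB⟩⟩
    · rintro ⟨⟨⟨⟨h1, h2⟩, h3⟩, ⟨⟨h4, h5⟩, h6⟩⟩, ⟨⟨⟨⟨h7, h8⟩, h9⟩, h10⟩, h11⟩⟩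
      exact ⟨⟨h1, h2, h3⟩, ⟨h4, h5, h6⟩, ⟨h7, h8, h9, h10, h11⟩⟩
  have ev1 : ∀ z : ℂ, Continuous fun x : EE => x.1 z := fun z =>
    (cont_eval z).comp continuous_fst
  have ev2 : ∀ z : ℂ, Continuous fun x : EE => x.2.1 z := fun z =>
    (cont_eval z).comp (continuous_fst.comp continuous_snd)
  have ev3 : ∀ z : ℂ, Continuous fun x : EE => x.2.2 z := fun z =>
    (cont_eval z).comp (continuous_snd.comp continuous_snd)
  rw [e]
  refine IsClosed.inter (IsClosed.inter ?_ ?_) ?_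
  · exact ((isClosed_diff.preimage continuous_fst).inter
      (isClosed_diff.preimage (continuous_fst.comp continuous_snd))).inter
      (isClosed_diff.preimage (continuous_snd.comp continuous_snd))
  · refine IsClosed.inter (IsClosed.inter ?_ ?_) ?_
    · exact isClosed_iInter fun z => isClosed_le ((ev1 z).sub continuous_const).norm continuous_const
    · exact isClosed_iInter fun z => isClosed_le ((ev2 z).sub continuous_const).norm continuous_const
    · exact isClosed_iInter fun z => isClosed_le (ev3 z).norm continuous_const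
  · refine IsClosed.inter (IsClosed.inter (IsClosed.inter (IsClosed.inter ?_ ?_) ?_) ?_) ?_
    · exact isClosed_iInter fun z => isClosed_eq (ev1 _) (Complex.continuous_conj.comp (ev1 z))
    · exact isClosed_iInter fun z => isClosed_eq (ev2 _) (Complex.continuous_conj.comp (ev2 z))
    · exact isClosed_iInter fun z => isClosed_eq (ev3 _) (Complex.continuous_conj.comp (ev3 z))
    · exact isClosed_iInter fun z => isClosed_eq (ev2 _) (ev2 z)
    · exact isClosed_iInter fun z => isClosed_eq (ev3 _) (ev3 z).neg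

theorem Reg.cont_an {a a0 B : ℂ → ℂ} (h : Reg a a0 B) :
    ContinuousOn (an a a0 B) (closedBall 0 2) := fun _ hz =>
  (h.diff_an (mem_cb.1 hz)).continuousAt.continuousWithinAt

theorem Reg.cont_a0n {a a0 B : ℂ → ℂ} (h : Reg a a0 B) :
    ContinuousOn (a0n a a0 B) (closedBall 0 2) := fun _ hz =>
  (h.diff_a0n (mem_cb.1 hz)).continuousAt.continuousWithinAt

theorem Reg.cont_BB {a a0 B : ℂ → ℂ} (h : Reg a a0 B) :
    ContinuousOn (BB a a0 B) (closedBall 0 2) := fun _ hz =>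
  (h.diff_BB ((mem_cb.1 hz).trans (by norm_num))).continuousAt.continuousWithinAt

theorem diffOn_mkB {F : ℂ → ℂ} (h : ∀ z : ℂ, ‖z‖ ≤ 2 → DifferentiableAt ℂ F z) :
    DifferentiableOn ℂ (mkB F) (ball 0 2) := by
  have hc : ContinuousOn F (closedBall 0 2) := fun z hz =>
    (h z (mem_cb.1 hz)).continuousAt.continuousWithinAt
  intro z hz
  have hz' : ‖z‖ < 2 := by simpa using hz
  apply DifferentiableAt.differentiableWithinAt
  have : (mkB F : ℂ → ℂ) =ᶠ[𝓝 z] F := by
    filter_upwards [isOpen_ball.mem_nhds hz] with w hw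
    have hw' : ‖w‖ < 2 := by simpa using hw
    rw [mkB_apply hc, cut_of_le hw'.le]
  rw [this.differentiableAt_iff]
  exact h z hz'.le

theorem Phi_mapsTo : MapsTo Phi SSet SSet := by
  intro x hx
  have hR := SSet_reg hx
  have hS := hx.2.2
  have e1 : ∀ z, (Phi x).1 z = an x.1 x.2.1 x.2.2 (cut z) := mkB_apply hR.cont_an
  have e2 : ∀ z, (Phi x).2.1 z = a0n x.1 x.2.1 x.2.2 (cut z) := mkB_apply hR.cont_a0n
  have e3 : ∀ z, (Phi x).2.2 z = BB x.1 x.2.1 x.2.2 (cut z) := mkB_apply hR.cont_BB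
  refine ⟨⟨?_, ?_, ?_⟩, ⟨?_, ?_, ?_⟩, ?_⟩
  · exact diffOn_mkB fun z hz => hR.diff_an hz
  · exact diffOn_mkB fun z hz => hR.diff_a0n hz
  · exact diffOn_mkB fun z hz => hR.diff_BB (hz.trans (by norm_num))
  · intro z
    rw [e1]
    exact (hR.an_close (norm_cut z)).trans (by norm_num)
  · intro z
    rw [e2]
    exact (hR.a0n_close (norm_cut z)).trans (by norm_num)
  · intro z
    rw [e3]
    exact (hR.BB_le ((norm_cut z).trans (by norm_num))).trans (by norm_num)
  · constructor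
    · intro z; rw [e1, e1, cut_conj, hS.an_conj]
    · intro z; rw [e2, e2, cut_conj, hS.a0n_conj]
    · intro z; rw [e3, e3, cut_conj, hS.BB_conj]
    · intro z; rw [e2, e2, cut_neg, hS.a0n_even]
    · intro z; rw [e3, e3, cut_neg, hS.BB_odd]

theorem norm_line_bound {f g : ℂ} {c : ℂ} {l : ℂ} {D : ℝ} (hf : ‖f - c‖ ≤ 1 / 200)
    (hg : ‖g‖ ≤ D) (hl : ‖l‖ * D < 1 / 200) : ‖f + l * g - c‖ ≤ 1 / 100 := by
  have e : f + l * g - c = (f - c) + l * g := by ring
  rw [e]
  refine (nadd hf (nmul le_rfl hg)).trans ?_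
  linarith

theorem Phi_lip {x y : EE} (hx : x ∈ SSet) (hy : y ∈ SSet) :
    dist (Phi x) (Phi y) ≤ 1 / 2 * dist x y := by
  rcases eq_or_lt_of_le (dist_nonneg (x := x) (y := y)) with h0 | hD
  · rw [← h0]
    have : x = y := dist_eq_zero.1 h0.symm
    rw [this]; simp
  set D := dist x y with hDdef
  have hRx := SSet_reg hx
  have hRy := SSet_reg hy
  -- differences
  set h : ℂ → ℂ := fun z => y.1 z - x.1 z with hh
  set k : ℂ → ℂ := fun z => y.2.1 z - x.2.1 z with hk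
  set m : ℂ → ℂ := fun z => y.2.2 z - x.2.2 z with hm
  have hhc : Continuous h := y.1.continuous.sub x.1.continuous
  have hkc : Continuous k := y.2.1.continuous.sub x.2.1.continuous
  have hmc : Continuous m := y.2.2.continuous.sub x.2.2.continuous
  have hhD : ∀ z, ‖h z‖ ≤ D := by
    intro z
    have h1 : dist (x.1 z) (y.1 z) ≤ dist x.1 y.1 := BoundedContinuousFunction.dist_coe_le_dist z
    have h2 : dist x.1 y.1 ≤ D := le_max_left _ _
    rw [dist_comm, dist_eq_norm] at h1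
    exact h1.trans h2
  have hkD : ∀ z, ‖k z‖ ≤ D := by
    intro z
    have h1 : dist (x.2.1 z) (y.2.1 z) ≤ dist x.2.1 y.2.1 :=
      BoundedContinuousFunction.dist_coe_le_dist z
    have h2 : dist x.2 y.2 ≤ D := le_max_right _ _
    have h3 : dist x.2.1 y.2.1 ≤ dist x.2 y.2 := le_max_left _ _
    rw [dist_comm, dist_eq_norm] at h1
    exact h1.trans (h3.trans h2)
  have hmD : ∀ z, ‖m z‖ ≤ D := by
    intro z
    have h1 : dist (x.2.2 z) (y.2.2 z) ≤ dist x.2.2 y.2.2 :=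
      BoundedContinuousFunction.dist_coe_le_dist z
    have h2 : dist x.2 y.2 ≤ D := le_max_right _ _
    have h3 : dist x.2.2 y.2.2 ≤ dist x.2 y.2 := le_max_right _ _
    rw [dist_comm, dist_eq_norm] at h1
    exact h1.trans (h3.trans h2)
  have hReg : ∀ l : ℂ, ‖l‖ * D < 1 / 200 →
      Reg (line x.1 h l) (line x.2.1 k l) (line x.2.2 m l) := by
    intro l hl
    constructor
    · exact x.1.continuous.add (continuous_const.mul hhc)
    · exact x.2.1.continuous.add (continuous_const.mul hkc)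
    · exact x.2.2.continuous.add (continuous_const.mul hmc)
    · exact hRx.da.add ((hRy.da.sub hRx.da).const_mul l)
    · exact hRx.da0.add ((hRy.da0.sub hRx.da0).const_mul l)
    · exact hRx.dB.add ((hRy.dB.sub hRx.dB).const_mul l)
    · intro z
      exact norm_line_bound (hx.2.1.1 z) (hhD z) hl
    · intro z
      exact norm_line_bound (hx.2.1.2.1 z) (hkD z) hl
    · intro z
      have h1 := norm_line_bound (c := 0) (by rw [sub_zero]; exact hx.2.1.2.2 z) (hmD z) hl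
      rwa [sub_zero] at h1
  have l0a : line x.1 h 0 = x.1 := by ext z; simp [line]
  have l0b : line x.2.1 k 0 = x.2.1 := by ext z; simp [line]
  have l0c : line x.2.2 m 0 = x.2.2 := by ext z; simp [line]
  have l1a : line x.1 h 1 = y.1 := by ext z; simp [line, hh]
  have l1b : line x.2.1 k 1 = y.2.1 := by ext z; simp [line, hk]
  have l1c : line x.2.2 m 1 = y.2.2 := by ext z; simp [line, hm]
  have key1 : ∀ z : ℂ, ‖z‖ ≤ 2 → ‖an y.1 y.2.1 y.2.2 z - an x.1 x.2.1 x.2.2 z‖ ≤ 1 / 2 * D := by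
    intro z hz
    have := lip_of_line (F := fun l => an (line x.1 h l) (line x.2.1 k l) (line x.2.2 m l) z)
      (q := 1) hD (fun l hl => diffl_an x.1.continuous hhc x.2.1.continuous hkc x.2.2.continuous
        hmc (hReg l hl) z) (fun l hl => (hReg l hl).an_close hz)
      (by simp only [l1a, l1b, l1c]; exact hRy.an_close hz)
    simpa only [l0a, l0b, l0c, l1a, l1b, l1c] using this
  have key2 : ∀ z : ℂ, ‖z‖ ≤ 2 → ‖a0n y.1 y.2.1 y.2.2 z - a0n x.1 x.2.1 x.2.2 z‖ ≤ 1 / 2 * D := by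
    intro z hz
    have := lip_of_line (F := fun l => a0n (line x.1 h l) (line x.2.1 k l) (line x.2.2 m l) z)
      (q := 1) hD (fun l hl => diffl_a0n x.1.continuous hhc x.2.1.continuous hkc x.2.2.continuous
        hmc (hReg l hl) z) (fun l hl => (hReg l hl).a0n_close hz)
      (by simp only [l1a, l1b, l1c]; exact hRy.a0n_close hz)
    simpa only [l0a, l0b, l0c, l1a, l1b, l1c] using this
  have key3 : ∀ z : ℂ, ‖z‖ ≤ 2 → ‖BB y.1 y.2.1 y.2.2 z - BB x.1 x.2.1 x.2.2 z‖ ≤ 1 / 2 * D := by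
    intro z hz
    have hz2 : ‖z‖ ≤ 2000 := hz.trans (by norm_num)
    have := lip_of_line (F := fun l => BB (line x.1 h l) (line x.2.1 k l) (line x.2.2 m l) z)
      (q := 0) hD (fun l hl => diffl_BB x.1.continuous hhc x.2.1.continuous hkc x.2.2.continuous
        hmc (hReg l hl) z) (fun l hl => by rw [sub_zero]; exact (hReg l hl).BB_le hz2)
      (by rw [sub_zero]; simp only [l1a, l1b, l1c]; exact hRy.BB_le hz2)
    simpa only [l0a, l0b, l0c, l1a, l1b, l1c] using this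
  have hD2 : 0 ≤ 1 / 2 * D := by positivity
  rw [Prod.dist_eq, Prod.dist_eq]
  apply max_le
  · rw [BoundedContinuousFunction.dist_le hD2]
    intro z
    rw [show (Phi x).1 z = an x.1 x.2.1 x.2.2 (cut z) from mkB_apply hRx.cont_an z,
      show (Phi y).1 z = an y.1 y.2.1 y.2.2 (cut z) from mkB_apply hRy.cont_an z,
      dist_comm, dist_eq_norm]
    exact key1 _ (norm_cut z)
  · apply max_le
    · rw [BoundedContinuousFunction.dist_le hD2]
      intro z
      rw [show (Phi x).2.1 z = a0n x.1 x.2.1 x.2.2 (cut z) from mkB_apply hRx.cont_a0n z,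
        show (Phi y).2.1 z = a0n y.1 y.2.1 y.2.2 (cut z) from mkB_apply hRy.cont_a0n z,
        dist_comm, dist_eq_norm]
      exact key2 _ (norm_cut z)
    · rw [BoundedContinuousFunction.dist_le hD2]
      intro z
      rw [show (Phi x).2.2 z = BB x.1 x.2.1 x.2.2 (cut z) from mkB_apply hRx.cont_BB z,
        show (Phi y).2.2 z = BB y.1 y.2.1 y.2.2 (cut z) from mkB_apply hRy.cont_BB z,
        dist_comm, dist_eq_norm]
      exact key3 _ (norm_cut z)

/-- The fixed point. -/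
theorem exists_fix : ∃ a a0 B : ℂ → ℂ, Reg a a0 B ∧ Sym a a0 B ∧
    ∀ z, ‖z‖ ≤ 2 → a z = an a a0 B z ∧ a0 z = a0n a a0 B z ∧ B z = BB a a0 B z := by
  have hcomp : IsComplete SSet := isClosed_SSet.isComplete
  have hcontr : ContractingWith (1 / 2) (Phi_mapsTo.restrict Phi SSet SSet) := by
    refine ⟨by norm_num, ?_⟩
    apply LipschitzWith.of_dist_le_mul
    intro x y
    have h2 := Phi_lip x.2 y.2
    have e : ((1 / 2 : NNReal) : ℝ) = 1 / 2 := by simp
    rw [e]
    exact h2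
  have h0 : ((BoundedContinuousFunction.const ℂ (1 : ℂ), BoundedContinuousFunction.const ℂ (1 : ℂ),
      (0 : ℂ →ᵇ ℂ)) : EE) ∈ SSet := by
    refine ⟨⟨?_, ?_, ?_⟩, ⟨?_, ?_, ?_⟩, ?_⟩
    · exact differentiableOn_const _
    · exact differentiableOn_const _
    · exact differentiableOn_const _
    · intro z; simp
    · intro z; simp
    · intro z; simp
    · constructor <;> intro z <;> simp
  obtain ⟨x, hx, hfix, -⟩ := hcontr.exists_fixedPoint' hcomp Phi_mapsTo h0 (edist_ne_top _ _)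
  have hR := SSet_reg hx
  refine ⟨x.1, x.2.1, x.2.2, hR, hx.2.2, ?_⟩
  intro z hz
  have e1 : (Phi x).1 z = an x.1 x.2.1 x.2.2 (cut z) := mkB_apply hR.cont_an z
  have e2 : (Phi x).2.1 z = a0n x.1 x.2.1 x.2.2 (cut z) := mkB_apply hR.cont_a0n z
  have e3 : (Phi x).2.2 z = BB x.1 x.2.1 x.2.2 (cut z) := mkB_apply hR.cont_BB z
  rw [cut_of_le hz] at e1 e2 e3
  have hf : Phi x = x := hfix
  rw [hf] at e1 e2 e3
  exact ⟨e1, e2, e3⟩

end Pool.Agent.Work.MP_090684_an
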