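import Mathlib

set_option autoImplicit false

namespace Pool.Agent.Work.MP_090684_an

open Complex Metric Set

/-- The open circle domain. -/
def SO : Set ℂ := {w | ‖w‖ < 1000 ∧ 1 / 10000 < ‖w‖ ∧ 1 / 10000 < ‖w - 1‖ ∧ 1 / 10000 < ‖w + 1‖}

/-- The closed circle domain. -/
def SK : Set ℂ := {w | ‖w‖ ≤ 1000 ∧ 1 / 10000 ≤ ‖w‖ ∧ 1 / 10000 ≤ ‖w - 1‖ ∧ 1 / 10000 ≤ ‖w + 1‖}

theorem SO_subset_SK : SO ⊆ SK := fun _ h => ⟨h.1.le, h.2.1.le, h.2.2.1.le, h.2.2.2.le⟩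

theorem isOpen_SO : IsOpen SO := by
  unfold SO
  refine IsOpen.and (isOpen_lt continuous_norm continuous_const)
    (IsOpen.and (isOpen_lt continuous_const continuous_norm)
    (IsOpen.and (isOpen_lt continuous_const (by fun_prop)) (isOpen_lt continuous_const (by fun_prop))))

theorem isClosed_SK : IsClosed SK := by
  unfold SK
  refine IsClosed.and (isClosed_le continuous_norm continuous_const)
    (IsClosed.and (isClosed_le continuous_const continuous_norm)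
    (IsClosed.and (isClosed_le continuous_const (by fun_prop))
      (isClosed_le continuous_const (by fun_prop))))

theorem isCompact_SK : IsCompact SK := by
  apply Metric.isCompact_of_isClosed_isBounded isClosed_SK
  apply (isBounded_closedBall (x := (0 : ℂ)) (r := 1000)).subset
  intro w hw
  simpa using hw.1

theorem sq_norm (x : ℂ) : ‖x‖ ^ 2 = x.re ^ 2 + x.im ^ 2 := by
  rw [← Complex.normSq_eq_norm_sq, Complex.normSq_apply]
  ring

theorem lt_norm_iff {x : ℂ} {c : ℝ} (hc : 0 ≤ c) : c < ‖x‖ ↔ c ^ 2 < x.re ^ 2 + x.im ^ 2 := by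
  rw [← sq_norm]
  exact ⟨fun h => pow_lt_pow_left₀ h hc two_ne_zero, fun h => lt_of_pow_lt_pow_left₀ 2 (norm_nonneg _) h⟩

theorem norm_lt_iff {x : ℂ} {c : ℝ} (hc : 0 ≤ c) : ‖x‖ < c ↔ x.re ^ 2 + x.im ^ 2 < c ^ 2 := by
  rw [← sq_norm]
  exact ⟨fun h => pow_lt_pow_left₀ h (norm_nonneg _) two_ne_zero,
    fun h => lt_of_pow_lt_pow_left₀ 2 hc h⟩

theorem mem_SO {w : ℂ} : w ∈ SO ↔ w.re ^ 2 + w.im ^ 2 < 1000 ^ 2 ∧
    (1 / 10000) ^ 2 < w.re ^ 2 + w.im ^ 2 ∧ (1 / 10000) ^ 2 < (w.re - 1) ^ 2 + w.im ^ 2 ∧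
    (1 / 10000) ^ 2 < (w.re + 1) ^ 2 + w.im ^ 2 := by
  unfold SO
  simp only [mem_ofPred_eq]
  rw [norm_lt_iff (by norm_num), lt_norm_iff (by norm_num), lt_norm_iff (by norm_num),
    lt_norm_iff (by norm_num)]
  simp

theorem isPreconnected_SO : IsPreconnected SO := by
  set C1 : Set ℂ := ball 0 1000 ∩ {w | 1 / 10000 < w.im} with hC1
  set C2 : Set ℂ := ball 0 1000 ∩ {w | w.im < -(1 / 10000)} with hC2
  set C3 : Set ℂ := ball 0 1000 ∩ {w | 1 + 1 / 10000 < w.re} with hC3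
  set C4 : Set ℂ := ball 0 1000 ∩ {w | w.re < -(1 + 1 / 10000)} with hC4
  have c1 : IsPreconnected C1 := ((convex_ball _ _).inter (convex_halfSpace_im_gt _)).isPreconnected
  have c2 : IsPreconnected C2 := ((convex_ball _ _).inter (convex_halfSpace_im_lt _)).isPreconnected
  have c3 : IsPreconnected C3 := ((convex_ball _ _).inter (convex_halfSpace_re_gt _)).isPreconnected
  have c4 : IsPreconnected C4 := ((convex_ball _ _).inter (convex_halfSpace_re_lt _)).isPreconnected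
  have mb : ∀ w : ℂ, w ∈ ball (0 : ℂ) 1000 ↔ w.re ^ 2 + w.im ^ 2 < 1000 ^ 2 := by
    intro w
    rw [← norm_lt_iff (by norm_num), mem_ball, dist_zero_right]
  have s1 : C1 ⊆ SO := by
    rintro w ⟨h1, h2⟩
    rw [mb] at h1
    simp only [mem_ofPred_eq] at h2
    rw [mem_SO]
    refine ⟨h1, ?_, ?_, ?_⟩ <;> nlinarith [sq_nonneg w.re, sq_nonneg (w.re - 1), sq_nonneg (w.re + 1)]
  have s2 : C2 ⊆ SO := by
    rintro w ⟨h1, h2⟩
    rw [mb] at h1
    simp only [mem_ofPred_eq] at h2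
    rw [mem_SO]
    refine ⟨h1, ?_, ?_, ?_⟩ <;> nlinarith [sq_nonneg w.re, sq_nonneg (w.re - 1), sq_nonneg (w.re + 1)]
  have s3 : C3 ⊆ SO := by
    rintro w ⟨h1, h2⟩
    rw [mb] at h1
    simp only [mem_ofPred_eq] at h2
    rw [mem_SO]
    refine ⟨h1, ?_, ?_, ?_⟩ <;> nlinarith [sq_nonneg w.im]
  have s4 : C4 ⊆ SO := by
    rintro w ⟨h1, h2⟩
    rw [mb] at h1
    simp only [mem_ofPred_eq] at h2
    rw [mem_SO]
    refine ⟨h1, ?_, ?_, ?_⟩ <;> nlinarith [sq_nonneg w.im]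
  have p13 : (⟨5, 5⟩ : ℂ) ∈ C1 ∧ (⟨5, 5⟩ : ℂ) ∈ C3 := by
    refine ⟨⟨?_, ?_⟩, ⟨?_, ?_⟩⟩ <;> first | (rw [mb]; norm_num) | (simp only [mem_ofPred_eq]; norm_num)
  have p23 : (⟨5, -5⟩ : ℂ) ∈ C2 ∧ (⟨5, -5⟩ : ℂ) ∈ C3 := by
    refine ⟨⟨?_, ?_⟩, ⟨?_, ?_⟩⟩ <;> first | (rw [mb]; norm_num) | (simp only [mem_ofPred_eq]; norm_num)
  have p14 : (⟨-5, 5⟩ : ℂ) ∈ C1 ∧ (⟨-5, 5⟩ : ℂ) ∈ C4 := by
    refine ⟨⟨?_, ?_⟩, ⟨?_, ?_⟩⟩ <;> first | (rw [mb]; norm_num) | (simp only [mem_ofPred_eq]; norm_num)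
  set H : Set ℂ := ((C1 ∪ C3) ∪ C2) ∪ C4 with hH
  have hHc : IsPreconnected H := by
    have a1 : IsPreconnected (C1 ∪ C3) := IsPreconnected.union _ p13.1 p13.2 c1 c3
    have a2 : IsPreconnected ((C1 ∪ C3) ∪ C2) :=
      IsPreconnected.union (⟨5, -5⟩ : ℂ) (Or.inr p23.2) p23.1 a1 c2
    exact IsPreconnected.union (⟨-5, 5⟩ : ℂ) (Or.inl (Or.inl p14.1)) p14.2 a2 c4
  have hHS : H ⊆ SO := union_subset (union_subset (union_subset s1 s3) s2) s4
  have hx : (⟨5, 5⟩ : ℂ) ∈ H := Or.inl (Or.inl (Or.inl p13.1))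
  apply isPreconnected_of_forall (⟨5, 5⟩ : ℂ)
  intro w hw
  have hw' := mem_SO.1 hw
  by_cases hH' : w ∈ H
  · exact ⟨H, hHS, hx, hH', hHc⟩
  -- now the real part is small
  have hwb : w ∈ ball (0 : ℂ) 1000 := (mb w).2 hw'.1
  have hre1 : w.re ≤ 1 + 1 / 10000 := by
    by_contra hc
    push Not at hc
    exact hH' (Or.inl (Or.inl (Or.inr ⟨hwb, hc⟩)))
  have hre2 : -(1 + 1 / 10000) ≤ w.re := by
    by_contra hc
    push Not at hc
    exact hH' (Or.inr ⟨hwb, hc⟩)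
  have him1 : w.im ≤ 1 / 10000 := by
    by_contra hc
    push Not at hc
    exact hH' (Or.inl (Or.inl (Or.inl ⟨hwb, hc⟩)))
  have him2 : -(1 / 10000) ≤ w.im := by
    by_contra hc
    push Not at hc
    exact hH' (Or.inl (Or.inr ⟨hwb, hc⟩))
  have hre3 : w.re ^ 2 ≤ 2 := by nlinarith
  rcases le_total 0 w.im with hi | hi
  · -- go up
    refine ⟨H ∪ segment ℝ w ⟨w.re, 1⟩, ?_, Or.inl hx, Or.inr (left_mem_segment _ _ _), ?_⟩
    · apply union_subset hHS
      rintro u ⟨s, t, hs, ht, hst, rfl⟩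
      rw [mem_SO]
      obtain ⟨h0, h1, h2, h3⟩ := hw'
      have e1 : (s • w + t • (⟨w.re, 1⟩ : ℂ)).re = w.re := by
        simp
        rw [← add_mul, hst, one_mul]
      have e2 : (s • w + t • (⟨w.re, 1⟩ : ℂ)).im = s * w.im + t := by
        simp
      have e3 : w.im ≤ s * w.im + t := by
        have : s = 1 - t := by linarith
        rw [this]
        nlinarith
      have e4 : s * w.im + t ≤ 1 := by nlinarith
      have e5 : w.im ^ 2 ≤ (s * w.im + t) ^ 2 := pow_le_pow_left₀ hi e3 2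
      have e6 : (s * w.im + t) ^ 2 ≤ 1 ^ 2 := pow_le_pow_left₀ (hi.trans e3) e4 2
      rw [e1, e2]
      refine ⟨?_, ?_, ?_, ?_⟩ <;> linarith
    · apply IsPreconnected.union (⟨w.re, 1⟩ : ℂ) _ (right_mem_segment _ _ _) hHc
        (convex_segment _ _).isPreconnected
      left; left; left
      refine ⟨?_, ?_⟩
      · rw [mb]
        simp only
        linarith
      · simp only [mem_ofPred_eq]
        norm_num
  · -- go down
    refine ⟨H ∪ segment ℝ w ⟨w.re, -1⟩, ?_, Or.inl hx, Or.inr (left_mem_segment _ _ _), ?_⟩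
    · apply union_subset hHS
      rintro u ⟨s, t, hs, ht, hst, rfl⟩
      rw [mem_SO]
      obtain ⟨h0, h1, h2, h3⟩ := hw'
      have e1 : (s • w + t • (⟨w.re, -1⟩ : ℂ)).re = w.re := by
        simp
        rw [← add_mul, hst, one_mul]
      have e2 : (s • w + t • (⟨w.re, -1⟩ : ℂ)).im = s * w.im - t := by
        simp
        ring
      have e3 : s * w.im - t ≤ w.im := by
        have : s = 1 - t := by linarith
        rw [this]
        nlinarith
      have e4 : -1 ≤ s * w.im - t := by nlinarith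
      have e5 : (-w.im) ^ 2 ≤ (-(s * w.im - t)) ^ 2 :=
        pow_le_pow_left₀ (by linarith) (by linarith) 2
      have e6 : (-(s * w.im - t)) ^ 2 ≤ 1 ^ 2 := pow_le_pow_left₀ (by linarith) (by linarith) 2
      rw [neg_sq, neg_sq] at e5
      rw [neg_sq] at e6
      rw [e1, e2]
      refine ⟨?_, ?_, ?_, ?_⟩ <;> linarith
    · apply IsPreconnected.union (⟨w.re, -1⟩ : ℂ) _ (right_mem_segment _ _ _) hHc
        (convex_segment _ _).isPreconnected
      left; right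
      refine ⟨?_, ?_⟩
      · rw [mb]
        simp only
        linarith
      · simp only [mem_ofPred_eq]
        norm_num

theorem isConnected_SO : IsConnected SO := by
  refine ⟨⟨⟨5, 5⟩, ?_⟩, isPreconnected_SO⟩
  rw [mem_SO]
  norm_num

end Pool.Agent.Work.MP_090684_an
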