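import Pool.Agent.Work.MP_090684_an.Holes

set_option autoImplicit false

namespace Pool.Agent.Work.MP_090684_an

open Complex Metric Set MeasureTheory Filter Topology
open scoped Real ComplexConjugate

theorem nmul {x y : ℂ} {X Y : ℝ} (hx : ‖x‖ ≤ X) (hy : ‖y‖ ≤ Y) : ‖x * y‖ ≤ X * Y := by
  rw [norm_mul]
  exact mul_le_mul hx hy (norm_nonneg _) ((norm_nonneg _).trans hx)

theorem ndiv {x y : ℂ} {X m : ℝ} (hx : ‖x‖ ≤ X) (hm : 0 < m) (hy : m ≤ ‖y‖) :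
    ‖x / y‖ ≤ X / m := by
  rw [norm_div]
  exact div_le_div₀ ((norm_nonneg _).trans hx) hx hm hy

theorem nadd {x y : ℂ} {X Y : ℝ} (hx : ‖x‖ ≤ X) (hy : ‖y‖ ≤ Y) : ‖x + y‖ ≤ X + Y :=
  (norm_add_le _ _).trans (add_le_add hx hy)

theorem nsub {x y : ℂ} {X Y : ℝ} (hx : ‖x‖ ≤ X) (hy : ‖y‖ ≤ Y) : ‖x - y‖ ≤ X + Y :=
  (norm_sub_le _ _).trans (add_le_add hx hy)

noncomputable def rho : ℂ := 1 / 10000
noncomputable def TT : ℂ := 1000000

theorem norm_rho : ‖rho‖ = 1 / 10000 := by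
  simp [rho]

theorem norm_TT : ‖TT‖ = 1000000 := by
  simp [TT]

theorem rho_ne : rho ≠ 0 := by
  simp [rho]

theorem TT_ne : TT ≠ 0 := by
  simp [TT]

theorem conj_rho : conj rho = rho := by
  simp only [rho, map_div₀, map_one, map_ofNat]

theorem conj_TT : conj TT = TT := by
  simp only [TT, map_ofNat]

noncomputable def g1 (a0 : ℂ → ℂ) (z : ℂ) : ℂ := a0 (rho / (1 + rho * z)) / (1 + rho * z)

noncomputable def g2 (a B : ℂ → ℂ) (z : ℂ) : ℂ :=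
  B (1 + rho * z) + a (-rho / (2 + rho * z)) / (2 + rho * z)

noncomputable def cc (a g : ℂ → ℂ) : ℂ :=
  (2 * π : ℂ)⁻¹ * ∫ θ in (0 : ℝ)..(2 * π), a (exp (θ * I)) * g (exp (-(θ * I)))

noncomputable def ell (a a0 B : ℂ → ℂ) : ℂ := -(cc a (g2 a B)) / cc a (g1 a0)

noncomputable def kap (a a0 B : ℂ → ℂ) : ℂ := ell a a0 B * a0 0 + 2 * a 0

noncomputable def bb (a a0 B : ℂ → ℂ) (z : ℂ) : ℂ := ell a a0 B * g1 a0 z + g2 a B z

noncomputable def b0 (a B : ℂ → ℂ) (z : ℂ) : ℂ :=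
  B (rho * z) + a (rho / (rho * z - 1)) / (rho * z - 1)
    + a (-rho / (rho * z + 1)) / (rho * z + 1)

noncomputable def SS (a a0 B : ℂ → ℂ) (w : ℂ) : ℂ :=
  ell a a0 B * a0 (rho * w / TT) + TT / (TT - w) * a (rho * w / (TT - w))
    + TT / (TT + w) * a (-(rho * w) / (TT + w))

noncomputable def AA (a a0 B : ℂ → ℂ) (w : ℂ) : ℂ := SS a a0 B w / kap a a0 B

noncomputable def BB (a a0 B : ℂ → ℂ) (w : ℂ) : ℂ :=
  kap a a0 B * ((ell a a0 B)⁻¹ * (rho ^ 2 / TT) * b0 a B (rho * w / TT)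
    + rho ^ 2 / (TT - w) * bb a a0 B (rho * w / (TT - w))
    - rho ^ 2 / (TT + w) * bb a a0 B (-(rho * w) / (TT + w)))

/-- the part of `Q` singular at the central hole -/
noncomputable def qc (a a0 B : ℂ → ℂ) (w : ℂ) : ℂ :=
  (ell a a0 B)⁻¹ * rho ^ 2 * b0 a B (rho / w) / w

/-- the part of `Q` singular at the hole `1` -/
noncomputable def qp (a a0 B : ℂ → ℂ) (w : ℂ) : ℂ :=
  rho ^ 2 * bb a a0 B (rho / (w - 1)) / (w - 1)

/-- the part of `Q` singular at the hole `-1` -/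
noncomputable def qm (a a0 B : ℂ → ℂ) (w : ℂ) : ℂ :=
  -(rho ^ 2 * bb a a0 B (-rho / (w + 1)) / (w + 1))

noncomputable def an (a a0 B : ℂ → ℂ) (z : ℂ) : ℂ :=
  AA a a0 B (1 + rho * z) + qc a a0 B (1 + rho * z) + qm a a0 B (1 + rho * z)

noncomputable def a0n (a a0 B : ℂ → ℂ) (z : ℂ) : ℂ :=
  AA a a0 B (rho * z) + qp a a0 B (rho * z) + qm a a0 B (rho * z)

structure Reg (a a0 B : ℂ → ℂ) : Prop where
  ca : Continuous a
  ca0 : Continuous a0
  cB : Continuous B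
  da : DifferentiableOn ℂ a (ball 0 2)
  da0 : DifferentiableOn ℂ a0 (ball 0 2)
  dB : DifferentiableOn ℂ B (ball 0 2)
  ba : ∀ z, ‖a z - 1‖ ≤ 1 / 100
  ba0 : ∀ z, ‖a0 z - 1‖ ≤ 1 / 100
  bB : ∀ z, ‖B z‖ ≤ 1 / 100

theorem norm_le_of_close {x y : ℂ} {e : ℝ} (h : ‖x - y‖ ≤ e) : ‖x‖ ≤ ‖y‖ + e := by
  have := norm_add_le (x - y) y
  rw [sub_add_cancel] at this
  linarith

theorem le_norm_of_close {x y : ℂ} {e : ℝ} (h : ‖x - y‖ ≤ e) : ‖y‖ - e ≤ ‖x‖ := by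
  have := norm_sub_norm_le y x
  rw [norm_sub_rev] at this
  linarith

theorem Reg.na {a a0 B : ℂ → ℂ} (h : Reg a a0 B) (z : ℂ) : ‖a z‖ ≤ 101 / 100 := by
  have := norm_le_of_close (h.ba z)
  rw [norm_one] at this
  linarith

theorem Reg.na0 {a a0 B : ℂ → ℂ} (h : Reg a a0 B) (z : ℂ) : ‖a0 z‖ ≤ 101 / 100 := by
  have := norm_le_of_close (h.ba0 z)
  rw [norm_one] at this
  linarith

theorem norm_rho_mul {z : ℂ} (hz : ‖z‖ ≤ 2) : ‖rho * z‖ ≤ 1 / 5000 := by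
  rw [norm_mul, norm_rho]
  linarith

theorem one_add_close {z : ℂ} (hz : ‖z‖ ≤ 2) : ‖(1 + rho * z) - 1‖ ≤ 1 / 5000 := by
  rw [add_sub_cancel_left]
  exact norm_rho_mul hz

theorem norm_one_add {z : ℂ} (hz : ‖z‖ ≤ 2) : 4999 / 5000 ≤ ‖1 + rho * z‖ := by
  have := le_norm_of_close (one_add_close hz)
  rw [norm_one] at this
  linarith

theorem norm_two_add {z : ℂ} (hz : ‖z‖ ≤ 2) : 9999 / 5000 ≤ ‖2 + rho * z‖ := by
  have h : ‖(2 + rho * z) - 2‖ ≤ 1 / 5000 := by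
    rw [add_sub_cancel_left]
    exact norm_rho_mul hz
  have := le_norm_of_close h
  rw [show ‖(2 : ℂ)‖ = 2 by simp] at this
  linarith

theorem norm_sub_one' {z : ℂ} (hz : ‖z‖ ≤ 2) : 4999 / 5000 ≤ ‖rho * z - 1‖ := by
  have h := norm_rho_mul hz
  have := norm_sub_norm_le (1 : ℂ) (rho * z)
  rw [norm_one, norm_sub_rev] at this
  linarith

theorem norm_add_one' {z : ℂ} (hz : ‖z‖ ≤ 2) : 4999 / 5000 ≤ ‖rho * z + 1‖ := by
  have := norm_one_add hz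
  rwa [add_comm] at this

theorem Reg.g1_close {a a0 B : ℂ → ℂ} (h : Reg a a0 B) {z : ℂ} (hz : ‖z‖ ≤ 2) :
    ‖g1 a0 z - 1‖ ≤ 11 / 1000 := by
  have hw := norm_one_add hz
  have hne : 1 + rho * z ≠ 0 := by
    intro h0; rw [h0, norm_zero] at hw; norm_num at hw
  have e : g1 a0 z - 1 = ((a0 (rho / (1 + rho * z)) - 1) - ((1 + rho * z) - 1)) / (1 + rho * z) := by
    unfold g1
    field_simp
    ring
  rw [e]
  refine (ndiv (nsub (h.ba0 _) (one_add_close hz)) (by norm_num) hw).trans (by norm_num)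

theorem Reg.g2_close {a a0 B : ℂ → ℂ} (h : Reg a a0 B) {z : ℂ} (hz : ‖z‖ ≤ 2) :
    ‖g2 a B z - 1 / 2‖ ≤ 16 / 1000 := by
  have hw := norm_two_add hz
  have hne : 2 + rho * z ≠ 0 := by
    intro h0; rw [h0, norm_zero] at hw; norm_num at hw
  have e : g2 a B z - 1 / 2 = B (1 + rho * z) +
      (2 * (a (-rho / (2 + rho * z)) - 1) - rho * z) / (2 * (2 + rho * z)) := by
    unfold g2
    field_simp
    ring
  rw [e]
  have h2 : 2 * (9999 / 5000) ≤ ‖2 * (2 + rho * z)‖ := by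
    rw [norm_mul, show ‖(2 : ℂ)‖ = 2 by simp]
    linarith
  refine (nadd (h.bB _) (ndiv (nsub (nmul (show ‖(2 : ℂ)‖ ≤ 2 by simp) (h.ba _))
    (norm_rho_mul hz)) (by norm_num) h2)).trans (by norm_num)

theorem cont_cc {a g : ℂ → ℂ} (ha : ContinuousOn a (closedBall 0 2))
    (hg : ContinuousOn g (closedBall 0 2)) :
    Continuous fun θ : ℝ => a (exp (θ * I)) * g (exp (-(θ * I))) := by
  have h1 : ∀ θ : ℝ, exp (θ * I) ∈ closedBall (0 : ℂ) 2 := by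
    intro θ
    simp [Complex.norm_exp_ofReal_mul_I]
  have h2 : ∀ θ : ℝ, exp (-(θ * I)) ∈ closedBall (0 : ℂ) 2 := by
    intro θ
    have : exp (-(θ * I)) = exp ((-θ : ℝ) * I) := by push_cast; ring_nf
    rw [this]
    simp only [mem_closedBall, dist_zero_right, Complex.norm_exp_ofReal_mul_I]
    norm_num
  apply Continuous.mul
  · exact ha.comp_continuous (by fun_prop) h1
  · exact hg.comp_continuous (by fun_prop) h2

theorem cc_close {a g : ℂ → ℂ} (ha : ContinuousOn a (closedBall 0 2))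
    (hg : ContinuousOn g (closedBall 0 2)) {q : ℂ} {e : ℝ}
    (h : ∀ u v : ℂ, ‖u‖ = 1 → ‖v‖ = 1 → ‖a u * g v - q‖ ≤ e) : ‖cc a g - q‖ ≤ e := by
  have hc := cont_cc ha hg
  have hpi : (0 : ℝ) < 2 * π := by positivity
  have hpic : (2 * π : ℂ) ≠ 0 := by
    simp [Real.pi_ne_zero]
  have e1 : cc a g - q = (2 * π : ℂ)⁻¹ *
      ∫ θ in (0 : ℝ)..(2 * π), (a (exp (θ * I)) * g (exp (-(θ * I))) - q) := by
    rw [intervalIntegral.integral_sub (hc.intervalIntegrable _ _) (by simp), mul_sub]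
    unfold cc
    congr 1
    rw [intervalIntegral.integral_const, sub_zero, Complex.real_smul]
    push_cast
    field_simp
  rw [e1, norm_mul]
  have h1 : ‖∫ θ in (0 : ℝ)..(2 * π), (a (exp (θ * I)) * g (exp (-(θ * I))) - q)‖
      ≤ e * |2 * π - 0| := by
    apply intervalIntegral.norm_integral_le_of_norm_le_const
    intro θ _
    apply h
    · exact Complex.norm_exp_ofReal_mul_I θ
    · have : exp (-(θ * I)) = exp ((-θ : ℝ) * I) := by push_cast; ring_nf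
      rw [this]
      exact Complex.norm_exp_ofReal_mul_I _
  rw [sub_zero, abs_of_pos hpi] at h1
  have h2 : ‖(2 * π : ℂ)⁻¹‖ = (2 * π)⁻¹ := by
    rw [norm_inv, norm_mul, Complex.norm_real]
    simp [abs_of_pos Real.pi_pos]
  rw [h2]
  calc (2 * π)⁻¹ * _ ≤ (2 * π)⁻¹ * (e * (2 * π)) := by gcongr
    _ = e := by field_simp

theorem ne_of_norm_ge {x : ℂ} {m : ℝ} (hm : 0 < m) (h : m ≤ ‖x‖) : x ≠ 0 := by
  intro h0
  rw [h0, norm_zero] at h
  linarith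

theorem mem_cb {z : ℂ} : z ∈ closedBall (0 : ℂ) 2 ↔ ‖z‖ ≤ 2 := by simp

theorem cont_g1 {a0 : ℂ → ℂ} (h : Continuous a0) : ContinuousOn (g1 a0) (closedBall 0 2) := by
  have hne : ∀ z ∈ closedBall (0 : ℂ) 2, 1 + rho * z ≠ 0 := fun z hz =>
    ne_of_norm_ge (by norm_num) (norm_one_add (mem_cb.1 hz))
  have h1 : ContinuousOn (fun z : ℂ => 1 + rho * z) (closedBall 0 2) := by fun_prop
  exact (h.comp_continuousOn (continuousOn_const.div h1 hne)).div h1 hne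

theorem cont_g2 {a B : ℂ → ℂ} (h : Continuous a) (hB : Continuous B) :
    ContinuousOn (g2 a B) (closedBall 0 2) := by
  have hne : ∀ z ∈ closedBall (0 : ℂ) 2, 2 + rho * z ≠ 0 := fun z hz =>
    ne_of_norm_ge (by norm_num) (norm_two_add (mem_cb.1 hz))
  have h1 : ContinuousOn (fun z : ℂ => 2 + rho * z) (closedBall 0 2) := by fun_prop
  have h2 : ContinuousOn (fun z : ℂ => 1 + rho * z) (closedBall 0 2) := by fun_prop
  exact (hB.comp_continuousOn h2).add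
    ((h.comp_continuousOn (continuousOn_const.div h1 hne)).div h1 hne)

theorem Reg.cc1 {a a0 B : ℂ → ℂ} (h : Reg a a0 B) : ‖cc a (g1 a0) - 1‖ ≤ 22 / 1000 := by
  apply cc_close h.ca.continuousOn (cont_g1 h.ca0)
  intro u v hu hv
  have h1 := h.g1_close (z := v) (by rw [hv]; norm_num)
  have h2 := norm_le_of_close h1
  rw [norm_one] at h2
  have e : a u * g1 a0 v - 1 = (a u - 1) * g1 a0 v + (g1 a0 v - 1) := by ring
  rw [e]
  exact (nadd (nmul (h.ba _) h2) h1).trans (by norm_num)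

theorem Reg.cc2 {a a0 B : ℂ → ℂ} (h : Reg a a0 B) : ‖cc a (g2 a B) - 1 / 2‖ ≤ 22 / 1000 := by
  apply cc_close h.ca.continuousOn (cont_g2 h.ca h.cB)
  intro u v hu hv
  have h1 := h.g2_close (z := v) (by rw [hv]; norm_num)
  have h2 := norm_le_of_close h1
  rw [show ‖(1 / 2 : ℂ)‖ = 1 / 2 by simp] at h2
  have e : a u * g2 a B v - 1 / 2 = (a u - 1) * g2 a B v + (g2 a B v - 1 / 2) := by ring
  rw [e]
  exact (nadd (nmul (h.ba _) h2) h1).trans (by norm_num)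

theorem Reg.cc1_ne {a a0 B : ℂ → ℂ} (h : Reg a a0 B) : cc a (g1 a0) ≠ 0 := by
  have := le_norm_of_close h.cc1
  rw [norm_one] at this
  exact ne_of_norm_ge (m := 978 / 1000) (by norm_num) (by linarith)

theorem Reg.ell_close {a a0 B : ℂ → ℂ} (h : Reg a a0 B) :
    ‖ell a a0 B + 1 / 2‖ ≤ 35 / 1000 := by
  have h1 := le_norm_of_close h.cc1
  rw [norm_one] at h1
  have hne := h.cc1_ne
  have e : ell a a0 B + 1 / 2 = ((cc a (g1 a0) - 1) * (1 / 2) - (cc a (g2 a B) - 1 / 2))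
      / cc a (g1 a0) := by
    unfold ell
    field_simp
    ring
  rw [e]
  refine (ndiv (nsub (nmul h.cc1 (show ‖(1 / 2 : ℂ)‖ ≤ 1 / 2 by simp)) h.cc2)
    (m := 978 / 1000) (by norm_num) (by linarith)).trans (by norm_num)

theorem Reg.ell_le {a a0 B : ℂ → ℂ} (h : Reg a a0 B) : ‖ell a a0 B‖ ≤ 535 / 1000 := by
  have h1 := h.ell_close
  rw [← sub_neg_eq_add] at h1
  have := norm_le_of_close h1
  rw [norm_neg, show ‖(1 / 2 : ℂ)‖ = 1 / 2 by simp] at this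
  linarith

theorem Reg.ell_ge {a a0 B : ℂ → ℂ} (h : Reg a a0 B) : 465 / 1000 ≤ ‖ell a a0 B‖ := by
  have h1 := h.ell_close
  rw [← sub_neg_eq_add] at h1
  have := le_norm_of_close h1
  rw [norm_neg, show ‖(1 / 2 : ℂ)‖ = 1 / 2 by simp] at this
  linarith

theorem Reg.ell_ne {a a0 B : ℂ → ℂ} (h : Reg a a0 B) : ell a a0 B ≠ 0 :=
  ne_of_norm_ge (by norm_num) h.ell_ge

theorem Reg.kap_close {a a0 B : ℂ → ℂ} (h : Reg a a0 B) :
    ‖kap a a0 B - 3 / 2‖ ≤ 61 / 1000 := by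
  have e : kap a a0 B - 3 / 2 = ell a a0 B * (a0 0 - 1) + (ell a a0 B + 1 / 2)
      + 2 * (a 0 - 1) := by
    unfold kap; ring
  rw [e]
  exact (nadd (nadd (nmul h.ell_le (h.ba0 _)) h.ell_close)
    (nmul (show ‖(2 : ℂ)‖ ≤ 2 by simp) (h.ba _))).trans (by norm_num)

theorem Reg.kap_le {a a0 B : ℂ → ℂ} (h : Reg a a0 B) : ‖kap a a0 B‖ ≤ 16 / 10 := by
  have := norm_le_of_close h.kap_close
  rw [show ‖(3 / 2 : ℂ)‖ = 3 / 2 by simp] at this
  linarith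

theorem Reg.kap_ge {a a0 B : ℂ → ℂ} (h : Reg a a0 B) : 14 / 10 ≤ ‖kap a a0 B‖ := by
  have := le_norm_of_close h.kap_close
  rw [show ‖(3 / 2 : ℂ)‖ = 3 / 2 by simp] at this
  linarith

theorem Reg.kap_ne {a a0 B : ℂ → ℂ} (h : Reg a a0 B) : kap a a0 B ≠ 0 :=
  ne_of_norm_ge (by norm_num) h.kap_ge

theorem Reg.bb_le {a a0 B : ℂ → ℂ} (h : Reg a a0 B) {z : ℂ} (hz : ‖z‖ ≤ 2) :
    ‖bb a a0 B z‖ ≤ 11 / 10 := by
  have h1 := norm_le_of_close (h.g1_close hz)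
  have h2 := norm_le_of_close (h.g2_close hz)
  rw [norm_one] at h1
  rw [show ‖(1 / 2 : ℂ)‖ = 1 / 2 by simp] at h2
  exact (nadd (nmul h.ell_le h1) h2).trans (by norm_num)

theorem Reg.b0_le {a a0 B : ℂ → ℂ} (h : Reg a a0 B) {z : ℂ} (hz : ‖z‖ ≤ 2) :
    ‖b0 a B z‖ ≤ 21 / 10 := by
  exact (nadd (nadd (h.bB _) (ndiv (h.na _) (by norm_num) (norm_sub_one' hz)))
    (ndiv (h.na _) (by norm_num) (norm_add_one' hz))).trans (by norm_num)

/-- Schwarz lemma in the form we need. -/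
theorem schwarz_small {f : ℂ → ℂ} {c : ℂ} {e : ℝ} (hd : DifferentiableOn ℂ f (ball 0 2))
    (hb : ∀ z, ‖f z - c‖ ≤ e) {z : ℂ} (hz : ‖z‖ < 2) : ‖f z - f 0‖ ≤ e * ‖z‖ := by
  have h1 : MapsTo f (ball 0 2) (closedBall (f 0) (2 * e)) := by
    intro w _
    rw [mem_closedBall, dist_eq_norm]
    have : f w - f 0 = (f w - c) - (f 0 - c) := by ring
    rw [this]
    refine (nsub (hb w) (hb 0)).trans (by linarith)
  have h2 := dist_le_div_mul_dist_of_mapsTo_ball hd h1 (z := z) (by simpa using hz)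
  rw [dist_eq_norm, dist_eq_norm, sub_zero] at h2
  linarith

theorem norm_TT_sub {w : ℂ} (hw : ‖w‖ ≤ 2000) : 998000 ≤ ‖TT - w‖ := by
  have := norm_sub_norm_le TT w
  rw [norm_TT] at this
  linarith

theorem norm_TT_add {w : ℂ} (hw : ‖w‖ ≤ 2000) : 998000 ≤ ‖TT + w‖ := by
  have := norm_TT_sub (w := -w) (by rwa [norm_neg])
  rwa [sub_neg_eq_add] at this

theorem Reg.SS_close {a a0 B : ℂ → ℂ} (h : Reg a a0 B) {w : ℂ} {t : ℝ} (hw : ‖w‖ ≤ t)
    (ht : t ≤ 2000) : ‖SS a a0 B w - kap a a0 B‖ ≤ 3 * t / 998000 := by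
  have ht0 : 0 ≤ t := (norm_nonneg _).trans hw
  have hw2 : ‖w‖ ≤ 2000 := hw.trans ht
  have hs := norm_TT_sub hw2
  have ha := norm_TT_add hw2
  have hsn : TT - w ≠ 0 := ne_of_norm_ge (by norm_num) hs
  have han : TT + w ≠ 0 := ne_of_norm_ge (by norm_num) ha
  have hT := TT_ne
  -- auxiliary fractions
  have u1 : ‖w / (TT - w)‖ ≤ t / 998000 := ndiv hw (by norm_num) hs
  have u2 : ‖w / (TT + w)‖ ≤ t / 998000 := ndiv hw (by norm_num) ha
  have v0 : ‖rho * w / TT‖ ≤ t / 998000 := by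
    rw [norm_div, norm_mul, norm_rho, norm_TT, div_le_div_iff₀ (by norm_num) (by norm_num)]
    nlinarith
  have v1 : ‖rho * w / (TT - w)‖ ≤ 1 / 10000 * (t / 998000) := by
    rw [mul_div_assoc]
    exact nmul norm_rho.le u1
  have v2 : ‖-(rho * w) / (TT + w)‖ ≤ 1 / 10000 * (t / 998000) := by
    rw [neg_div, norm_neg, mul_div_assoc]
    exact nmul norm_rho.le u2
  have s0 := schwarz_small h.da0 h.ba0 (z := rho * w / TT) (by linarith)
  have s1 := schwarz_small h.da h.ba (z := rho * w / (TT - w)) (by linarith)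
  have s2 := schwarz_small h.da h.ba (z := -(rho * w) / (TT + w)) (by linarith)
  have s0' : ‖a0 (rho * w / TT) - a0 0‖ ≤ 1 / 100 * (t / 998000) := s0.trans (by gcongr)
  have s1' : ‖a (rho * w / (TT - w)) - a 0‖ ≤ 1 / 100 * (1 / 10000 * (t / 998000)) :=
    s1.trans (by gcongr)
  have s2' : ‖a (-(rho * w) / (TT + w)) - a 0‖ ≤ 1 / 100 * (1 / 10000 * (t / 998000)) :=
    s2.trans (by gcongr)
  have e : SS a a0 B w - kap a a0 B = ell a a0 B * (a0 (rho * w / TT) - a0 0)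
      + ((a (rho * w / (TT - w)) - a 0) + w / (TT - w) * a (rho * w / (TT - w)))
      + ((a (-(rho * w) / (TT + w)) - a 0) - w / (TT + w) * a (-(rho * w) / (TT + w))) := by
    have x1 : TT / (TT - w) = 1 + w / (TT - w) := by field_simp; ring
    have x2 : TT / (TT + w) = 1 - w / (TT + w) := by field_simp; ring
    unfold SS kap
    rw [x1, x2]
    ring
  rw [e]
  refine (nadd (nadd (nmul h.ell_le s0') (nadd s1' (nmul u1 (h.na _))))
    (nsub s2' (nmul u2 (h.na _)))).trans ?_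
  nlinarith

theorem Reg.AA_close {a a0 B : ℂ → ℂ} (h : Reg a a0 B) {w : ℂ} {t : ℝ} (hw : ‖w‖ ≤ t)
    (ht : t ≤ 2000) : ‖AA a a0 B w - 1‖ ≤ t / 400000 := by
  have ht0 : 0 ≤ t := (norm_nonneg _).trans hw
  have e : AA a a0 B w - 1 = (SS a a0 B w - kap a a0 B) / kap a a0 B := by
    unfold AA
    rw [sub_div, div_self h.kap_ne]
  rw [e]
  refine (ndiv (h.SS_close hw ht) (by norm_num) h.kap_ge).trans ?_
  rw [div_div, div_le_div_iff₀ (by norm_num) (by norm_num)]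
  nlinarith

theorem Reg.qc_le {a a0 B : ℂ → ℂ} (h : Reg a a0 B) {w : ℂ} {m : ℝ} (hm : 1 / 20000 ≤ m)
    (hw : m ≤ ‖w‖) : ‖qc a a0 B w‖ ≤ (1 / 20000000) / m := by
  have hm0 : 0 < m := by linarith
  have h1 : ‖rho / w‖ ≤ 2 := by
    refine (ndiv norm_rho.le hm0 hw).trans ?_
    rw [div_le_iff₀ hm0]
    linarith
  have h2 : ‖(ell a a0 B)⁻¹‖ ≤ 1000 / 465 := by
    rw [norm_inv]
    have := inv_anti₀ (by norm_num) h.ell_ge
    refine this.trans (by norm_num)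
  unfold qc
  refine (ndiv (nmul (nmul h2 (show ‖rho ^ 2‖ ≤ 1 / 100000000 by
    rw [norm_pow, norm_rho]; norm_num)) (h.b0_le h1)) hm0 hw).trans ?_
  gcongr
  norm_num

theorem Reg.qp_le {a a0 B : ℂ → ℂ} (h : Reg a a0 B) {w : ℂ} {m : ℝ} (hm : 1 / 20000 ≤ m)
    (hw : m ≤ ‖w - 1‖) : ‖qp a a0 B w‖ ≤ (1 / 80000000) / m := by
  have hm0 : 0 < m := by linarith
  have h1 : ‖rho / (w - 1)‖ ≤ 2 := by
    refine (ndiv norm_rho.le hm0 hw).trans ?_
    rw [div_le_iff₀ hm0]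
    linarith
  unfold qp
  refine (ndiv (nmul (show ‖rho ^ 2‖ ≤ 1 / 100000000 by
    rw [norm_pow, norm_rho]; norm_num) (h.bb_le h1)) hm0 hw).trans ?_
  gcongr
  norm_num

theorem Reg.qm_le {a a0 B : ℂ → ℂ} (h : Reg a a0 B) {w : ℂ} {m : ℝ} (hm : 1 / 20000 ≤ m)
    (hw : m ≤ ‖w + 1‖) : ‖qm a a0 B w‖ ≤ (1 / 80000000) / m := by
  have hm0 : 0 < m := by linarith
  have h1 : ‖-rho / (w + 1)‖ ≤ 2 := by
    refine (ndiv (by rw [norm_neg, norm_rho] : ‖-rho‖ ≤ 1 / 10000) hm0 hw).trans ?_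
    rw [div_le_iff₀ hm0]
    linarith
  unfold qm
  rw [norm_neg]
  refine (ndiv (nmul (show ‖rho ^ 2‖ ≤ 1 / 100000000 by
    rw [norm_pow, norm_rho]; norm_num) (h.bb_le h1)) hm0 hw).trans ?_
  gcongr
  norm_num

theorem Reg.BB_le {a a0 B : ℂ → ℂ} (h : Reg a a0 B) {w : ℂ} (hw : ‖w‖ ≤ 2000) :
    ‖BB a a0 B w‖ ≤ 1 / 100000 := by
  have hs := norm_TT_sub hw
  have ha := norm_TT_add hw
  have hr2 : ‖rho ^ 2‖ ≤ 1 / 100000000 := by
    rw [norm_pow, norm_rho]; norm_num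
  have hrw : ‖rho * w‖ ≤ 1 := by
    rw [norm_mul, norm_rho]
    linarith
  have h0 : ‖rho * w / TT‖ ≤ 2 := (ndiv hrw (by norm_num) norm_TT.ge).trans (by norm_num)
  have h1 : ‖rho * w / (TT - w)‖ ≤ 2 := (ndiv hrw (by norm_num) hs).trans (by norm_num)
  have h2 : ‖-(rho * w) / (TT + w)‖ ≤ 2 :=
    (ndiv (X := 1) (by rw [norm_neg]; exact hrw) (by norm_num) ha).trans (by norm_num)
  have he : ‖(ell a a0 B)⁻¹‖ ≤ 1000 / 465 := by
    rw [norm_inv]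
    have := inv_anti₀ (by norm_num) h.ell_ge
    refine this.trans (by norm_num)
  unfold BB
  refine (nmul h.kap_le (nsub (nadd (nmul (nmul he (ndiv hr2 (by norm_num) norm_TT.ge))
    (h.b0_le h0)) (nmul (ndiv hr2 (by norm_num) hs) (h.bb_le h1)))
    (nmul (ndiv hr2 (by norm_num) ha) (h.bb_le h2)))).trans ?_
  norm_num

theorem Reg.an_close {a a0 B : ℂ → ℂ} (h : Reg a a0 B) {z : ℂ} (hz : ‖z‖ ≤ 2) :
    ‖an a a0 B z - 1‖ ≤ 1 / 100000 := by
  have e : an a a0 B z - 1 = (AA a a0 B (1 + rho * z) - 1) + qc a a0 B (1 + rho * z)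
      + qm a a0 B (1 + rho * z) := by
    unfold an; ring
  have hw := norm_one_add hz
  have hw2 : 9999 / 5000 ≤ ‖(1 + rho * z) + 1‖ := by
    have := norm_two_add hz
    have e : (1 + rho * z) + 1 = 2 + rho * z := by ring
    rwa [e]
  have hw3 : ‖1 + rho * z‖ ≤ 2 := by
    have := norm_le_of_close (one_add_close hz)
    rw [norm_one] at this
    linarith
  rw [e]
  refine (nadd (nadd (h.AA_close hw3 (by norm_num)) (h.qc_le (by norm_num) hw))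
    (h.qm_le (by norm_num) hw2)).trans ?_
  norm_num

theorem Reg.a0n_close {a a0 B : ℂ → ℂ} (h : Reg a a0 B) {z : ℂ} (hz : ‖z‖ ≤ 2) :
    ‖a0n a a0 B z - 1‖ ≤ 1 / 100000 := by
  have e : a0n a a0 B z - 1 = (AA a a0 B (rho * z) - 1) + qp a a0 B (rho * z)
      + qm a a0 B (rho * z) := by
    unfold a0n; ring
  rw [e]
  refine (nadd (nadd (h.AA_close ((norm_rho_mul hz).trans (by norm_num : (1 / 5000 : ℝ) ≤ 2))
    (by norm_num)) (h.qp_le (by norm_num) (norm_sub_one' hz)))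
    (h.qm_le (by norm_num) (norm_add_one' hz))).trans ?_
  norm_num

end Pool.Agent.Work.MP_090684_an
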