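import Pool.Agent.Work.MP_090684_an.Defs

set_option autoImplicit false

namespace Pool.Agent.Work.MP_090684_an

open Complex Metric Set MeasureTheory Filter Topology
open scoped Real ComplexConjugate

theorem diffAt_of_ball {f : ℂ → ℂ} (hd : DifferentiableOn ℂ f (ball 0 2)) {z : ℂ}
    (hz : ‖z‖ < 2) : DifferentiableAt ℂ f z :=
  hd.differentiableAt (isOpen_ball.mem_nhds (by simpa using hz))

theorem Reg.diff_g1 {a a0 B : ℂ → ℂ} (h : Reg a a0 B) {z : ℂ} (hz : ‖z‖ < 2) :
    DifferentiableAt ℂ (g1 a0) z := by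
  have hw := norm_one_add hz.le
  have hne : 1 + rho * z ≠ 0 := ne_of_norm_ge (by norm_num) hw
  have hs : ‖rho / (1 + rho * z)‖ < 2 :=
    (ndiv norm_rho.le (by norm_num) hw).trans_lt (by norm_num)
  have h1 : DifferentiableAt ℂ (fun z : ℂ => rho / (1 + rho * z)) z := by
    fun_prop (disch := assumption)
  have h2 : DifferentiableAt ℂ (fun z => a0 (rho / (1 + rho * z))) z :=
    DifferentiableAt.comp (g := a0) z (diffAt_of_ball h.da0 hs) h1
  have h3 : DifferentiableAt ℂ (fun z : ℂ => 1 + rho * z) z := by fun_prop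
  exact h2.div h3 hne

theorem Reg.diff_g2 {a a0 B : ℂ → ℂ} (h : Reg a a0 B) {z : ℂ} (hz : ‖z‖ < 2) :
    DifferentiableAt ℂ (g2 a B) z := by
  have hw := norm_two_add hz.le
  have hne : 2 + rho * z ≠ 0 := ne_of_norm_ge (by norm_num) hw
  have hs : ‖-rho / (2 + rho * z)‖ < 2 :=
    (ndiv (X := 1 / 10000) (by rw [norm_neg, norm_rho]) (by norm_num) hw).trans_lt (by norm_num)
  have h1 : DifferentiableAt ℂ (fun z : ℂ => -rho / (2 + rho * z)) z := by
    fun_prop (disch := assumption)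
  have h2 : DifferentiableAt ℂ (fun z => a (-rho / (2 + rho * z))) z :=
    DifferentiableAt.comp (g := a) z (diffAt_of_ball h.da hs) h1
  have h3 : DifferentiableAt ℂ (fun z : ℂ => 2 + rho * z) z := by fun_prop
  have h4 : DifferentiableAt ℂ (fun z : ℂ => 1 + rho * z) z := by fun_prop
  have h5 : ‖1 + rho * z‖ < 2 := by
    have := norm_le_of_close (one_add_close hz.le)
    rw [norm_one] at this
    linarith
  have h6 : DifferentiableAt ℂ (fun z => B (1 + rho * z)) z :=
    DifferentiableAt.comp (g := B) z (diffAt_of_ball h.dB h5) h4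
  exact h6.add (h2.div h3 hne)

theorem Reg.diff_bb {a a0 B : ℂ → ℂ} (h : Reg a a0 B) {z : ℂ} (hz : ‖z‖ < 2) :
    DifferentiableAt ℂ (bb a a0 B) z :=
  ((h.diff_g1 hz).const_mul _).add (h.diff_g2 hz)

theorem Reg.diff_b0 {a a0 B : ℂ → ℂ} (h : Reg a a0 B) {z : ℂ} (hz : ‖z‖ < 2) :
    DifferentiableAt ℂ (b0 a B) z := by
  have hw1 := norm_sub_one' hz.le
  have hw2 := norm_add_one' hz.le
  have hne1 : rho * z - 1 ≠ 0 := ne_of_norm_ge (by norm_num) hw1
  have hne2 : rho * z + 1 ≠ 0 := ne_of_norm_ge (by norm_num) hw2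
  have hs1 : ‖rho / (rho * z - 1)‖ < 2 :=
    (ndiv norm_rho.le (by norm_num) hw1).trans_lt (by norm_num)
  have hs2 : ‖-rho / (rho * z + 1)‖ < 2 :=
    (ndiv (X := 1 / 10000) (by rw [norm_neg, norm_rho]) (by norm_num) hw2).trans_lt (by norm_num)
  have h1 : DifferentiableAt ℂ (fun z : ℂ => rho / (rho * z - 1)) z := by
    fun_prop (disch := assumption)
  have h2 : DifferentiableAt ℂ (fun z => a (rho / (rho * z - 1))) z :=
    DifferentiableAt.comp (g := a) z (diffAt_of_ball h.da hs1) h1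
  have h1' : DifferentiableAt ℂ (fun z : ℂ => -rho / (rho * z + 1)) z := by
    fun_prop (disch := assumption)
  have h2' : DifferentiableAt ℂ (fun z => a (-rho / (rho * z + 1))) z :=
    DifferentiableAt.comp (g := a) z (diffAt_of_ball h.da hs2) h1'
  have h3 : DifferentiableAt ℂ (fun z : ℂ => rho * z - 1) z := by fun_prop
  have h3' : DifferentiableAt ℂ (fun z : ℂ => rho * z + 1) z := by fun_prop
  have h4 : DifferentiableAt ℂ (fun z : ℂ => rho * z) z := by fun_prop
  have h5 : ‖rho * z‖ < 2 := (norm_rho_mul hz.le).trans_lt (by norm_num)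
  have h6 : DifferentiableAt ℂ (fun z => B (rho * z)) z :=
    DifferentiableAt.comp (g := B) z (diffAt_of_ball h.dB h5) h4
  exact (h6.add (h2.div h3 hne1)).add (h2'.div h3' hne2)

theorem small_args {w : ℂ} (hw : ‖w‖ ≤ 2000) : TT - w ≠ 0 ∧ TT + w ≠ 0 ∧
    ‖rho * w / TT‖ < 2 ∧ ‖rho * w / (TT - w)‖ < 2 ∧ ‖-(rho * w) / (TT + w)‖ < 2 := by
  have hs := norm_TT_sub hw
  have ha := norm_TT_add hw
  have hrw : ‖rho * w‖ ≤ 1 := by
    rw [norm_mul, norm_rho]
    linarith
  have h0 : ‖rho * w / TT‖ < 2 := (ndiv hrw (by norm_num) norm_TT.ge).trans_lt (by norm_num)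
  have h1 : ‖rho * w / (TT - w)‖ < 2 := (ndiv hrw (by norm_num) hs).trans_lt (by norm_num)
  have h2 : ‖-(rho * w) / (TT + w)‖ < 2 :=
    (ndiv (X := 1) (by rw [norm_neg]; exact hrw) (by norm_num) ha).trans_lt (by norm_num)
  exact ⟨ne_of_norm_ge (by norm_num) hs, ne_of_norm_ge (by norm_num) ha, h0, h1, h2⟩

theorem Reg.diff_AA {a a0 B : ℂ → ℂ} (h : Reg a a0 B) {w : ℂ} (hw : ‖w‖ ≤ 2000) :
    DifferentiableAt ℂ (AA a a0 B) w := by
  obtain ⟨n1, n2, h0, h1, h2⟩ := small_args hw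
  have hT := TT_ne
  have d0 : DifferentiableAt ℂ (fun w : ℂ => rho * w / TT) w := by fun_prop
  have d1 : DifferentiableAt ℂ (fun w : ℂ => rho * w / (TT - w)) w := by
    fun_prop (disch := assumption)
  have d2 : DifferentiableAt ℂ (fun w : ℂ => -(rho * w) / (TT + w)) w := by
    fun_prop (disch := assumption)
  have f1 : DifferentiableAt ℂ (fun w : ℂ => TT / (TT - w)) w := by
    fun_prop (disch := assumption)
  have f2 : DifferentiableAt ℂ (fun w : ℂ => TT / (TT + w)) w := by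
    fun_prop (disch := assumption)
  have e0 : DifferentiableAt ℂ (fun w : ℂ => a0 (rho * w / TT)) w :=
    DifferentiableAt.comp (g := a0) w (diffAt_of_ball h.da0 h0) d0
  have e1 : DifferentiableAt ℂ (fun w : ℂ => a (rho * w / (TT - w))) w :=
    DifferentiableAt.comp (g := a) w (diffAt_of_ball h.da h1) d1
  have e2 : DifferentiableAt ℂ (fun w : ℂ => a (-(rho * w) / (TT + w))) w :=
    DifferentiableAt.comp (g := a) w (diffAt_of_ball h.da h2) d2
  exact (((e0.const_mul _).add (f1.mul e1)).add (f2.mul e2)).div_const _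

theorem Reg.diff_BB {a a0 B : ℂ → ℂ} (h : Reg a a0 B) {w : ℂ} (hw : ‖w‖ ≤ 2000) :
    DifferentiableAt ℂ (BB a a0 B) w := by
  obtain ⟨n1, n2, h0, h1, h2⟩ := small_args hw
  have hT := TT_ne
  have d0 : DifferentiableAt ℂ (fun w : ℂ => rho * w / TT) w := by fun_prop
  have d1 : DifferentiableAt ℂ (fun w : ℂ => rho * w / (TT - w)) w := by
    fun_prop (disch := assumption)
  have d2 : DifferentiableAt ℂ (fun w : ℂ => -(rho * w) / (TT + w)) w := by
    fun_prop (disch := assumption)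
  have f1 : DifferentiableAt ℂ (fun w : ℂ => rho ^ 2 / (TT - w)) w := by
    fun_prop (disch := assumption)
  have f2 : DifferentiableAt ℂ (fun w : ℂ => rho ^ 2 / (TT + w)) w := by
    fun_prop (disch := assumption)
  have e0 : DifferentiableAt ℂ (fun w : ℂ => b0 a B (rho * w / TT)) w :=
    DifferentiableAt.comp (g := b0 a B) w (h.diff_b0 h0) d0
  have e1 : DifferentiableAt ℂ (fun w : ℂ => bb a a0 B (rho * w / (TT - w))) w :=
    DifferentiableAt.comp (g := bb a a0 B) w (h.diff_bb h1) d1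
  have e2 : DifferentiableAt ℂ (fun w : ℂ => bb a a0 B (-(rho * w) / (TT + w))) w :=
    DifferentiableAt.comp (g := bb a a0 B) w (h.diff_bb h2) d2
  exact (((e0.const_mul _).add (f1.mul e1)).sub (f2.mul e2)).const_mul _

theorem Reg.diff_qc {a a0 B : ℂ → ℂ} (h : Reg a a0 B) {w : ℂ} (hw : 1 / 20000 < ‖w‖) :
    DifferentiableAt ℂ (qc a a0 B) w := by
  have hne : w ≠ 0 := ne_of_norm_ge (by norm_num) hw.le
  have hs : ‖rho / w‖ < 2 := by
    rw [norm_div, norm_rho, div_lt_iff₀ (by linarith)]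
    linarith
  have d0 : DifferentiableAt ℂ (fun w : ℂ => rho / w) w := by
    fun_prop (disch := assumption)
  have e0 : DifferentiableAt ℂ (fun w : ℂ => b0 a B (rho / w)) w :=
    DifferentiableAt.comp (g := b0 a B) w (h.diff_b0 hs) d0
  exact (e0.const_mul _).div differentiableAt_id hne

theorem Reg.diff_qp {a a0 B : ℂ → ℂ} (h : Reg a a0 B) {w : ℂ} (hw : 1 / 20000 < ‖w - 1‖) :
    DifferentiableAt ℂ (qp a a0 B) w := by
  have hne : w - 1 ≠ 0 := ne_of_norm_ge (by norm_num) hw.le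
  have hs : ‖rho / (w - 1)‖ < 2 := by
    rw [norm_div, norm_rho, div_lt_iff₀ (by linarith)]
    linarith
  have d0 : DifferentiableAt ℂ (fun w : ℂ => rho / (w - 1)) w := by
    fun_prop (disch := assumption)
  have e0 : DifferentiableAt ℂ (fun w : ℂ => bb a a0 B (rho / (w - 1))) w :=
    DifferentiableAt.comp (g := bb a a0 B) w (h.diff_bb hs) d0
  exact (e0.const_mul _).div (differentiableAt_id.sub_const _) hne

theorem Reg.diff_qm {a a0 B : ℂ → ℂ} (h : Reg a a0 B) {w : ℂ} (hw : 1 / 20000 < ‖w + 1‖) :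
    DifferentiableAt ℂ (qm a a0 B) w := by
  have hne : w + 1 ≠ 0 := ne_of_norm_ge (by norm_num) hw.le
  have hs : ‖-rho / (w + 1)‖ < 2 := by
    rw [norm_div, norm_neg, norm_rho, div_lt_iff₀ (by linarith)]
    linarith
  have d0 : DifferentiableAt ℂ (fun w : ℂ => -rho / (w + 1)) w := by
    fun_prop (disch := assumption)
  have e0 : DifferentiableAt ℂ (fun w : ℂ => bb a a0 B (-rho / (w + 1))) w :=
    DifferentiableAt.comp (g := bb a a0 B) w (h.diff_bb hs) d0
  exact ((e0.const_mul _).div (differentiableAt_id.add_const _) hne).neg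

theorem Reg.diff_an {a a0 B : ℂ → ℂ} (h : Reg a a0 B) {z : ℂ} (hz : ‖z‖ ≤ 2) :
    DifferentiableAt ℂ (an a a0 B) z := by
  have hw := norm_one_add hz
  have hw2 : 9999 / 5000 ≤ ‖(1 + rho * z) + 1‖ := by
    have := norm_two_add hz
    have e : (1 + rho * z) + 1 = 2 + rho * z := by ring
    rwa [e]
  have hw3 : ‖1 + rho * z‖ ≤ 2000 := by
    have := norm_le_of_close (one_add_close hz)
    rw [norm_one] at this
    linarith
  have d0 : DifferentiableAt ℂ (fun z : ℂ => 1 + rho * z) z := by fun_prop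
  exact ((DifferentiableAt.comp (g := AA a a0 B) z (h.diff_AA hw3) d0).add
    (DifferentiableAt.comp (g := qc a a0 B) z (h.diff_qc (by linarith)) d0)).add
    (DifferentiableAt.comp (g := qm a a0 B) z (h.diff_qm (by linarith)) d0)

theorem Reg.diff_a0n {a a0 B : ℂ → ℂ} (h : Reg a a0 B) {z : ℂ} (hz : ‖z‖ ≤ 2) :
    DifferentiableAt ℂ (a0n a a0 B) z := by
  have hw := norm_sub_one' hz
  have hw2 := norm_add_one' hz
  have hw3 : ‖rho * z‖ ≤ 2000 := (norm_rho_mul hz).trans (by norm_num)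
  have d0 : DifferentiableAt ℂ (fun z : ℂ => rho * z) z := by fun_prop
  exact ((DifferentiableAt.comp (g := AA a a0 B) z (h.diff_AA hw3) d0).add
    (DifferentiableAt.comp (g := qp a a0 B) z (h.diff_qp (by linarith)) d0)).add
    (DifferentiableAt.comp (g := qm a a0 B) z (h.diff_qm (by linarith)) d0)

end Pool.Agent.Work.MP_090684_an
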