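import Pool.Agent.Work.MP_090684_an.PQ
import Pool.Agent.Work.MP_090684_an.Conn

set_option autoImplicit false

namespace Pool.Agent.Work.MP_090684_an

open Complex Metric Set MeasureTheory Filter Topology
open scoped Real ComplexConjugate

theorem mem_closure_ray {w c : ℂ} {s : ℝ}
    (h : ∀ e : ℝ, 0 < e → e < 1 / 2 → c + ((1 + s * e : ℝ) : ℂ) * (w - c) ∈ SO) :
    w ∈ closure SO := by
  have ht : Tendsto (fun e : ℝ => c + ((1 + s * e : ℝ) : ℂ) * (w - c)) (𝓝[>] 0) (𝓝 w) := by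
    have hc : Continuous (fun e : ℝ => c + ((1 + s * e : ℝ) : ℂ) * (w - c)) := by
      apply Continuous.add continuous_const
      apply Continuous.mul _ continuous_const
      exact Complex.continuous_ofReal.comp (by fun_prop)
    have := hc.tendsto 0
    simp only [mul_zero, add_zero, Complex.ofReal_one, one_mul, add_sub_cancel] at this
    exact this.mono_left nhdsWithin_le_nhds
  apply mem_closure_of_tendsto ht
  have hmem : Ioo (0 : ℝ) (1 / 2) ∈ 𝓝[>] (0 : ℝ) := Ioo_mem_nhdsGT (by norm_num)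
  filter_upwards [hmem] with e he
  exact h e he.1 he.2

theorem closure_SO : closure SO = SK := by
  apply Subset.antisymm
  · exact closure_minimal SO_subset_SK isClosed_SK
  intro w hw
  obtain ⟨h0, h1, h2, h3⟩ := hw
  have n1 : ∀ w : ℂ, 1 - ‖w‖ ≤ ‖w - 1‖ := by
    intro w
    have := norm_sub_norm_le (1 : ℂ) w
    rwa [norm_one, norm_sub_rev] at this
  have n2 : ∀ w : ℂ, 1 - ‖w‖ ≤ ‖w + 1‖ := by
    intro w
    have := norm_sub_norm_le (1 : ℂ) (-w)
    rwa [norm_one, norm_neg, sub_neg_eq_add, add_comm] at this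
  have n3 : ∀ w : ℂ, ‖w‖ - 1 ≤ ‖w - 1‖ := by
    intro w
    have := norm_sub_norm_le w (1 : ℂ)
    rwa [norm_one] at this
  have n4 : ∀ w : ℂ, ‖w‖ - 1 ≤ ‖w + 1‖ := by
    intro w
    have := norm_sub_norm_le w (-1 : ℂ)
    rwa [norm_neg, norm_one, sub_neg_eq_add] at this
  by_cases c0 : ‖w‖ = 1000
  · apply mem_closure_ray (c := 0) (s := -1)
    intro e he1 he2
    have hn : ‖(0 : ℂ) + ((1 + -1 * e : ℝ) : ℂ) * (w - 0)‖ = (1 - e) * 1000 := by
      rw [zero_add, sub_zero, norm_mul, Complex.norm_real, c0, Real.norm_of_nonneg (by linarith)]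
      ring
    have a3 := n3 ((0 : ℂ) + ((1 + -1 * e : ℝ) : ℂ) * (w - 0))
    have a4 := n4 ((0 : ℂ) + ((1 + -1 * e : ℝ) : ℂ) * (w - 0))
    rw [hn] at a3 a4
    refine ⟨?_, ?_, ?_, ?_⟩
    · rw [hn]; linarith
    · rw [hn]; linarith
    · linarith
    · linarith
  by_cases c1 : ‖w‖ = 1 / 10000
  · apply mem_closure_ray (c := 0) (s := 1)
    intro e he1 he2
    have hn : ‖(0 : ℂ) + ((1 + 1 * e : ℝ) : ℂ) * (w - 0)‖ = (1 + e) * (1 / 10000) := by
      rw [zero_add, sub_zero, norm_mul, Complex.norm_real, c1, Real.norm_of_nonneg (by linarith)]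
      ring
    have a3 := n1 ((0 : ℂ) + ((1 + 1 * e : ℝ) : ℂ) * (w - 0))
    have a4 := n2 ((0 : ℂ) + ((1 + 1 * e : ℝ) : ℂ) * (w - 0))
    rw [hn] at a3 a4
    refine ⟨?_, ?_, ?_, ?_⟩
    · rw [hn]; linarith
    · rw [hn]; linarith
    · linarith
    · linarith
  by_cases c2 : ‖w - 1‖ = 1 / 10000
  · apply mem_closure_ray (c := 1) (s := 1)
    intro e he1 he2
    set u : ℂ := 1 + ((1 + 1 * e : ℝ) : ℂ) * (w - 1) with hu
    have hn : ‖u - 1‖ = (1 + e) * (1 / 10000) := by
      rw [hu, add_sub_cancel_left, norm_mul, Complex.norm_real, c2,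
        Real.norm_of_nonneg (by linarith)]
      ring
    have a1 := n1 u
    have a2 : ‖u‖ ≤ 1 + ‖u - 1‖ := by
      have := norm_add_le (1 : ℂ) (u - 1)
      rwa [norm_one, add_sub_cancel] at this
    have a3 : 2 - ‖u - 1‖ ≤ ‖u + 1‖ := by
      have := norm_sub_norm_le (2 : ℂ) (1 - u)
      rw [norm_sub_rev 1 u] at this
      have e : (2 : ℂ) - (1 - u) = u + 1 := by ring
      rw [e] at this
      simpa using this
    rw [hn] at a1 a2 a3
    refine ⟨?_, ?_, ?_, ?_⟩
    · linarith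
    · linarith
    · rw [hn]; linarith
    · linarith
  by_cases c3 : ‖w + 1‖ = 1 / 10000
  · apply mem_closure_ray (c := -1) (s := 1)
    intro e he1 he2
    set u : ℂ := -1 + ((1 + 1 * e : ℝ) : ℂ) * (w - -1) with hu
    have hn : ‖u + 1‖ = (1 + e) * (1 / 10000) := by
      have : u + 1 = ((1 + 1 * e : ℝ) : ℂ) * (w + 1) := by rw [hu]; ring
      rw [this, norm_mul, Complex.norm_real, c3, Real.norm_of_nonneg (by linarith)]
      ring
    have a1 := n2 u
    have a2 : ‖u‖ ≤ 1 + ‖u + 1‖ := by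
      have := norm_sub_le (u + 1) (1 : ℂ)
      rw [norm_one, add_sub_cancel_right] at this
      linarith
    have a3 : 2 - ‖u + 1‖ ≤ ‖u - 1‖ := by
      have := norm_sub_norm_le (2 : ℂ) (u + 1)
      have e : (2 : ℂ) - (u + 1) = -(u - 1) := by ring
      rw [e, norm_neg] at this
      simpa using this
    rw [hn] at a1 a2 a3
    refine ⟨?_, ?_, ?_, ?_⟩
    · linarith
    · linarith
    · linarith
    · rw [hn]; linarith
  apply subset_closure
  exact ⟨lt_of_le_of_ne h0 c0, lt_of_le_of_ne h1 (Ne.symm c1), lt_of_le_of_ne h2 (Ne.symm c2),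
    lt_of_le_of_ne h3 (Ne.symm c3)⟩

/-- centres of the boundary circles -/
noncomputable def cen : Fin 4 → ℂ := ![0, 0, 1, -1]

/-- radii of the boundary circles -/
noncomputable def rad : Fin 4 → ℝ := ![1000, 1 / 10000, 1 / 10000, 1 / 10000]

theorem rad_pos (j : Fin 4) : 0 < rad j := by
  fin_cases j <;> simp [rad]

theorem sphere_sub_SK (j : Fin 4) : sphere (cen j) (rad j) ⊆ SK \ SO := by
  have n1 : ∀ w : ℂ, 1 - ‖w‖ ≤ ‖w - 1‖ := by
    intro w
    have := norm_sub_norm_le (1 : ℂ) w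
    rwa [norm_one, norm_sub_rev] at this
  have n2 : ∀ w : ℂ, 1 - ‖w‖ ≤ ‖w + 1‖ := by
    intro w
    have := norm_sub_norm_le (1 : ℂ) (-w)
    rwa [norm_one, norm_neg, sub_neg_eq_add, add_comm] at this
  have n3 : ∀ w : ℂ, ‖w‖ - 1 ≤ ‖w - 1‖ := by
    intro w
    have := norm_sub_norm_le w (1 : ℂ)
    rwa [norm_one] at this
  have n4 : ∀ w : ℂ, ‖w‖ - 1 ≤ ‖w + 1‖ := by
    intro w
    have := norm_sub_norm_le w (-1 : ℂ)
    rwa [norm_neg, norm_one, sub_neg_eq_add] at this
  intro w hw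
  fin_cases j
  · have h : ‖w‖ = 1000 := by simpa [cen, rad] using hw
    have := n3 w
    have := n4 w
    refine ⟨⟨?_, ?_, ?_, ?_⟩, ?_⟩
    · linarith
    · linarith
    · linarith
    · linarith
    · intro hs
      have := hs.1
      linarith
  · have h : ‖w‖ = 1 / 10000 := by simpa [cen, rad] using hw
    have := n1 w
    have := n2 w
    refine ⟨⟨?_, ?_, ?_, ?_⟩, ?_⟩
    · linarith
    · linarith
    · linarith
    · linarith
    · intro hs
      have := hs.2.1
      linarith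
  · have h : ‖w - 1‖ = 1 / 10000 := by simpa [cen, rad, dist_eq_norm] using hw
    have a1 := n1 w
    have a2 : ‖w‖ ≤ 1 + ‖w - 1‖ := by
      have := norm_add_le (1 : ℂ) (w - 1)
      rwa [norm_one, add_sub_cancel] at this
    have a3 : 2 - ‖w - 1‖ ≤ ‖w + 1‖ := by
      have := norm_sub_norm_le (2 : ℂ) (1 - w)
      rw [norm_sub_rev 1 w] at this
      have e : (2 : ℂ) - (1 - w) = w + 1 := by ring
      rw [e] at this
      simpa using this
    refine ⟨⟨?_, ?_, ?_, ?_⟩, ?_⟩
    · linarith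
    · linarith
    · linarith
    · linarith
    · intro hs
      have := hs.2.2.1
      linarith
  · have h : ‖w + 1‖ = 1 / 10000 := by simpa [cen, rad, dist_eq_norm] using hw
    have a1 := n2 w
    have a2 : ‖w‖ ≤ 1 + ‖w + 1‖ := by
      have := norm_sub_le (w + 1) (1 : ℂ)
      rw [norm_one, add_sub_cancel_right] at this
      linarith
    have a3 : 2 - ‖w + 1‖ ≤ ‖w - 1‖ := by
      have := norm_sub_norm_le (2 : ℂ) (w + 1)
      have e : (2 : ℂ) - (w + 1) = -(w - 1) := by ring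
      rw [e, norm_neg] at this
      simpa using this
    refine ⟨⟨?_, ?_, ?_, ?_⟩, ?_⟩
    · linarith
    · linarith
    · linarith
    · linarith
    · intro hs
      have := hs.2.2.2
      linarith

theorem SK_diff_SO : SK \ SO = ⋃ j : Fin 4, sphere (cen j) (rad j) := by
  apply Subset.antisymm
  · rintro w ⟨⟨h0, h1, h2, h3⟩, hn⟩
    rw [mem_iUnion]
    by_contra hc
    push Not at hc
    apply hn
    have g0 := hc 0
    have g1 := hc 1
    have g2 := hc 2
    have g3 := hc 3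
    simp only [cen, rad, mem_sphere, dist_eq_norm, Matrix.cons_val_zero, Matrix.cons_val_one,
      Matrix.cons_val, sub_zero, sub_neg_eq_add] at g0 g1 g2 g3
    exact ⟨lt_of_le_of_ne h0 g0, lt_of_le_of_ne h1 (Ne.symm g1), lt_of_le_of_ne h2 (Ne.symm g2),
      lt_of_le_of_ne h3 (Ne.symm g3)⟩
  · exact iUnion_subset sphere_sub_SK

theorem spheres_disjoint {i j : Fin 4} (hij : i ≠ j) :
    Disjoint (sphere (cen i) (rad i)) (sphere (cen j) (rad j)) := by
  rw [Set.disjoint_left]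
  intro w hi hj
  have k1 : ‖w‖ ≤ 1 + ‖w - 1‖ := by
    have := norm_add_le (1 : ℂ) (w - 1)
    rwa [norm_one, add_sub_cancel] at this
  have k2 : ‖w‖ ≤ 1 + ‖w + 1‖ := by
    have := norm_sub_le (w + 1) (1 : ℂ)
    rw [norm_one, add_sub_cancel_right] at this
    linarith
  have k3 : 1 - ‖w‖ ≤ ‖w - 1‖ := by
    have := norm_sub_norm_le (1 : ℂ) w
    rwa [norm_one, norm_sub_rev] at this
  have k4 : 1 - ‖w‖ ≤ ‖w + 1‖ := by
    have := norm_sub_norm_le (1 : ℂ) (-w)
    rwa [norm_one, norm_neg, sub_neg_eq_add, add_comm] at this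
  have k5 : 2 - ‖w - 1‖ ≤ ‖w + 1‖ := by
    have := norm_sub_norm_le (2 : ℂ) (1 - w)
    rw [norm_sub_rev 1 w] at this
    have e : (2 : ℂ) - (1 - w) = w + 1 := by ring
    rw [e] at this
    simpa using this
  fin_cases i <;> fin_cases j <;>
    first
    | exact hij rfl
    | (simp [cen, rad, dist_eq_norm] at hi hj; linarith)

end Pool.Agent.Work.MP_090684_an
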