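import Mathlib

set_option autoImplicit false

namespace Pool.Agent.Work.MP_090684_an

open Complex Metric Set MeasureTheory Filter Topology
open scoped Real

/-- Cauchy integral formula on an annulus. -/
theorem annulus_cauchy {c : ℂ} {r₁ r₂ : ℝ} (h1 : 0 < r₁) {f : ℂ → ℂ} {U : Set ℂ}
    (hU : IsOpen U) (hsub : closedBall c r₂ \ ball c r₁ ⊆ U) (hf : DifferentiableOn ℂ f U)
    {w : ℂ} (hw : w ∈ ball c r₂ \ closedBall c r₁) :
    (2 * π * I) * f w = (∮ u in C(c, r₂), (u - w)⁻¹ * f u) - ∮ u in C(c, r₁), (u - w)⁻¹ * f u := by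
  have hw2 : ‖w - c‖ < r₂ := by simpa [dist_eq_norm] using hw.1
  have hw1 : r₁ < ‖w - c‖ := by
    have := hw.2
    simpa [dist_eq_norm] using this
  have h12 : r₁ ≤ r₂ := (hw1.trans hw2).le
  have hwU : w ∈ U := hsub ⟨ball_subset_closedBall hw.1, fun h => hw.2 (ball_subset_closedBall h)⟩
  have hnh : closedBall c r₂ \ ball c r₁ ∈ 𝓝 w := by
    have : ball c r₂ \ closedBall c r₁ ∈ 𝓝 w :=
      (isOpen_ball.sdiff isClosed_closedBall).mem_nhds hw
    exact mem_of_superset this (sdiff_subset_sdiff ball_subset_closedBall ball_subset_closedBall)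
  have hcont : ContinuousOn (dslope f w) (closedBall c r₂ \ ball c r₁) := by
    rw [continuousOn_dslope hnh]
    exact ⟨hf.continuousOn.mono hsub, hf.differentiableAt (hU.mem_nhds hwU)⟩
  have hann := circleIntegral_eq_of_differentiable_on_annulus_off_countable (c := c) h1 h12
    (f := dslope f w) (s := {w}) (countable_singleton w) hcont (by
      intro z hz
      have hzw : z ≠ w := by simpa using hz.2
      rw [differentiableAt_dslope_of_ne hzw]
      apply hf.differentiableAt (hU.mem_nhds _)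
      exact hsub ⟨ball_subset_closedBall hz.1.1, fun h => hz.1.2 (ball_subset_closedBall h)⟩)
  have key : ∀ r : ℝ, 0 < r → (∀ u, ‖u - c‖ = r → u ≠ w) → (sphere c r ⊆ U) →
      ∮ u in C(c, r), dslope f w u =
        (∮ u in C(c, r), (u - w)⁻¹ * f u) - f w * ∮ u in C(c, r), (u - w)⁻¹ := by
    intro r hr hne hsph
    have hc1 : ContinuousOn (fun u => (u - w)⁻¹ * f u) (sphere c r) := by
      apply ContinuousOn.mul
      · apply ContinuousOn.inv₀ (by fun_prop)
        intro u hu
        exact sub_ne_zero.2 (hne u (by simpa [dist_eq_norm] using hu))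
      · exact hf.continuousOn.mono hsph
    have hc2 : ContinuousOn (fun u => f w * (u - w)⁻¹) (sphere c r) := by
      apply ContinuousOn.mul continuousOn_const
      apply ContinuousOn.inv₀ (by fun_prop)
      intro u hu
      exact sub_ne_zero.2 (hne u (by simpa [dist_eq_norm] using hu))
    rw [← circleIntegral.integral_const_mul,
      ← circleIntegral.integral_sub (hc1.circleIntegrable hr.le) (hc2.circleIntegrable hr.le)]
    apply circleIntegral.integral_congr hr.le
    intro u hu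
    have hu' : u ≠ w := hne u (by simpa [dist_eq_norm] using hu)
    simp only
    rw [dslope_of_ne _ hu', slope_def_field]
    have : u - w ≠ 0 := sub_ne_zero.2 hu'
    field_simp
  have hs2 : sphere c r₂ ⊆ U := fun u hu => hsub ⟨sphere_subset_closedBall hu, by
    intro h
    simp only [mem_ball, mem_sphere] at h hu
    linarith⟩
  have hs1 : sphere c r₁ ⊆ U := fun u hu => hsub ⟨by
    simp only [mem_closedBall, mem_sphere] at hu ⊢
    linarith, by
    intro h
    simp only [mem_ball, mem_sphere] at h hu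
    linarith⟩
  rw [key r₂ (h1.trans_le h12) (by rintro u hu rfl; linarith) hs2,
    key r₁ h1 (by rintro u hu rfl; linarith) hs1] at hann
  rw [circleIntegral.integral_sub_inv_of_mem_ball hw.1] at hann
  have h0 : ∮ u in C(c, r₁), (u - w)⁻¹ = 0 := by
    apply DiffContOnCl.circleIntegral_eq_zero h1.le
    apply DifferentiableOn.diffContOnCl
    rw [closure_ball _ h1.ne']
    intro u hu
    apply DifferentiableAt.differentiableWithinAt
    have : u - w ≠ 0 := by
      intro h
      have : u = w := sub_eq_zero.1 h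
      subst this
      exact hw.2 hu
    fun_prop (disch := assumption)
  rw [h0] at hann
  linear_combination -hann

/-- Inversion change of variables for circle integrals. -/
theorem circleIntegral_inversion {c : ℂ} {r : ℝ} (hr : 0 < r) (F : ℂ → ℂ) :
    ∮ u in C(c, r), F u = ∮ v in C(0, r⁻¹), v⁻¹ ^ 2 * F (c + v⁻¹) := by
  simp only [circleIntegral, deriv_circleMap, smul_eq_mul]
  have h := intervalIntegral.integral_comp_sub_left (a := 0) (b := 2 * π)
    (fun θ => circleMap 0 r θ * I * F (circleMap c r θ)) (2 * π)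
  simp only [sub_self, sub_zero] at h
  rw [← h]
  apply intervalIntegral.integral_congr
  intro θ _
  simp only
  have h1 : (circleMap 0 r⁻¹ θ)⁻¹ = circleMap 0 r (2 * π - θ) := by
    simp only [circleMap, zero_add]
    have : cexp (((2 * π - θ : ℝ) : ℂ) * I) = (cexp (θ * I))⁻¹ := by
      push_cast
      rw [sub_mul, Complex.exp_sub, Complex.exp_two_pi_mul_I, one_div]
    rw [this]
    push_cast
    rw [mul_inv, inv_inv]
  have h2 : c + (circleMap 0 r⁻¹ θ)⁻¹ = circleMap c r (2 * π - θ) := by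
    rw [h1]; simp [circleMap]
  rw [h2, ← h1]
  have h3 : circleMap 0 r⁻¹ θ ≠ 0 := by
    simp [circleMap, hr.ne']
  field_simp


/-- The Cauchy type integral is holomorphic inside. -/
theorem differentiableOn_cauchy {c : ℂ} {r : ℝ} (hr : 0 < r) {f : ℂ → ℂ}
    (hf : ContinuousOn f (sphere c r)) :
    DifferentiableOn ℂ (fun w => (2 * π * I)⁻¹ * ∮ u in C(c, r), (u - w)⁻¹ * f u) (ball c r) := by
  lift r to NNReal using hr.le
  have h := hasFPowerSeriesOn_cauchy_integral (hf.circleIntegrable r.coe_nonneg)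
    (by exact_mod_cast hr)
  have h2 := h.differentiableOn
  rw [Metric.eball_coe] at h2
  exact h2

/-- Splitting off the principal part of a holomorphic function at a hole. -/
theorem fill_hole {c : ℂ} {r₁ r₂ : ℝ} (h1 : 0 < r₁) (h12 : r₁ < r₂) {U : Set ℂ}
    (hU : IsOpen U) (hsub : closedBall c r₂ \ ball c r₁ ⊆ U) {f : ℂ → ℂ}
    (hf : DifferentiableOn ℂ f U) :
    ∃ H g : ℂ → ℂ, DifferentiableOn ℂ H (ball 0 r₁⁻¹) ∧
      (∀ M : ℝ, (∀ u, ‖u - c‖ = r₁ → ‖f u‖ ≤ M) →
        ∀ s ∈ ball (0 : ℂ) r₁⁻¹, ‖H s‖ ≤ M * r₁ ^ 2 / (1 - r₁ * ‖s‖)) ∧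
      DifferentiableOn ℂ g ((U \ closedBall c r₁) ∪ ball c r₂) ∧
      ∀ w ∈ U \ closedBall c r₁, f w = g w
        + (w - c)⁻¹ * ((2 * π * I)⁻¹ * ∮ u in C(c, r₁), f u)
        + (w - c)⁻¹ ^ 2 * H ((w - c)⁻¹) := by
  have hr1' : 0 < r₁⁻¹ := inv_pos.2 h1
  have hs1 : sphere c r₁ ⊆ U := fun u hu => hsub ⟨by
    simp only [mem_closedBall, mem_sphere] at hu ⊢
    linarith, by
    intro h
    simp only [mem_ball, mem_sphere] at h hu
    linarith⟩
  have hs2 : sphere c r₂ ⊆ U := fun u hu => hsub ⟨sphere_subset_closedBall hu, by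
    intro h
    simp only [mem_ball, mem_sphere] at h hu
    linarith⟩
  -- the function on the inverted circle
  set F : ℂ → ℂ := fun v => v⁻¹ ^ 2 * f (c + v⁻¹) with hF
  have hne : ∀ v ∈ sphere (0 : ℂ) r₁⁻¹, v ≠ 0 := by
    intro v hv h
    subst h
    simp at hv
    exact h1.ne' hv.symm
  have hFc : ContinuousOn F (sphere 0 r₁⁻¹) := by
    apply ContinuousOn.mul
    · apply ContinuousOn.pow
      exact continuousOn_id.inv₀ hne
    · apply (hf.continuousOn.mono hs1).comp
      · exact continuousOn_const.add (continuousOn_id.inv₀ hne)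
      · intro v hv
        simp only [mem_sphere, dist_eq_norm, sub_zero] at hv
        simp [hv]
  set H : ℂ → ℂ := fun s => (2 * π * I)⁻¹ * ∮ v in C(0, r₁⁻¹), (v - s)⁻¹ * F v with hH
  set C : ℂ := (2 * π * I)⁻¹ * ∮ u in C(c, r₁), f u with hC
  set G : ℂ → ℂ := fun w => (2 * π * I)⁻¹ * ∮ u in C(c, r₂), (u - w)⁻¹ * f u with hG
  set g : ℂ → ℂ := fun w => if ‖w - c‖ < r₂ then G w else
    f w - (w - c)⁻¹ * C - (w - c)⁻¹ ^ 2 * H ((w - c)⁻¹) with hg
  have hHd : DifferentiableOn ℂ H (ball 0 r₁⁻¹) := differentiableOn_cauchy hr1' hFc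
  have hGd : DifferentiableOn ℂ G (ball c r₂) :=
    differentiableOn_cauchy (h1.trans h12) (hf.continuousOn.mono hs2)
  have hpi : (2 * π * I : ℂ) ≠ 0 := by simp [Real.pi_ne_zero]
  -- the representation
  have hrep : ∀ w ∈ U \ closedBall c r₁, f w = g w + (w - c)⁻¹ * C
      + (w - c)⁻¹ ^ 2 * H ((w - c)⁻¹) := by
    intro w hw
    by_cases hw2 : ‖w - c‖ < r₂
    · have hw1 : r₁ < ‖w - c‖ := by
        have := hw.2
        simpa [dist_eq_norm] using this
      have hwm : w ∈ ball c r₂ \ closedBall c r₁ := ⟨by simpa [dist_eq_norm] using hw2, hw.2⟩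
      have hann := annulus_cauchy h1 hU hsub hf hwm
      have hwc : w - c ≠ 0 := by
        intro h
        rw [h, norm_zero] at hw1
        linarith
      have hkey : -(∮ u in C(c, r₁), (u - w)⁻¹ * f u) = (w - c)⁻¹ * (∮ u in C(c, r₁), f u)
          + (w - c)⁻¹ ^ 2 * ∮ v in C(0, r₁⁻¹), (v - (w - c)⁻¹)⁻¹ * F v := by
        have hune : ∀ u ∈ sphere c r₁, u - w ≠ 0 := by
          intro u hu h
          have : u = w := sub_eq_zero.1 h
          subst this
          exact hw.2 (sphere_subset_closedBall hu)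
        have hc1 : ContinuousOn (fun u => (u - w)⁻¹ * f u) (sphere c r₁) :=
          (ContinuousOn.inv₀ (by fun_prop) hune).mul (hf.continuousOn.mono hs1)
        have hc2 : ContinuousOn (fun u => (w - c)⁻¹ * f u) (sphere c r₁) :=
          continuousOn_const.mul (hf.continuousOn.mono hs1)
        have e1 : -(∮ u in C(c, r₁), (u - w)⁻¹ * f u) - (w - c)⁻¹ * (∮ u in C(c, r₁), f u)
            = ∮ u in C(c, r₁), (-1) * (((u - w)⁻¹ * f u) + (w - c)⁻¹ * f u) := by
          rw [circleIntegral.integral_const_mul, circleIntegral.integral_add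
            (hc1.circleIntegrable h1.le) (hc2.circleIntegrable h1.le),
            circleIntegral.integral_const_mul]
          ring
        have e2 : ∮ u in C(c, r₁), (-1) * (((u - w)⁻¹ * f u) + (w - c)⁻¹ * f u)
            = (w - c)⁻¹ ^ 2 * ∮ v in C(0, r₁⁻¹), (v - (w - c)⁻¹)⁻¹ * F v := by
          rw [circleIntegral_inversion h1, ← circleIntegral.integral_const_mul]
          apply circleIntegral.integral_congr hr1'.le
          intro v hv
          have hv0 : v ≠ 0 := hne v hv
          have hvn : ‖v‖ = r₁⁻¹ := by simpa using hv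
          have hd1 : c + v⁻¹ - w ≠ 0 := by
            apply hune
            simp [hvn]
          have hd2 : v - (w - c)⁻¹ ≠ 0 := by
            intro h
            apply hd1
            have : v = (w - c)⁻¹ := sub_eq_zero.1 h
            rw [this, inv_inv]; ring
          have hd3 : v * (w - c) - 1 ≠ 0 := by
            intro h
            apply hd2
            field_simp
            linear_combination h
          have hd4 : v * (c - w) + 1 ≠ 0 := by
            intro h
            apply hd3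
            linear_combination -h
          simp only [hF]
          have hx1 : (c + v⁻¹ - w)⁻¹ = v / (v * (c - w) + 1) := by
            rw [eq_div_iff hd4, inv_mul_eq_iff_eq_mul₀ hd1]
            field_simp
            ring
          have hx2 : (v - (w - c)⁻¹)⁻¹ = (w - c) / (v * (w - c) - 1) := by
            rw [eq_div_iff hd3, inv_mul_eq_iff_eq_mul₀ hd2]
            field_simp
          rw [hx1, hx2]
          field_simp
          ring
        rw [← sub_eq_iff_eq_add', e1, e2]
      simp only [hg, hw2, if_true, hG, hC, hH]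
      rw [← mul_right_inj' hpi, hann]
      have hF' : ∀ x : ℂ, (2 * π * I) * ((2 * π * I)⁻¹ * x) = x := fun x => by
        rw [← mul_assoc, mul_inv_cancel₀ hpi, one_mul]
      rw [sub_eq_add_neg, hkey, mul_add, mul_add, hF', mul_left_comm _ (w - c)⁻¹ _, hF',
        mul_left_comm _ ((w - c)⁻¹ ^ 2) _, hF']
      ring
    · simp only [hg, hw2, if_false]
      ring
  refine ⟨H, g, hHd, ?_, ?_, hrep⟩
  · intro M hM s hs
    have hs' : ‖s‖ < r₁⁻¹ := by simpa using hs
    have hpos : 0 < 1 - r₁ * ‖s‖ := by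
      have := mul_lt_mul_of_pos_left hs' h1
      rw [mul_inv_cancel₀ h1.ne'] at this
      linarith
    have hb : ∀ v ∈ sphere (0 : ℂ) r₁⁻¹, ‖(v - s)⁻¹ * F v‖ ≤ (r₁⁻¹ - ‖s‖)⁻¹ * (r₁ ^ 2 * M) := by
      intro v hv
      have hvn : ‖v‖ = r₁⁻¹ := by simpa using hv
      rw [norm_mul]
      have hpos' : 0 < r₁⁻¹ - ‖s‖ := by linarith
      apply mul_le_mul
      · rw [norm_inv]
        apply inv_anti₀ hpos'
        rw [← hvn]
        exact norm_sub_norm_le v s
      · simp only [hF]
        rw [norm_mul, norm_pow, norm_inv, hvn, inv_inv]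
        apply mul_le_mul_of_nonneg_left _ (by positivity)
        apply hM
        simp [hvn]
      · positivity
      · positivity
    have h3 := circleIntegral.norm_two_pi_i_inv_smul_integral_le_of_norm_le_const hr1'.le hb
    simp only [hH]
    rw [smul_eq_mul] at h3
    refine h3.trans (le_of_eq ?_)
    have : r₁⁻¹ - ‖s‖ = (1 - r₁ * ‖s‖) / r₁ := by
      field_simp
    rw [this]
    have := hpos.ne'
    field_simp
  · intro w hw
    apply DifferentiableAt.differentiableWithinAt
    rcases hw with hw | hw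
    · have hopen : IsOpen (U \ closedBall c r₁) := hU.sdiff isClosed_closedBall
      have heq : g =ᶠ[𝓝 w] fun w => f w - (w - c)⁻¹ * C - (w - c)⁻¹ ^ 2 * H ((w - c)⁻¹) := by
        filter_upwards [hopen.mem_nhds hw] with z hz
        rw [hrep z hz]
        ring
      have hw1 : r₁ < ‖w - c‖ := by
        have := hw.2
        simpa [dist_eq_norm] using this
      have hwc : w - c ≠ 0 := by
        intro h
        rw [h, norm_zero] at hw1
        linarith
      rw [heq.differentiableAt_iff]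
      have hd1 : DifferentiableAt ℂ f w := hf.differentiableAt (hU.mem_nhds hw.1)
      have hd2 : DifferentiableAt ℂ (fun w : ℂ => (w - c)⁻¹) w := by
        fun_prop (disch := assumption)
      have hd3 : DifferentiableAt ℂ (fun w => H ((w - c)⁻¹)) w := by
        have hHw : DifferentiableAt ℂ H ((w - c)⁻¹) := by
          apply hHd.differentiableAt
          apply isOpen_ball.mem_nhds
          simp only [mem_ball, dist_zero_right, norm_inv]
          exact inv_strictAnti₀ h1 hw1
        exact DifferentiableAt.comp (g := H) (f := fun w : ℂ => (w - c)⁻¹) w hHw hd2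
      exact (hd1.sub (hd2.mul (differentiableAt_const C))).sub ((hd2.pow 2).mul hd3)
    · have heq : g =ᶠ[𝓝 w] G := by
        filter_upwards [isOpen_ball.mem_nhds hw] with z hz
        have : ‖z - c‖ < r₂ := by simpa [dist_eq_norm] using hz
        simp [hg, this]
      rw [heq.differentiableAt_iff]
      exact hGd.differentiableAt (isOpen_ball.mem_nhds hw)

/-- The principal part at a hole. -/
noncomputable def ppart (k C : ℂ) (H : ℂ → ℂ) (w : ℂ) : ℂ :=
  (w - k)⁻¹ * C + (w - k)⁻¹ ^ 2 * H ((w - k)⁻¹)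

theorem ppart_differentiableOn {k C : ℂ} {r : ℝ} (hr : 0 < r) {H : ℂ → ℂ}
    (hH : DifferentiableOn ℂ H (ball 0 r⁻¹)) :
    DifferentiableOn ℂ (ppart k C H) {w | r < ‖w - k‖} := by
  intro w hw
  apply DifferentiableAt.differentiableWithinAt
  simp only [mem_ofPred_eq] at hw
  have hwc : w - k ≠ 0 := by
    intro h
    rw [h, norm_zero] at hw
    linarith
  have hd2 : DifferentiableAt ℂ (fun w : ℂ => (w - k)⁻¹) w := by
    fun_prop (disch := assumption)
  have hHw : DifferentiableAt ℂ H ((w - k)⁻¹) := by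
    apply hH.differentiableAt
    apply isOpen_ball.mem_nhds
    simp only [mem_ball, dist_zero_right, norm_inv]
    exact inv_strictAnti₀ hr hw
  have hd3 := DifferentiableAt.comp (g := H) (f := fun w : ℂ => (w - k)⁻¹) w hHw hd2
  exact (hd2.mul (differentiableAt_const C)).add ((hd2.pow 2).mul hd3)

theorem isOpen_ext {k : ℂ} {r : ℝ} : IsOpen {w : ℂ | r < ‖w - k‖} :=
  isOpen_lt continuous_const (by fun_prop)

/-- The circle integral of the principal part over a circle not meeting the hole. -/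
theorem ppart_integral_zero {k C : ℂ} {r : ℝ} (hr : 0 < r) {H : ℂ → ℂ}
    (hH : DifferentiableOn ℂ H (ball 0 r⁻¹)) {a : ℂ} {s : ℝ} (hs : 0 < s)
    (hd : r + s < ‖a - k‖) :
    ∮ w in C(a, s), ppart k C H w = 0 := by
  apply DiffContOnCl.circleIntegral_eq_zero hs.le
  apply DifferentiableOn.diffContOnCl
  rw [closure_ball _ hs.ne']
  apply (ppart_differentiableOn hr hH).mono
  intro w hw
  simp only [mem_closedBall, dist_eq_norm] at hw
  simp only [mem_ofPred_eq]
  have : ‖a - k‖ ≤ ‖w - k‖ + ‖w - a‖ := by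
    have h1 : a - k = (w - k) - (w - a) := by ring
    rw [h1]
    exact norm_sub_le _ _
  linarith

/-- The circle integral of the principal part over a circle surrounding the hole. -/
theorem ppart_integral {k C : ℂ} {r : ℝ} (hr : 0 < r) {H : ℂ → ℂ}
    (hH : DifferentiableOn ℂ H (ball 0 r⁻¹)) {R : ℝ} (hR : ‖k‖ + r < R) :
    ∮ w in C(0, R), ppart k C H w = 2 * π * I * C := by
  have hR0 : 0 < R := by
    have := norm_nonneg k
    linarith
  have hout : ∀ w ∈ sphere (0 : ℂ) R, r < ‖w - k‖ := by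
    intro w hw
    have : ‖w‖ = R := by simpa using hw
    have := norm_sub_norm_le w k
    linarith
  have hne : ∀ w ∈ sphere (0 : ℂ) R, w - k ≠ 0 := by
    intro w hw h
    have := hout w hw
    rw [h, norm_zero] at this
    linarith
  obtain ⟨K, hK⟩ := hH.isExactOn_ball
  have hc1 : ContinuousOn (fun w : ℂ => (w - k)⁻¹ * C) (sphere 0 R) :=
    (ContinuousOn.inv₀ (by fun_prop) hne).mul continuousOn_const
  have hc2 : ContinuousOn (fun w : ℂ => (w - k)⁻¹ ^ 2 * H ((w - k)⁻¹)) (sphere 0 R) := by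
    have h1 : ContinuousOn (fun w : ℂ => (w - k)⁻¹) (sphere 0 R) :=
      (ContinuousOn.inv₀ (by fun_prop) hne)
    apply (h1.pow 2).mul
    apply hH.continuousOn.comp h1
    intro w hw
    simp only [mem_ball, dist_zero_right, norm_inv]
    exact inv_strictAnti₀ hr (hout w hw)
  unfold ppart
  rw [circleIntegral.integral_add (hc1.circleIntegrable hR0.le) (hc2.circleIntegrable hR0.le)]
  have e1 : ∮ w in C(0, R), (w - k)⁻¹ * C = 2 * π * I * C := by
    have h1 : (fun w : ℂ => (w - k)⁻¹ * C) = fun w => C * (w - k)⁻¹ := by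
      ext w; ring
    rw [h1, circleIntegral.integral_const_mul, circleIntegral.integral_sub_inv_of_mem_ball]
    · ring
    · simp only [mem_ball, dist_zero_right]
      linarith
  have e2 : ∮ w in C(0, R), (w - k)⁻¹ ^ 2 * H ((w - k)⁻¹) = 0 := by
    apply circleIntegral.integral_eq_zero_of_hasDerivWithinAt (f := fun w => -K ((w - k)⁻¹))
      hR0.le
    intro w hw
    apply HasDerivAt.hasDerivWithinAt
    have h1 : HasDerivAt (fun w : ℂ => (w - k)⁻¹) (-1 / (w - k) ^ 2) w := by
      have := ((hasDerivAt_id w).sub_const k).fun_inv (hne w hw)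
      simpa using this
    have h2 : HasDerivAt K (H ((w - k)⁻¹)) ((w - k)⁻¹) := by
      apply hK
      simp only [mem_ball, dist_zero_right, norm_inv]
      exact inv_strictAnti₀ hr (hout w hw)
    have h3 : HasDerivAt (fun w : ℂ => -K ((w - k)⁻¹))
        (-(H ((w - k)⁻¹) * (-1 / (w - k) ^ 2))) w := (HasDerivAt.comp w h2 h1).fun_neg
    have hv : (w - k)⁻¹ ^ 2 * H ((w - k)⁻¹) = -(H ((w - k)⁻¹) * (-1 / (w - k) ^ 2)) := by
      rw [neg_div, mul_neg, neg_neg, one_div, inv_pow, mul_comm]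
    rw [hv]
    exact h3
  rw [e1, e2, add_zero]

/-- The decomposition of a function holomorphic on a disc with three holes. -/
theorem three_holes {U : Set ℂ} (hU : IsOpen U) {R r : ℝ} (hr : 0 < r) (hr4 : r < 1 / 4)
    (hR : 2 < R)
    (hsub : {w : ℂ | ‖w‖ ≤ R ∧ r ≤ ‖w‖ ∧ r ≤ ‖w - 1‖ ∧ r ≤ ‖w + 1‖} ⊆ U) {f : ℂ → ℂ}
    (hf : DifferentiableOn ℂ f U) :
    ∃ H₀ H₁ H₂ g₀ g₁ g : ℂ → ℂ, ∃ V : Set ℂ, IsOpen V ∧ closedBall 0 R ⊆ V ∧
      DifferentiableOn ℂ g V ∧
      DifferentiableOn ℂ H₀ (ball 0 r⁻¹) ∧ DifferentiableOn ℂ H₁ (ball 0 r⁻¹) ∧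
      DifferentiableOn ℂ H₂ (ball 0 r⁻¹) ∧
      (∀ M : ℝ, (∀ u, ‖u‖ = r → ‖f u‖ ≤ M) →
        ∀ s ∈ ball (0 : ℂ) r⁻¹, ‖H₀ s‖ ≤ M * r ^ 2 / (1 - r * ‖s‖)) ∧
      (∀ M : ℝ, (∀ u, ‖u - 1‖ = r → ‖g₀ u‖ ≤ M) →
        ∀ s ∈ ball (0 : ℂ) r⁻¹, ‖H₁ s‖ ≤ M * r ^ 2 / (1 - r * ‖s‖)) ∧
      (∀ M : ℝ, (∀ u, ‖u - (-1)‖ = r → ‖g₁ u‖ ≤ M) →
        ∀ s ∈ ball (0 : ℂ) r⁻¹, ‖H₂ s‖ ≤ M * r ^ 2 / (1 - r * ‖s‖)) ∧
      (∀ w ∈ U, r < ‖w‖ → f w = g₀ w
        + ppart 0 ((2 * π * I)⁻¹ * ∮ u in C(0, r), f u) H₀ w) ∧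
      (∀ w ∈ U, r < ‖w‖ → r < ‖w - 1‖ → g₀ w = g₁ w
        + ppart 1 ((2 * π * I)⁻¹ * ∮ u in C(1, r), f u) H₁ w) ∧
      (∀ w ∈ U, r < ‖w‖ → r < ‖w - 1‖ → r < ‖w + 1‖ → g₁ w = g w
        + ppart (-1) ((2 * π * I)⁻¹ * ∮ u in C(-1, r), f u) H₂ w) := by
  have hp : (-1 : ℂ) = -1 := rfl
  -- first hole
  have hs0 : closedBall (0 : ℂ) (1 / 4) \ ball 0 r ⊆ U := by
    intro w hw
    have a1 : ‖w‖ ≤ 1 / 4 := by simpa using hw.1
    have a2 : r ≤ ‖w‖ := by simpa using hw.2
    apply hsub
    have b1 : 1 - ‖w‖ ≤ ‖w - 1‖ := by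
      have := norm_sub_norm_le (1 : ℂ) w
      rw [norm_one, norm_sub_rev] at this
      exact this
    have b2 : 1 - ‖w‖ ≤ ‖w + 1‖ := by
      have := norm_sub_norm_le (1 : ℂ) (-w)
      rw [norm_one, norm_neg, sub_neg_eq_add, add_comm] at this
      exact this
    exact ⟨by linarith, a2, by linarith, by linarith⟩
  obtain ⟨H₀, g₀, hH₀, hB₀, hg₀, he₀⟩ := fill_hole (c := 0) hr hr4 hU hs0 hf
  set U₀ : Set ℂ := (U \ closedBall 0 r) ∪ ball 0 (1 / 4) with hU₀
  have hU₀o : IsOpen U₀ := (hU.sdiff isClosed_closedBall).union isOpen_ball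
  -- second hole
  have hs1' : closedBall (1 : ℂ) (1 / 4) \ ball 1 r ⊆ U \ closedBall 0 r := by
    intro w hw
    have a1 : ‖w - 1‖ ≤ 1 / 4 := by simpa [dist_eq_norm] using hw.1
    have a2 : r ≤ ‖w - 1‖ := by simpa [dist_eq_norm] using hw.2
    have b1 : 1 - ‖w - 1‖ ≤ ‖w‖ := by
      have := norm_sub_norm_le (1 : ℂ) (1 - w)
      rw [norm_one, norm_sub_rev 1 w, sub_sub_cancel] at this
      exact this
    have b3 : ‖w‖ ≤ 1 + ‖w - 1‖ := by
      have := norm_add_le (1 : ℂ) (w - 1)
      rw [norm_one, add_sub_cancel] at this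
      exact this
    have b2 : 2 - ‖w - 1‖ ≤ ‖w + 1‖ := by
      have := norm_sub_norm_le (2 : ℂ) (1 - w)
      rw [norm_sub_rev 1 w] at this
      have e : (2 : ℂ) - (1 - w) = w + 1 := by ring
      rw [e] at this
      simpa using this
    refine ⟨hsub ⟨by linarith, by linarith, a2, by linarith⟩, ?_⟩
    simp only [mem_closedBall, dist_zero_right, not_le]
    linarith
  have hs1 : closedBall (1 : ℂ) (1 / 4) \ ball 1 r ⊆ U₀ := hs1'.trans subset_union_left
  obtain ⟨H₁, g₁, hH₁, hB₁, hg₁, he₁⟩ := fill_hole (c := 1) hr hr4 hU₀o hs1 hg₀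
  set U₁ : Set ℂ := (U₀ \ closedBall 1 r) ∪ ball 1 (1 / 4) with hU₁
  have hU₁o : IsOpen U₁ := (hU₀o.sdiff isClosed_closedBall).union isOpen_ball
  -- third hole
  have hs2' : closedBall (-1 : ℂ) (1 / 4) \ ball (-1) r ⊆ (U \ closedBall 0 r) \ closedBall 1 r := by
    intro w hw
    have a1 : ‖w + 1‖ ≤ 1 / 4 := by simpa [dist_eq_norm] using hw.1
    have a2 : r ≤ ‖w + 1‖ := by simpa [dist_eq_norm] using hw.2
    have b1 : 1 - ‖w + 1‖ ≤ ‖w‖ := by
      have := norm_sub_norm_le (1 : ℂ) (w + 1)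
      rw [norm_one] at this
      have e : (1 : ℂ) - (w + 1) = -w := by ring
      rw [e, norm_neg] at this
      exact this
    have b3 : ‖w‖ ≤ 1 + ‖w + 1‖ := by
      have := norm_sub_le (w + 1) (1 : ℂ)
      rw [norm_one, add_sub_cancel_right] at this
      linarith
    have b2 : 2 - ‖w + 1‖ ≤ ‖w - 1‖ := by
      have := norm_sub_norm_le (2 : ℂ) (w + 1)
      have e : (2 : ℂ) - (w + 1) = -(w - 1) := by ring
      rw [e, norm_neg] at this
      simpa using this
    refine ⟨⟨hsub ⟨by linarith, by linarith, by linarith, a2⟩, ?_⟩, ?_⟩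
    · simp only [mem_closedBall, dist_zero_right, not_le]
      linarith
    · simp only [mem_closedBall, dist_eq_norm, not_le]
      linarith
  have hs2 : closedBall (-1 : ℂ) (1 / 4) \ ball (-1) r ⊆ U₁ :=
    hs2'.trans ((sdiff_subset_sdiff_left subset_union_left).trans subset_union_left)
  obtain ⟨H₂, g₂, hH₂, hB₂, hg₂, he₂⟩ := fill_hole (c := -1) hr hr4 hU₁o hs2 hg₁
  set U₂ : Set ℂ := (U₁ \ closedBall (-1) r) ∪ ball (-1) (1 / 4) with hU₂
  have hU₂o : IsOpen U₂ := (hU₁o.sdiff isClosed_closedBall).union isOpen_ball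
  have hsphere1 : ∀ u ∈ sphere (1 : ℂ) r, u ∈ U \ closedBall 0 r := by
    intro u hu
    apply hs1'
    have : ‖u - 1‖ = r := by simpa [dist_eq_norm] using hu
    constructor
    · simp only [mem_closedBall, dist_eq_norm]
      linarith
    · simp only [mem_ball, dist_eq_norm, not_lt]
      linarith
  have hsphere2 : ∀ u ∈ sphere (-1 : ℂ) r, u ∈ (U \ closedBall 0 r) \ closedBall 1 r := by
    intro u hu
    apply hs2'
    have : ‖u - (-1)‖ = r := by simpa [dist_eq_norm] using hu
    constructor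
    · simp only [mem_closedBall, dist_eq_norm]
      linarith
    · simp only [mem_ball, dist_eq_norm, not_lt]
      linarith
  have he₀' : ∀ w ∈ U \ closedBall 0 r, f w = g₀ w
        + ppart 0 ((2 * π * I)⁻¹ * ∮ u in C(0, r), f u) H₀ w := by
    intro w hw
    rw [he₀ w hw, ppart]
    ring
  have he₁'' : ∀ w ∈ U₀ \ closedBall 1 r, g₀ w = g₁ w
        + ppart 1 ((2 * π * I)⁻¹ * ∮ u in C(1, r), g₀ u) H₁ w := by
    intro w hw
    rw [he₁ w hw, ppart]
    ring
  -- the coefficients
  have hcont1 : ContinuousOn f (sphere 1 r) :=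
    hf.continuousOn.mono (fun u hu => (hsphere1 u hu).1)
  have hcont2 : ContinuousOn f (sphere (-1) r) :=
    hf.continuousOn.mono (fun u hu => (hsphere2 u hu).1.1)
  have hpc : ∀ (k C : ℂ) (H : ℂ → ℂ), DifferentiableOn ℂ H (ball 0 r⁻¹) → ∀ a : ℂ,
      r + r < ‖a - k‖ → ContinuousOn (ppart k C H) (sphere a r) := by
    intro k C H hH a ha
    apply (ppart_differentiableOn hr hH).continuousOn.mono
    intro w hw
    simp only [mem_sphere, dist_eq_norm] at hw
    simp only [mem_ofPred_eq]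
    have : ‖a - k‖ ≤ ‖w - k‖ + ‖w - a‖ := by
      have h1 : a - k = (w - k) - (w - a) := by ring
      rw [h1]
      exact norm_sub_le _ _
    linarith
  have hC1 : ∮ u in C(1, r), g₀ u = ∮ u in C(1, r), f u := by
    have e1 : ∮ u in C(1, r), g₀ u
        = ∮ u in C(1, r), (f u - ppart 0 ((2 * π * I)⁻¹ * ∮ u in C(0, r), f u) H₀ u) := by
      apply circleIntegral.integral_congr hr.le
      intro u hu
      simp only
      rw [he₀' u (hsphere1 u hu)]
      ring
    rw [e1, circleIntegral.integral_sub (hcont1.circleIntegrable hr.le)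
      ((hpc 0 _ _ hH₀ 1 (by simp; linarith)).circleIntegrable hr.le),
      ppart_integral_zero hr hH₀ hr (by simp; linarith), sub_zero]
  have he₁' : ∀ w ∈ U₀ \ closedBall 1 r, g₀ w = g₁ w
        + ppart 1 ((2 * π * I)⁻¹ * ∮ u in C(1, r), f u) H₁ w := by
    intro w hw
    rw [he₁'' w hw, hC1]
  have hC2 : ∮ u in C(-1, r), g₁ u = ∮ u in C(-1, r), f u := by
    have e1 : ∮ u in C(-1, r), g₁ u
        = ∮ u in C(-1, r), (f u - ppart 0 ((2 * π * I)⁻¹ * ∮ u in C(0, r), f u) H₀ u
          - ppart 1 ((2 * π * I)⁻¹ * ∮ u in C(1, r), f u) H₁ u) := by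
      apply circleIntegral.integral_congr hr.le
      intro u hu
      simp only
      have hm := hsphere2 u hu
      rw [he₀' u hm.1, he₁' u ⟨Or.inl hm.1, hm.2⟩]
      ring
    have hn2 : ‖(-1 : ℂ) - 1‖ = 2 := by
      have : (-1 : ℂ) - 1 = -2 := by ring
      rw [this]
      simp
    have hx0 := (hpc 0 ((2 * π * I)⁻¹ * ∮ u in C(0, r), f u) _ hH₀ (-1) (by
      rw [sub_zero, norm_neg, norm_one]; linarith)).circleIntegrable hr.le
    have hx1 := (hpc 1 ((2 * π * I)⁻¹ * ∮ u in C(1, r), f u) _ hH₁ (-1) (by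
      rw [hn2]; linarith)).circleIntegrable hr.le
    have hxf := (hcont2.circleIntegrable hr.le)
    have hxf0 : CircleIntegrable (fun u => f u
        - ppart 0 ((2 * π * I)⁻¹ * ∮ u in C(0, r), f u) H₀ u) (-1) r := hxf.sub hx0
    rw [e1, circleIntegral.integral_sub hxf0 hx1,
      circleIntegral.integral_sub hxf hx0,
      ppart_integral_zero hr hH₀ hr (by rw [sub_zero, norm_neg, norm_one]; linarith),
      ppart_integral_zero hr hH₁ hr (by rw [hn2]; linarith), sub_zero, sub_zero]
  have he₂' : ∀ w ∈ U₁ \ closedBall (-1) r, g₁ w = g₂ w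
        + ppart (-1) ((2 * π * I)⁻¹ * ∮ u in C(-1, r), f u) H₂ w := by
    intro w hw
    rw [he₂ w hw, ppart, hC2]
    ring
  refine ⟨H₀, H₁, H₂, g₀, g₁, g₂, U₂, hU₂o, ?_, hg₂, hH₀, hH₁, hH₂, ?_, hB₁, hB₂, ?_, ?_, ?_⟩
  · intro w hw
    have hwR : ‖w‖ ≤ R := by simpa using hw
    by_cases h2 : ‖w + 1‖ < 1 / 4
    · right
      simpa [dist_eq_norm] using h2
    · left
      have h2' : ¬ w ∈ closedBall (-1 : ℂ) r := by
        simp only [mem_closedBall, dist_eq_norm, sub_neg_eq_add]
        push Not at h2 ⊢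
        linarith
      refine ⟨?_, h2'⟩
      by_cases h1 : ‖w - 1‖ < 1 / 4
      · right
        simpa [dist_eq_norm] using h1
      · left
        have h1' : ¬ w ∈ closedBall (1 : ℂ) r := by
          simp only [mem_closedBall, dist_eq_norm]
          push Not at h1 ⊢
          linarith
        refine ⟨?_, h1'⟩
        by_cases h0 : ‖w‖ < 1 / 4
        · right
          simpa using h0
        · left
          refine ⟨?_, ?_⟩
          · apply hsub
            push Not at h0 h1 h2
            exact ⟨hwR, by linarith, by linarith, by linarith⟩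
          · simp only [mem_closedBall, dist_zero_right]
            push Not at h0 ⊢
            linarith
  · intro M hM
    apply hB₀ M
    intro u hu
    rw [sub_zero] at hu
    exact hM u hu
  · intro w hw h0
    apply he₀'
    refine ⟨hw, ?_⟩
    simpa using h0
  · intro w hw h0 h1
    apply he₁'
    refine ⟨Or.inl ⟨hw, by simpa using h0⟩, ?_⟩
    simpa [dist_eq_norm] using h1
  · intro w hw h0 h1 h2
    apply he₂'
    refine ⟨Or.inl ⟨Or.inl ⟨hw, by simpa using h0⟩, by simpa [dist_eq_norm] using h1⟩, ?_⟩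
    simpa [dist_eq_norm] using h2

end Pool.Agent.Work.MP_090684_an
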