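import Pool.Agent.Work.MP_090684_an.Sym

set_option autoImplicit false

namespace Pool.Agent.Work.MP_090684_an

open Complex Metric Set MeasureTheory Filter Topology
open scoped Real ComplexConjugate

/-- A complex line of functions. -/
def line (f g : ℂ → ℂ) (l : ℂ) : ℂ → ℂ := fun z => f z + l * g z

theorem g1_line (a0 k : ℂ → ℂ) (l z : ℂ) : g1 (line a0 k l) z = g1 a0 z + l * g1 k z := by
  unfold g1 line; ring

theorem g2_line (a h B m : ℂ → ℂ) (l z : ℂ) :
    g2 (line a h l) (line B m l) z = g2 a B z + l * g2 h m z := by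
  unfold g2 line; ring

theorem b0_line (a h B m : ℂ → ℂ) (l z : ℂ) :
    b0 (line a h l) (line B m l) z = b0 a B z + l * b0 h m z := by
  unfold b0 line; ring

theorem cc_line {a h g k : ℂ → ℂ} (ha : ContinuousOn a (closedBall 0 2))
    (hh : ContinuousOn h (closedBall 0 2)) (hg : ContinuousOn g (closedBall 0 2))
    (hk : ContinuousOn k (closedBall 0 2)) (l : ℂ) :
    cc (line a h l) (fun z => g z + l * k z)
      = cc a g + l * (cc h g + cc a k) + l ^ 2 * cc h k := by
  have c1 := (cont_cc ha hg).intervalIntegrable (μ := volume) 0 (2 * π)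
  have c2 := (cont_cc hh hg).intervalIntegrable (μ := volume) 0 (2 * π)
  have c3 := (cont_cc ha hk).intervalIntegrable (μ := volume) 0 (2 * π)
  have c4 := (cont_cc hh hk).intervalIntegrable (μ := volume) 0 (2 * π)
  have e : ∫ θ in (0 : ℝ)..(2 * π), line a h l (exp (θ * I))
      * (g (exp (-(θ * I))) + l * k (exp (-(θ * I))))
      = (∫ θ in (0 : ℝ)..(2 * π), a (exp (θ * I)) * g (exp (-(θ * I))))
      + l * ((∫ θ in (0 : ℝ)..(2 * π), h (exp (θ * I)) * g (exp (-(θ * I))))
      + (∫ θ in (0 : ℝ)..(2 * π), a (exp (θ * I)) * k (exp (-(θ * I)))))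
      + l ^ 2 * (∫ θ in (0 : ℝ)..(2 * π), h (exp (θ * I)) * k (exp (-(θ * I)))) := by
    rw [← intervalIntegral.integral_add c2 c3, ← intervalIntegral.integral_const_mul,
      ← intervalIntegral.integral_const_mul,
      ← intervalIntegral.integral_add c1 ((c2.add c3).const_mul l),
      ← intervalIntegral.integral_add (c1.add ((c2.add c3).const_mul l)) (c4.const_mul _)]
    apply intervalIntegral.integral_congr
    intro θ _
    simp only [line]
    ring
  unfold cc
  simp only at e ⊢
  rw [e]
  ring

section lines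

variable {a h a0 k B m : ℂ → ℂ}

theorem diffl_cc1 (ha : Continuous a) (hh : Continuous h) (ha0 : Continuous a0)
    (hk : Continuous k) (l : ℂ) :
    DifferentiableAt ℂ (fun l => cc (line a h l) (g1 (line a0 k l))) l := by
  have e : (fun l => cc (line a h l) (g1 (line a0 k l)))
      = fun l => cc a (g1 a0) + l * (cc h (g1 a0) + cc a (g1 k)) + l ^ 2 * cc h (g1 k) := by
    ext l
    rw [← cc_line ha.continuousOn hh.continuousOn (cont_g1 ha0) (cont_g1 hk)]
    congr 1
    ext z
    exact g1_line a0 k l z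
  rw [e]
  fun_prop

theorem diffl_cc2 (ha : Continuous a) (hh : Continuous h) (hB : Continuous B)
    (hm : Continuous m) (l : ℂ) :
    DifferentiableAt ℂ (fun l => cc (line a h l) (g2 (line a h l) (line B m l))) l := by
  have e : (fun l => cc (line a h l) (g2 (line a h l) (line B m l)))
      = fun l => cc a (g2 a B) + l * (cc h (g2 a B) + cc a (g2 h m)) + l ^ 2 * cc h (g2 h m) := by
    ext l
    rw [← cc_line ha.continuousOn hh.continuousOn (cont_g2 ha hB) (cont_g2 hh hm)]
    congr 1
    ext z
    exact g2_line a h B m l z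
  rw [e]
  fun_prop

theorem diffl_ell (ha : Continuous a) (hh : Continuous h) (ha0 : Continuous a0)
    (hk : Continuous k) (hB : Continuous B) (hm : Continuous m) {l : ℂ}
    (hR : Reg (line a h l) (line a0 k l) (line B m l)) :
    DifferentiableAt ℂ (fun l => ell (line a h l) (line a0 k l) (line B m l)) l :=
  (diffl_cc2 ha hh hB hm l).neg.div (diffl_cc1 ha hh ha0 hk l) hR.cc1_ne

theorem diffl_line (f g : ℂ → ℂ) (z l : ℂ) : DifferentiableAt ℂ (fun l => line f g l z) l := by
  unfold line
  fun_prop

theorem diffl_kap (ha : Continuous a) (hh : Continuous h) (ha0 : Continuous a0)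
    (hk : Continuous k) (hB : Continuous B) (hm : Continuous m) {l : ℂ}
    (hR : Reg (line a h l) (line a0 k l) (line B m l)) :
    DifferentiableAt ℂ (fun l => kap (line a h l) (line a0 k l) (line B m l)) l :=
  ((diffl_ell ha hh ha0 hk hB hm hR).mul (diffl_line _ _ _ _)).add
    ((diffl_line _ _ _ _).const_mul _)

theorem diffl_bb (ha : Continuous a) (hh : Continuous h) (ha0 : Continuous a0)
    (hk : Continuous k) (hB : Continuous B) (hm : Continuous m) {l : ℂ}
    (hR : Reg (line a h l) (line a0 k l) (line B m l)) (z : ℂ) :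
    DifferentiableAt ℂ (fun l => bb (line a h l) (line a0 k l) (line B m l) z) l := by
  have e1 : DifferentiableAt ℂ (fun l => g1 (line a0 k l) z) l := by
    simp only [g1_line]; fun_prop
  have e2 : DifferentiableAt ℂ (fun l => g2 (line a h l) (line B m l) z) l := by
    simp only [g2_line]; fun_prop
  exact ((diffl_ell ha hh ha0 hk hB hm hR).mul e1).add e2

theorem diffl_b0 (z l : ℂ) :
    DifferentiableAt ℂ (fun l => b0 (line a h l) (line B m l) z) l := by
  simp only [b0_line]; fun_prop

theorem diffl_AA (ha : Continuous a) (hh : Continuous h) (ha0 : Continuous a0)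
    (hk : Continuous k) (hB : Continuous B) (hm : Continuous m) {l : ℂ}
    (hR : Reg (line a h l) (line a0 k l) (line B m l)) (w : ℂ) :
    DifferentiableAt ℂ (fun l => AA (line a h l) (line a0 k l) (line B m l) w) l :=
  ((((diffl_ell ha hh ha0 hk hB hm hR).mul (diffl_line _ _ _ _)).add
    ((diffl_line _ _ _ _).const_mul _)).add ((diffl_line _ _ _ _).const_mul _)).div
    (diffl_kap ha hh ha0 hk hB hm hR) hR.kap_ne

theorem diffl_BB (ha : Continuous a) (hh : Continuous h) (ha0 : Continuous a0)
    (hk : Continuous k) (hB : Continuous B) (hm : Continuous m) {l : ℂ}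
    (hR : Reg (line a h l) (line a0 k l) (line B m l)) (w : ℂ) :
    DifferentiableAt ℂ (fun l => BB (line a h l) (line a0 k l) (line B m l) w) l :=
  (diffl_kap ha hh ha0 hk hB hm hR).mul
    ((((((diffl_ell ha hh ha0 hk hB hm hR).inv hR.ell_ne).mul_const _).mul (diffl_b0 _ _)).add
    ((diffl_bb ha hh ha0 hk hB hm hR _).const_mul _)).sub
    ((diffl_bb ha hh ha0 hk hB hm hR _).const_mul _))

theorem diffl_qc (ha : Continuous a) (hh : Continuous h) (ha0 : Continuous a0)
    (hk : Continuous k) (hB : Continuous B) (hm : Continuous m) {l : ℂ}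
    (hR : Reg (line a h l) (line a0 k l) (line B m l)) (w : ℂ) :
    DifferentiableAt ℂ (fun l => qc (line a h l) (line a0 k l) (line B m l) w) l :=
  ((((diffl_ell ha hh ha0 hk hB hm hR).inv hR.ell_ne).mul_const _).mul
    (diffl_b0 _ _)).div_const _

theorem diffl_qp (ha : Continuous a) (hh : Continuous h) (ha0 : Continuous a0)
    (hk : Continuous k) (hB : Continuous B) (hm : Continuous m) {l : ℂ}
    (hR : Reg (line a h l) (line a0 k l) (line B m l)) (w : ℂ) :
    DifferentiableAt ℂ (fun l => qp (line a h l) (line a0 k l) (line B m l) w) l :=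
  ((diffl_bb ha hh ha0 hk hB hm hR _).const_mul _).div_const _

theorem diffl_qm (ha : Continuous a) (hh : Continuous h) (ha0 : Continuous a0)
    (hk : Continuous k) (hB : Continuous B) (hm : Continuous m) {l : ℂ}
    (hR : Reg (line a h l) (line a0 k l) (line B m l)) (w : ℂ) :
    DifferentiableAt ℂ (fun l => qm (line a h l) (line a0 k l) (line B m l) w) l :=
  (((diffl_bb ha hh ha0 hk hB hm hR _).const_mul _).div_const _).neg

theorem diffl_an (ha : Continuous a) (hh : Continuous h) (ha0 : Continuous a0)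
    (hk : Continuous k) (hB : Continuous B) (hm : Continuous m) {l : ℂ}
    (hR : Reg (line a h l) (line a0 k l) (line B m l)) (w : ℂ) :
    DifferentiableAt ℂ (fun l => an (line a h l) (line a0 k l) (line B m l) w) l :=
  ((diffl_AA ha hh ha0 hk hB hm hR _).add (diffl_qc ha hh ha0 hk hB hm hR _)).add
    (diffl_qm ha hh ha0 hk hB hm hR _)

theorem diffl_a0n (ha : Continuous a) (hh : Continuous h) (ha0 : Continuous a0)
    (hk : Continuous k) (hB : Continuous B) (hm : Continuous m) {l : ℂ}
    (hR : Reg (line a h l) (line a0 k l) (line B m l)) (w : ℂ) :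
    DifferentiableAt ℂ (fun l => a0n (line a h l) (line a0 k l) (line B m l) w) l :=
  ((diffl_AA ha hh ha0 hk hB hm hR _).add (diffl_qp ha hh ha0 hk hB hm hR _)).add
    (diffl_qm ha hh ha0 hk hB hm hR _)

end lines

/-- Schwarz lemma along complex lines. -/
theorem lip_of_line {F : ℂ → ℂ} {q : ℂ} {D : ℝ} (hD : 0 < D)
    (hd : ∀ l : ℂ, ‖l‖ * D < 1 / 200 → DifferentiableAt ℂ F l)
    (hb : ∀ l : ℂ, ‖l‖ * D < 1 / 200 → ‖F l - q‖ ≤ 1 / 100000)
    (h1 : ‖F 1 - q‖ ≤ 1 / 100000) : ‖F 1 - F 0‖ ≤ 1 / 2 * D := by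
  have h0 : ‖F 0 - q‖ ≤ 1 / 100000 := hb 0 (by simp)
  by_cases hc : D < 1 / 200
  · have hmem : ∀ l ∈ ball (0 : ℂ) (1 / 200 / D), ‖l‖ * D < 1 / 200 := by
      intro l hl
      rw [mem_ball, dist_zero_right, lt_div_iff₀ hD] at hl
      exact hl
    have hdo : DifferentiableOn ℂ F (ball 0 (1 / 200 / D)) := fun l hl =>
      (hd l (hmem l hl)).differentiableWithinAt
    have hm : MapsTo F (ball 0 (1 / 200 / D)) (closedBall (F 0) (1 / 50000)) := by
      intro l hl
      rw [mem_closedBall, dist_eq_norm]
      have : F l - F 0 = (F l - q) - (F 0 - q) := by ring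
      rw [this]
      exact (nsub (hb l (hmem l hl)) h0).trans (by norm_num)
    have h1m : (1 : ℂ) ∈ ball (0 : ℂ) (1 / 200 / D) := by
      rw [mem_ball, dist_zero_right, norm_one, lt_div_iff₀ hD]
      linarith
    have := dist_le_div_mul_dist_of_mapsTo_ball hdo hm h1m
    rw [dist_eq_norm, dist_zero_right, norm_one, mul_one] at this
    refine this.trans ?_
    rw [div_div_eq_mul_div, div_le_iff₀ (by norm_num)]
    linarith
  · push Not at hc
    have : F 1 - F 0 = (F 1 - q) - (F 0 - q) := by ring
    rw [this]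
    refine (nsub h1 h0).trans ?_
    linarith

end Pool.Agent.Work.MP_090684_an
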