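import Pool.Agent.Work.MP_090684_an.Fill

set_option autoImplicit false

namespace Pool.Agent.Work.MP_090684_an

open Complex Metric Set MeasureTheory Filter Topology
open scoped Real

/-- Cauchy's theorem for a disc with three holes. -/
theorem cauchy3 {U : Set ℂ} (hU : IsOpen U) {R r : ℝ} (hr : 0 < r) (hr4 : r < 1 / 4)
    (hR : 2 < R)
    (hsub : {w : ℂ | ‖w‖ ≤ R ∧ r ≤ ‖w‖ ∧ r ≤ ‖w - 1‖ ∧ r ≤ ‖w + 1‖} ⊆ U) {f : ℂ → ℂ}
    (hf : DifferentiableOn ℂ f U) :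
    ∮ w in C(0, R), f w
      = (∮ w in C(0, r), f w) + (∮ w in C(1, r), f w) + ∮ w in C(-1, r), f w := by
  obtain ⟨H₀, H₁, H₂, g₀, g₁, g, V, hV, hRV, hg, hH₀, hH₁, hH₂, -, -, -, e₀, e₁, e₂⟩ :=
    three_holes hU hr hr4 hR hsub hf
  have hR0 : 0 < R := by linarith
  have hsp : ∀ w ∈ sphere (0 : ℂ) R, w ∈ U ∧ r < ‖w‖ ∧ r < ‖w - 1‖ ∧ r < ‖w + 1‖ := by
    intro w hw
    have hwR : ‖w‖ = R := by simpa using hw
    have b1 : ‖w‖ - 1 ≤ ‖w - 1‖ := by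
      have := norm_sub_norm_le w (1 : ℂ)
      rwa [norm_one] at this
    have b2 : ‖w‖ - 1 ≤ ‖w + 1‖ := by
      have := norm_sub_norm_le w (-1 : ℂ)
      rwa [norm_neg, norm_one, sub_neg_eq_add] at this
    refine ⟨hsub ⟨hwR.le, ?_, ?_, ?_⟩, ?_, ?_, ?_⟩ <;> linarith
  have hpc : ∀ (k C : ℂ) (H : ℂ → ℂ), DifferentiableOn ℂ H (ball 0 r⁻¹) → ‖k‖ ≤ 1 →
      CircleIntegrable (ppart k C H) 0 R := by
    intro k C H hH hk
    apply ContinuousOn.circleIntegrable hR0.le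
    apply (ppart_differentiableOn hr hH).continuousOn.mono
    intro w hw
    simp only [mem_sphere, dist_zero_right] at hw
    simp only [mem_ofPred_eq]
    have := norm_sub_norm_le w k
    linarith
  have e : ∮ w in C(0, R), f w = ∮ w in C(0, R), (((g w
      + ppart (-1) ((2 * π * I)⁻¹ * ∮ u in C(-1, r), f u) H₂ w)
      + ppart 1 ((2 * π * I)⁻¹ * ∮ u in C(1, r), f u) H₁ w)
      + ppart 0 ((2 * π * I)⁻¹ * ∮ u in C(0, r), f u) H₀ w) := by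
    apply circleIntegral.integral_congr hR0.le
    intro w hw
    obtain ⟨h0, h1, h2, h3⟩ := hsp w hw
    simp only
    rw [e₀ w h0 h1, e₁ w h0 h1 h2, e₂ w h0 h1 h2 h3]
  have hgi : CircleIntegrable g 0 R := by
    apply ContinuousOn.circleIntegrable hR0.le
    exact hg.continuousOn.mono (sphere_subset_closedBall.trans hRV)
  have i2 := hpc (-1) ((2 * π * I)⁻¹ * ∮ u in C(-1, r), f u) H₂ hH₂ (by simp)
  have i1 := hpc 1 ((2 * π * I)⁻¹ * ∮ u in C(1, r), f u) H₁ hH₁ (by simp)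
  have i0 := hpc 0 ((2 * π * I)⁻¹ * ∮ u in C(0, r), f u) H₀ hH₀ (by simp)
  have j2 : CircleIntegrable (fun w => g w
      + ppart (-1) ((2 * π * I)⁻¹ * ∮ u in C(-1, r), f u) H₂ w) 0 R := hgi.add i2
  have j1 : CircleIntegrable (fun w => (g w
      + ppart (-1) ((2 * π * I)⁻¹ * ∮ u in C(-1, r), f u) H₂ w)
      + ppart 1 ((2 * π * I)⁻¹ * ∮ u in C(1, r), f u) H₁ w) 0 R := j2.add i1
  have hg0 : ∮ w in C(0, R), g w = 0 := by
    apply DiffContOnCl.circleIntegral_eq_zero hR0.le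
    apply DifferentiableOn.diffContOnCl
    rw [closure_ball _ hR0.ne']
    exact hg.mono hRV
  have hpi : (2 * π * I : ℂ) ≠ 0 := by simp [Real.pi_ne_zero]
  rw [e, circleIntegral.integral_add j1 i0, circleIntegral.integral_add j2 i1,
    circleIntegral.integral_add hgi i2, hg0,
    ppart_integral hr hH₀ (by simp; linarith), ppart_integral hr hH₁ (by simp; linarith),
    ppart_integral hr hH₂ (by simp; linarith), mul_inv_cancel_left₀ hpi,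
    mul_inv_cancel_left₀ hpi, mul_inv_cancel_left₀ hpi]
  ring

theorem ppart_bound {k : ℂ} {r M : ℝ} (hr : 0 < r) (hr4 : r < 1 / 4) (hM : 0 ≤ M) {H : ℂ → ℂ}
    (hH : ∀ s ∈ ball (0 : ℂ) r⁻¹, ‖H s‖ ≤ M * r ^ 2 / (1 - r * ‖s‖)) {u : ℂ}
    (hu : 1 / 2 ≤ ‖u - k‖) : ‖ppart k 0 H u‖ ≤ M := by
  have hs : ‖(u - k)⁻¹‖ ≤ 2 := by
    rw [norm_inv]
    have := inv_anti₀ (by norm_num : (0 : ℝ) < 1 / 2) hu
    norm_num at this
    linarith
  have hs' : (u - k)⁻¹ ∈ ball (0 : ℂ) r⁻¹ := by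
    simp only [mem_ball, dist_zero_right]
    have : (1 / 4 : ℝ)⁻¹ < r⁻¹ := inv_strictAnti₀ hr hr4
    norm_num at this
    linarith
  have h1 := hH _ hs'
  have hx : r * ‖(u - k)⁻¹‖ ≤ 1 / 2 := by nlinarith [norm_nonneg ((u - k)⁻¹)]
  have h2 : M * r ^ 2 / (1 - r * ‖(u - k)⁻¹‖) ≤ M * (1 / 16) / (1 / 2) := by
    apply div_le_div₀ (by positivity) _ (by norm_num) (by linarith)
    apply mul_le_mul_of_nonneg_left _ hM
    nlinarith
  unfold ppart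
  rw [mul_zero, zero_add, norm_mul, norm_pow]
  calc ‖(u - k)⁻¹‖ ^ 2 * ‖H (u - k)⁻¹‖ ≤ 2 ^ 2 * (M * (1 / 16) / (1 / 2)) := by
        apply mul_le_mul _ (h1.trans h2) (norm_nonneg _) (by norm_num)
        exact pow_le_pow_left₀ (norm_nonneg _) hs 2
    _ ≤ M := by linarith

theorem K_lipschitz {k : ℂ} {r M : ℝ} (hr : 0 < r) {H K : ℂ → ℂ}
    (hH : ∀ s ∈ ball (0 : ℂ) (3 / 4 * r)⁻¹, ‖H s‖ ≤ M * (3 / 4 * r) ^ 2 / (1 - (3 / 4 * r) * ‖s‖))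
    (hM : 0 ≤ M)
    (hK : ∀ s ∈ ball (0 : ℂ) (3 / 4 * r)⁻¹, HasDerivAt K (H s) s) {w w' : ℂ}
    (hw : r ≤ ‖w - k‖) (hw' : r ≤ ‖w' - k‖) :
    ‖K ((w - k)⁻¹) - K ((w' - k)⁻¹)‖ ≤ 9 / 4 * M * ‖w - w'‖ := by
  have hsub : closedBall (0 : ℂ) r⁻¹ ⊆ ball 0 (3 / 4 * r)⁻¹ := by
    apply closedBall_subset_ball
    apply inv_strictAnti₀ (by positivity)
    linarith
  have hb : ∀ s ∈ closedBall (0 : ℂ) r⁻¹, ‖H s‖ ≤ 9 / 4 * M * r ^ 2 := by
    intro s hs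
    refine (hH s (hsub hs)).trans ?_
    have hs1 : ‖s‖ ≤ r⁻¹ := by simpa using hs
    have hs2 : (3 / 4 * r) * ‖s‖ ≤ 3 / 4 := by
      have := mul_le_mul_of_nonneg_left hs1 hr.le
      rw [mul_inv_cancel₀ hr.ne'] at this
      linarith
    rw [div_le_iff₀ (by linarith)]
    have : 0 ≤ M * r ^ 2 := by positivity
    nlinarith
  have hne : w - k ≠ 0 := by
    intro h; rw [h, norm_zero] at hw; linarith
  have hne' : w' - k ≠ 0 := by
    intro h; rw [h, norm_zero] at hw'; linarith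
  have m1 : (w - k)⁻¹ ∈ closedBall (0 : ℂ) r⁻¹ := by
    simp only [mem_closedBall, dist_zero_right, norm_inv]
    exact inv_anti₀ hr hw
  have m2 : (w' - k)⁻¹ ∈ closedBall (0 : ℂ) r⁻¹ := by
    simp only [mem_closedBall, dist_zero_right, norm_inv]
    exact inv_anti₀ hr hw'
  have h1 := Convex.norm_image_sub_le_of_norm_hasDerivWithin_le
    (f := K) (f' := H) (s := closedBall (0 : ℂ) r⁻¹) (C := 9 / 4 * M * r ^ 2)
    (fun s hs => (hK s (hsub hs)).hasDerivWithinAt) hb (convex_closedBall _ _) m2 m1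
  refine h1.trans ?_
  have e : (w - k)⁻¹ - (w' - k)⁻¹ = (w' - w) * ((w - k)⁻¹ * (w' - k)⁻¹) := by
    field_simp
    ring
  rw [e, norm_mul, norm_mul, norm_inv, norm_inv, norm_sub_rev w' w]
  have h2 : ‖w - k‖⁻¹ * ‖w' - k‖⁻¹ ≤ r⁻¹ * r⁻¹ := by
    apply mul_le_mul (inv_anti₀ hr hw) (inv_anti₀ hr hw') (by positivity) (by positivity)
  calc 9 / 4 * M * r ^ 2 * (‖w - w'‖ * (‖w - k‖⁻¹ * ‖w' - k‖⁻¹))
      ≤ 9 / 4 * M * r ^ 2 * (‖w - w'‖ * (r⁻¹ * r⁻¹)) := by gcongr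
    _ = 9 / 4 * M * ‖w - w'‖ := by field_simp

/-- Primitives on a disc with three holes. -/
theorem primitive3 {U : Set ℂ} (hU : IsOpen U) {R r : ℝ} (hr : 0 < r) (hr4 : r < 1 / 4)
    (hR : 2 < R)
    (hsub : {w : ℂ | ‖w‖ ≤ R ∧ 3 / 4 * r ≤ ‖w‖ ∧ 3 / 4 * r ≤ ‖w - 1‖ ∧ 3 / 4 * r ≤ ‖w + 1‖} ⊆ U)
    {f : ℂ → ℂ} (hf : DifferentiableOn ℂ f U) {M : ℝ} (hM0 : 0 ≤ M) (hM : ∀ w ∈ U, ‖f w‖ ≤ M)
    (hp0 : ∮ w in C(0, 3 / 4 * r), f w = 0) (hp1 : ∮ w in C(1, 3 / 4 * r), f w = 0)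
    (hp2 : ∮ w in C(-1, 3 / 4 * r), f w = 0) :
    ∃ Z : ℂ → ℂ, (∀ w, ‖w‖ < R → 3 / 4 * r < ‖w‖ → 3 / 4 * r < ‖w - 1‖ → 3 / 4 * r < ‖w + 1‖ →
        HasDerivAt Z (f w) w) ∧
      ∀ w w', ‖w‖ < R → ‖w'‖ < R → r ≤ ‖w‖ → r ≤ ‖w'‖ → r ≤ ‖w - 1‖ → r ≤ ‖w' - 1‖ →
        r ≤ ‖w + 1‖ → r ≤ ‖w' + 1‖ → ‖Z w - Z w'‖ ≤ 24 * M * ‖w - w'‖ := by
  have hr' : 0 < 3 / 4 * r := by positivity
  have hr4' : 3 / 4 * r < 1 / 4 := by linarith
  obtain ⟨H₀, H₁, H₂, g₀, g₁, g, V, hV, hRV, hg, hH₀, hH₁, hH₂, hB₀, hB₁, hB₂, e₀, e₁, e₂⟩ :=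
    three_holes hU hr' hr4' hR hsub hf
  rw [hp0, mul_zero] at e₀
  rw [hp1, mul_zero] at e₁
  rw [hp2, mul_zero] at e₂
  have hR0 : 0 < R := by linarith
  have n1 : ∀ w : ℂ, 1 - ‖w - 1‖ ≤ ‖w‖ := by
    intro w
    have := norm_sub_norm_le (1 : ℂ) (1 - w)
    rwa [norm_one, norm_sub_rev 1 w, sub_sub_cancel] at this
  have n1' : ∀ w : ℂ, 1 - ‖w‖ ≤ ‖w - 1‖ := by
    intro w
    have := norm_sub_norm_le (1 : ℂ) w
    rwa [norm_one, norm_sub_rev] at this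
  have n2 : ∀ w : ℂ, 1 - ‖w + 1‖ ≤ ‖w‖ := by
    intro w
    have := norm_sub_norm_le (1 : ℂ) (w + 1)
    rw [norm_one] at this
    have e : (1 : ℂ) - (w + 1) = -w := by ring
    rwa [e, norm_neg] at this
  have n2' : ∀ w : ℂ, 1 - ‖w‖ ≤ ‖w + 1‖ := by
    intro w
    have := norm_sub_norm_le (1 : ℂ) (-w)
    rwa [norm_one, norm_neg, sub_neg_eq_add, add_comm] at this
  have n3 : ∀ w : ℂ, 2 - ‖w - 1‖ ≤ ‖w + 1‖ := by
    intro w
    have := norm_sub_norm_le (2 : ℂ) (1 - w)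
    rw [norm_sub_rev 1 w] at this
    have e : (2 : ℂ) - (1 - w) = w + 1 := by ring
    rw [e] at this
    simpa using this
  have n4 : ∀ w : ℂ, ‖w‖ ≤ 1 + ‖w - 1‖ := by
    intro w
    have := norm_add_le (1 : ℂ) (w - 1)
    rwa [norm_one, add_sub_cancel] at this
  have n5 : ∀ w : ℂ, ‖w‖ ≤ 1 + ‖w + 1‖ := by
    intro w
    have := norm_sub_le (w + 1) (1 : ℂ)
    rw [norm_one, add_sub_cancel_right] at this
    linarith
  -- bounds
  have B₀ := hB₀ M (by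
    intro u hu
    apply hM
    apply hsub
    have := n1' u
    have := n2' u
    refine ⟨?_, ?_, ?_, ?_⟩ <;> linarith)
  have p0 : ∀ u : ℂ, 1 / 2 ≤ ‖u‖ → ‖ppart 0 0 H₀ u‖ ≤ M := by
    intro u hu
    exact ppart_bound hr' hr4' hM0 B₀ (by rwa [sub_zero])
  have B₁ := hB₁ (2 * M) (by
    intro u hu
    have a1 := n1 u
    have a3 := n3 u
    have a4 := n4 u
    have hmem : u ∈ U := by
      apply hsub
      refine ⟨?_, ?_, ?_, ?_⟩ <;> linarith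
    have h1 := e₀ u hmem (by linarith)
    have h2 : g₀ u = f u - ppart 0 0 H₀ u := by rw [h1]; ring
    rw [h2]
    refine (norm_sub_le _ _).trans ?_
    have := hM u hmem
    have := p0 u (by linarith)
    linarith)
  have p1 : ∀ u : ℂ, 1 / 2 ≤ ‖u - 1‖ → ‖ppart 1 0 H₁ u‖ ≤ 2 * M := by
    intro u hu
    exact ppart_bound hr' hr4' (by positivity) B₁ hu
  have B₂ := hB₂ (4 * M) (by
    intro u hu
    rw [sub_neg_eq_add] at hu
    have a1 := n2 u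
    have a4 := n5 u
    have a3 : 2 - ‖u + 1‖ ≤ ‖u - 1‖ := by
      have := norm_sub_norm_le (2 : ℂ) (u + 1)
      have e : (2 : ℂ) - (u + 1) = -(u - 1) := by ring
      rw [e, norm_neg] at this
      simpa using this
    have hmem : u ∈ U := by
      apply hsub
      refine ⟨?_, ?_, ?_, ?_⟩ <;> linarith
    have h1 := e₀ u hmem (by linarith)
    have h1' := e₁ u hmem (by linarith) (by linarith)
    have h2 : g₁ u = f u - ppart 0 0 H₀ u - ppart 1 0 H₁ u := by rw [h1, h1']; ring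
    rw [h2]
    refine (norm_sub_le _ _).trans ?_
    have := norm_sub_le (f u) (ppart 0 0 H₀ u)
    have := hM u hmem
    have := p0 u (by linarith)
    have := p1 u (by linarith)
    linarith)
  have p2 : ∀ u : ℂ, 1 / 2 ≤ ‖u + 1‖ → ‖ppart (-1) 0 H₂ u‖ ≤ 4 * M := by
    intro u hu
    exact ppart_bound hr' hr4' (by positivity) B₂ (by rwa [sub_neg_eq_add])
  have hsp : ∀ u ∈ sphere (0 : ℂ) R, ‖g u‖ ≤ 8 * M := by
    intro u hu
    have hu' : ‖u‖ = R := by simpa using hu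
    have a4 := n4 u
    have a5 := n5 u
    have hmem : u ∈ U := by
      apply hsub
      refine ⟨?_, ?_, ?_, ?_⟩ <;> linarith
    have h1 := e₀ u hmem (by linarith)
    have h1' := e₁ u hmem (by linarith) (by linarith)
    have h1'' := e₂ u hmem (by linarith) (by linarith) (by linarith)
    have h2 : g u = f u - ppart 0 0 H₀ u - ppart 1 0 H₁ u - ppart (-1) 0 H₂ u := by
      rw [h1, h1', h1'']; ring
    rw [h2]
    have := norm_sub_le (f u - ppart 0 0 H₀ u - ppart 1 0 H₁ u) (ppart (-1) 0 H₂ u)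
    have := norm_sub_le (f u - ppart 0 0 H₀ u) (ppart 1 0 H₁ u)
    have := norm_sub_le (f u) (ppart 0 0 H₀ u)
    have := hM u hmem
    have := p0 u (by linarith)
    have := p1 u (by linarith)
    have := p2 u (by linarith)
    linarith
  have hdc : DiffContOnCl ℂ g (ball 0 R) := by
    apply DifferentiableOn.diffContOnCl
    rw [closure_ball _ hR0.ne']
    exact hg.mono hRV
  have hgb : ∀ u ∈ ball (0 : ℂ) R, ‖g u‖ ≤ 8 * M := by
    intro u hu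
    apply norm_le_of_forall_mem_frontier_norm_le isBounded_ball hdc _ (subset_closure hu)
    rw [frontier_ball _ hR0.ne']
    exact hsp
  obtain ⟨G, hG⟩ := (hg.mono (ball_subset_closedBall.trans hRV)).isExactOn_ball
  obtain ⟨K₀, hK₀⟩ := hH₀.isExactOn_ball
  obtain ⟨K₁, hK₁⟩ := hH₁.isExactOn_ball
  obtain ⟨K₂, hK₂⟩ := hH₂.isExactOn_ball
  refine ⟨fun w => G w - K₀ ((w - 0)⁻¹) - K₁ ((w - 1)⁻¹) - K₂ ((w - (-1))⁻¹), ?_, ?_⟩
  · intro w hwR hw0 hw1 hw2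
    have hw0' : 3 / 4 * r < ‖w - 0‖ := by rwa [sub_zero]
    have hw2' : 3 / 4 * r < ‖w - (-1)‖ := by rwa [sub_neg_eq_add]
    have hd : ∀ (k : ℂ) (H K : ℂ → ℂ), (∀ z ∈ ball (0 : ℂ) (3 / 4 * r)⁻¹, HasDerivAt K (H z) z) →
        3 / 4 * r < ‖w - k‖ → HasDerivAt (fun w : ℂ => K ((w - k)⁻¹))
        (-((w - k)⁻¹ ^ 2 * H ((w - k)⁻¹))) w := by
      intro k H K hK hk
      have hne : w - k ≠ 0 := by
        intro h; rw [h, norm_zero] at hk; linarith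
      have h1 : HasDerivAt (fun w : ℂ => (w - k)⁻¹) (-1 / (w - k) ^ 2) w := by
        have := ((hasDerivAt_id w).sub_const k).fun_inv hne
        simpa using this
      have h2 : HasDerivAt K (H ((w - k)⁻¹)) ((w - k)⁻¹) := by
        apply hK
        simp only [mem_ball, dist_zero_right, norm_inv]
        exact inv_strictAnti₀ hr' hk
      have h3 : HasDerivAt (fun w : ℂ => K ((w - k)⁻¹))
        ((H ((w - k)⁻¹) * (-1 / (w - k) ^ 2))) w := HasDerivAt.comp w h2 h1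
      have hv : -((w - k)⁻¹ ^ 2 * H ((w - k)⁻¹)) = (H ((w - k)⁻¹) * (-1 / (w - k) ^ 2)) := by
        rw [neg_div, mul_neg, one_div, inv_pow, mul_comm]
      rw [hv]
      exact h3
    have hGw := hG w (by simpa using hwR)
    have h0 := hd 0 H₀ K₀ hK₀ hw0'
    have h1 := hd 1 H₁ K₁ hK₁ hw1
    have h2 := hd (-1) H₂ K₂ hK₂ hw2'
    have hmem : w ∈ U := hsub ⟨hwR.le, hw0.le, hw1.le, hw2.le⟩
    have ef : f w = g w - (-((w - 0)⁻¹ ^ 2 * H₀ ((w - 0)⁻¹))) - (-((w - 1)⁻¹ ^ 2 * H₁ ((w - 1)⁻¹)))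
        - (-((w - (-1))⁻¹ ^ 2 * H₂ ((w - (-1))⁻¹))) := by
      rw [e₀ w hmem hw0, e₁ w hmem hw0 hw1, e₂ w hmem hw0 hw1 hw2]
      simp only [ppart]
      ring
    rw [ef]
    exact ((hGw.fun_sub h0).fun_sub h1).fun_sub h2
  · intro w w' hw hw' a1 a2 b1 b2 c1 c2
    have l0 := K_lipschitz (k := 0) hr B₀ hM0 hK₀ (w := w) (w' := w') (by rwa [sub_zero])
      (by rwa [sub_zero])
    have l1 := K_lipschitz (k := 1) hr B₁ (by positivity) hK₁ b1 b2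
    have l2 := K_lipschitz (k := -1) hr B₂ (by positivity) hK₂ (w := w) (w' := w')
      (by rwa [sub_neg_eq_add]) (by rwa [sub_neg_eq_add])
    have lG := Convex.norm_image_sub_le_of_norm_hasDerivWithin_le
      (f := G) (f' := g) (s := ball (0 : ℂ) R) (C := 8 * M)
      (fun s hs => (hG s hs).hasDerivWithinAt) hgb (convex_ball _ _)
      (show w' ∈ ball (0 : ℂ) R by simpa using hw') (show w ∈ ball (0 : ℂ) R by simpa using hw)
    have e : (G w - K₀ ((w - 0)⁻¹) - K₁ ((w - 1)⁻¹) - K₂ ((w - (-1))⁻¹))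
        - (G w' - K₀ ((w' - 0)⁻¹) - K₁ ((w' - 1)⁻¹) - K₂ ((w' - (-1))⁻¹))
        = (G w - G w') - (K₀ ((w - 0)⁻¹) - K₀ ((w' - 0)⁻¹))
          - (K₁ ((w - 1)⁻¹) - K₁ ((w' - 1)⁻¹)) - (K₂ ((w - (-1))⁻¹) - K₂ ((w' - (-1))⁻¹)) := by
      ring
    simp only
    rw [e]
    refine (norm_sub_le _ _).trans ?_
    have q1 := norm_sub_le ((G w - G w') - (K₀ ((w - 0)⁻¹) - K₀ ((w' - 0)⁻¹)))
      (K₁ ((w - 1)⁻¹) - K₁ ((w' - 1)⁻¹))
    have q2 := norm_sub_le (G w - G w') (K₀ ((w - 0)⁻¹) - K₀ ((w' - 0)⁻¹))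
    have q3 : 0 ≤ M * ‖w - w'‖ := by positivity
    nlinarith

end Pool.Agent.Work.MP_090684_an
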