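import Pool.Agent.Work.MP_090684_an.Domain

set_option autoImplicit false

namespace Pool.Agent.Work.MP_090684_an

open Complex Metric Set MeasureTheory Filter Topology
open scoped Real ComplexConjugate

/-- Open domain of the primitive. -/
def DD : Set ℂ := {w | ‖w‖ < 1500 ∧ 3 / 4 * (1 / 10000) < ‖w‖ ∧ 3 / 4 * (1 / 10000) < ‖w - 1‖ ∧
  3 / 4 * (1 / 10000) < ‖w + 1‖}

theorem isOpen_DD : IsOpen DD := by
  unfold DD
  refine IsOpen.and (isOpen_lt continuous_norm continuous_const)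
    (IsOpen.and (isOpen_lt continuous_const continuous_norm)
    (IsOpen.and (isOpen_lt continuous_const (by fun_prop)) (isOpen_lt continuous_const (by fun_prop))))

theorem SK_subset_DD : SK ⊆ DD := by
  rintro w ⟨h0, h1, h2, h3⟩
  exact ⟨by linarith, by linarith, by linarith, by linarith⟩

theorem DD_subset_UU : DD ⊆ UU := by
  rintro w ⟨h0, h1, h2, h3⟩
  exact ⟨by linarith, by linarith, by linarith, by linarith⟩

/-- All the data of the counterexample. -/
structure Data (P Q Z : ℂ → ℂ) (k₀ k₁ : ℂ) : Prop where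
  k0 : k₀ ≠ 0
  dP : ∀ w ∈ DD, DifferentiableAt ℂ P w
  dQ : ∀ w ∈ DD, DifferentiableAt ℂ Q w
  Qne : ∀ w ∈ DD, Q w ≠ 0
  dZ : ∀ w ∈ DD, HasDerivAt Z (Q w ^ 2) w
  inj : InjOn Z SK
  r0 : ∀ w, ‖w‖ = 1000 → w * P w = k₀ * conj (Q w)
  r1 : ∀ w, ‖w‖ = 1 / 10000 → w * P w = k₁ * conj (Q w)
  r2 : ∀ w, ‖w - 1‖ = 1 / 10000 → (w - 1) * P w = conj (Q w)
  r3 : ∀ w, ‖w + 1‖ = 1 / 10000 → (w + 1) * P w = conj (Q w)

theorem exists_data : ∃ (P Q Z : ℂ → ℂ) (k₀ k₁ : ℂ), Data P Q Z k₀ k₁ := by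
  obtain ⟨P, Q, k₀, k₁, hk, hP, hQ, hQc, h0, h1, h2, h3, p0, p1, p2⟩ := exists_PQ
  have hsub : {w : ℂ | ‖w‖ ≤ 1500 ∧ 3 / 4 * (1 / 10000) ≤ ‖w‖ ∧ 3 / 4 * (1 / 10000) ≤ ‖w - 1‖ ∧
      3 / 4 * (1 / 10000) ≤ ‖w + 1‖} ⊆ UU := by
    rintro w ⟨h0, h1, h2, h3⟩
    exact ⟨by linarith, by linarith, by linarith, by linarith⟩
  have hint : ∀ c : ℂ, sphere c (3 / 4 * (1 / 10000)) ⊆ UU →
      (∮ w in C(c, 3 / 4 * (1 / 10000)), Q w ^ 2 = 0) →
      ∮ w in C(c, 3 / 4 * (1 / 10000)), (Q w ^ 2 - 1) = 0 := by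
    intro c hc h
    have i1 : CircleIntegrable (fun w => Q w ^ 2) c (3 / 4 * (1 / 10000)) := by
      apply ContinuousOn.circleIntegrable (by norm_num)
      intro w hw
      exact ((hQ w (hc hw)).pow 2).continuousAt.continuousWithinAt
    have i2 : CircleIntegrable (fun _ : ℂ => (1 : ℂ)) c (3 / 4 * (1 / 10000)) :=
      continuousOn_const.circleIntegrable (by norm_num)
    rw [circleIntegral.integral_sub i1 i2, h]
    have : ∮ w in C(c, 3 / 4 * (1 / 10000)), (1 : ℂ) = 0 := by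
      apply DiffContOnCl.circleIntegral_eq_zero (by norm_num)
      exact diffContOnCl_const
    rw [this, sub_zero]
  have n1 : ∀ w : ℂ, 1 - ‖w‖ ≤ ‖w - 1‖ := by
    intro w
    have := norm_sub_norm_le (1 : ℂ) w
    rwa [norm_one, norm_sub_rev] at this
  have n2 : ∀ w : ℂ, 1 - ‖w‖ ≤ ‖w + 1‖ := by
    intro w
    have := norm_sub_norm_le (1 : ℂ) (-w)
    rwa [norm_one, norm_neg, sub_neg_eq_add, add_comm] at this
  have q0 := hint 0 (by
    intro w hw
    have h : ‖w‖ = 3 / 4 * (1 / 10000) := by simpa using hw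
    have := n1 w
    have := n2 w
    exact ⟨by linarith, by linarith, by linarith, by linarith⟩) p0
  have q1 := hint 1 (by
    intro w hw
    have h : ‖w - 1‖ = 3 / 4 * (1 / 10000) := by
      rw [mem_sphere, dist_eq_norm] at hw; exact hw
    have := n1 w
    have a2 : ‖w‖ ≤ 1 + ‖w - 1‖ := by
      have := norm_add_le (1 : ℂ) (w - 1)
      rwa [norm_one, add_sub_cancel] at this
    have a3 : 2 - ‖w - 1‖ ≤ ‖w + 1‖ := by
      have := norm_sub_norm_le (2 : ℂ) (1 - w)
      rw [norm_sub_rev 1 w] at this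
      have e : (2 : ℂ) - (1 - w) = w + 1 := by ring
      rw [e] at this
      simpa using this
    exact ⟨by linarith, by linarith, by linarith, by linarith⟩) p1
  have q2 := hint (-1) (by
    intro w hw
    have h : ‖w + 1‖ = 3 / 4 * (1 / 10000) := by
      rw [mem_sphere, dist_eq_norm, sub_neg_eq_add] at hw; exact hw
    have := n2 w
    have a2 : ‖w‖ ≤ 1 + ‖w + 1‖ := by
      have := norm_sub_le (w + 1) (1 : ℂ)
      rw [norm_one, add_sub_cancel_right] at this
      linarith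
    have a3 : 2 - ‖w + 1‖ ≤ ‖w - 1‖ := by
      have := norm_sub_norm_le (2 : ℂ) (w + 1)
      have e : (2 : ℂ) - (w + 1) = -(w - 1) := by ring
      rw [e, norm_neg] at this
      simpa using this
    exact ⟨by linarith, by linarith, by linarith, by linarith⟩) p2
  obtain ⟨Zf, hZ1, hZ2⟩ := primitive3 isOpen_UU (R := 1500) (r := 1 / 10000) (by norm_num)
    (by norm_num) (by norm_num) hsub (f := fun w => Q w ^ 2 - 1)
    (fun w hw => (((hQ w hw).pow 2).sub_const 1).differentiableWithinAt) (M := 1 / 50)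
    (by norm_num) hQc q0 q1 q2
  refine ⟨P, Q, fun w => w + Zf w, k₀, k₁, ?_⟩
  constructor
  · exact hk
  · exact fun w hw => hP w (DD_subset_UU hw)
  · exact fun w hw => hQ w (DD_subset_UU hw)
  · intro w hw h
    have := hQc w (DD_subset_UU hw)
    rw [h] at this
    norm_num at this
  · intro w hw
    have h := (hasDerivAt_id w).add (hZ1 w hw.1 hw.2.1 hw.2.2.1 hw.2.2.2)
    have e : (1 : ℂ) + (Q w ^ 2 - 1) = Q w ^ 2 := by ring
    rw [e] at h
    exact h
  · intro w hw w' hw' h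
    have hl := hZ2 w w' (by linarith [hw.1]) (by linarith [hw'.1]) hw.2.1 hw'.2.1 hw.2.2.1
      hw'.2.2.1 hw.2.2.2 hw'.2.2.2
    simp only at h
    have e : w - w' = -(Zf w - Zf w') := by linear_combination h
    have e2 : ‖w - w'‖ = ‖Zf w - Zf w'‖ := by rw [e, norm_neg]
    have : ‖w - w'‖ ≤ 0 := by
      have h0 := norm_nonneg (w - w')
      linarith
    exact sub_eq_zero.1 (norm_le_zero_iff.1 this)
  · exact h0
  · exact h1
  · exact h2
  · exact h3

/-- boundary curves -/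
noncomputable def gam (Z : ℂ → ℂ) (j : Fin 4) (t : ℝ) : ℂ :=
  Z (circleMap (cen j) (rad j) (2 * π * t))

variable {P Q Z : ℂ → ℂ} {k₀ k₁ : ℂ}

theorem circleMap_mem_SK (j : Fin 4) (θ : ℝ) : circleMap (cen j) (rad j) θ ∈ SK :=
  (sphere_sub_SK j (circleMap_mem_sphere _ (rad_pos j).le θ)).1

theorem circleMap_mem_DD (j : Fin 4) (θ : ℝ) : circleMap (cen j) (rad j) θ ∈ DD :=
  SK_subset_DD (circleMap_mem_SK j θ)

theorem Data.analytic (h : Data P Q Z k₀ k₁) : AnalyticOnNhd ℂ Z DD := by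
  apply DifferentiableOn.analyticOnNhd _ isOpen_DD
  exact fun w hw => (h.dZ w hw).differentiableAt.differentiableWithinAt

theorem Data.contZ (h : Data P Q Z k₀ k₁) : ContinuousOn Z DD := h.analytic.continuousOn

theorem Data.gam_analytic (h : Data P Q Z k₀ k₁) (j : Fin 4) :
    AnalyticOnNhd ℝ (gam Z j) univ := by
  intro t _
  have h1 : AnalyticAt ℝ Z (circleMap (cen j) (rad j) (2 * π * t)) :=
    (h.analytic _ (circleMap_mem_DD j _)).restrictScalars
  have h2 : AnalyticAt ℝ (circleMap (cen j) (rad j)) (2 * π * t) :=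
    analyticOnNhd_circleMap _ _ _ (mem_univ _)
  have h3 : AnalyticAt ℝ (fun t : ℝ => 2 * π * t) t := by fun_prop
  have h4 : AnalyticAt ℝ (fun t : ℝ => circleMap (cen j) (rad j) (2 * π * t)) t :=
    AnalyticAt.comp (g := circleMap (cen j) (rad j)) h2 h3
  exact AnalyticAt.comp (g := Z) h1 h4

theorem gam_periodic (j : Fin 4) : Function.Periodic (gam Z j) 1 := by
  intro t
  unfold gam
  have : 2 * π * (t + 1) = 2 * π * t + 2 * π := by ring
  rw [this, periodic_circleMap]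

theorem Data.gam_inj (h : Data P Q Z k₀ k₁) (j : Fin 4) : InjOn (gam Z j) (Ico 0 1) := by
  intro s hs t ht hst
  have h1 := h.inj (circleMap_mem_SK j _) (circleMap_mem_SK j _) hst
  simp only [circleMap, add_right_inj] at h1
  have hr : (rad j : ℂ) ≠ 0 := by exact_mod_cast (rad_pos j).ne'
  have h2 := mul_left_cancel₀ hr h1
  rw [Complex.exp_eq_exp_iff_exists_int] at h2
  obtain ⟨n, hn⟩ := h2
  have hpi : (2 * π * I : ℂ) ≠ 0 := by simp [Real.pi_ne_zero]
  have h3 : (s : ℂ) = t + n := by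
    push_cast at hn
    apply mul_left_cancel₀ hpi
    linear_combination hn
  have h4 : s = t + n := by exact_mod_cast h3
  have h5 : (n : ℝ) < 1 := by linarith [hs.2, ht.1]
  have h6 : (-1 : ℝ) < n := by linarith [hs.1, ht.2]
  have h7 : n < 1 := by exact_mod_cast h5
  have h8 : -1 < n := by exact_mod_cast h6
  have h9 : n = 0 := by omega
  rw [h4, h9]
  simp

theorem Data.gam_deriv (h : Data P Q Z k₀ k₁) (j : Fin 4) (t : ℝ) :
    HasDerivAt (gam Z j) (Q (circleMap (cen j) (rad j) (2 * π * t)) ^ 2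
      * (circleMap 0 (rad j) (2 * π * t) * I * (2 * π))) t := by
  have h1 := h.dZ _ (circleMap_mem_DD j (2 * π * t))
  have h2 := hasDerivAt_circleMap (cen j) (rad j) (2 * π * t)
  have h3 : HasDerivAt (fun t : ℝ => 2 * π * t) (2 * π) t := by
    simpa using (hasDerivAt_id t).const_mul (2 * π)
  have h4 : HasDerivAt (fun t : ℝ => circleMap (cen j) (rad j) (2 * π * t))
      ((2 * π : ℝ) • (circleMap 0 (rad j) (2 * π * t) * I)) t := HasDerivAt.scomp t h2 h3
  have h5 := HasDerivAt.comp_of_eq t h1 h4 rfl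
  have e : ((2 * π : ℝ) • (circleMap 0 (rad j) (2 * π * t) * I))
      = circleMap 0 (rad j) (2 * π * t) * I * (2 * π) := by
    rw [Complex.real_smul]
    push_cast
    ring
  rw [e] at h5
  exact h5

theorem Data.gam_deriv_ne (h : Data P Q Z k₀ k₁) (j : Fin 4) (t : ℝ) :
    deriv (gam Z j) t ≠ 0 := by
  rw [(h.gam_deriv j t).deriv]
  have h1 := h.Qne _ (circleMap_mem_DD j (2 * π * t))
  have h2 : circleMap 0 (rad j) (2 * π * t) ≠ 0 := by
    have := (rad_pos j).ne'
    simp [circleMap, this]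
  have : (π : ℂ) ≠ 0 := by exact_mod_cast Real.pi_ne_zero
  simp [h1, h2, this]

theorem Data.norm_gam_deriv (h : Data P Q Z k₀ k₁) (j : Fin 4) (t : ℝ) :
    ‖deriv (gam Z j) t‖ = ‖Q (circleMap (cen j) (rad j) (2 * π * t))‖ ^ 2 * (rad j * (2 * π)) := by
  rw [(h.gam_deriv j t).deriv, norm_mul, norm_mul, norm_mul, norm_pow]
  simp [abs_of_pos (rad_pos j), abs_of_pos Real.pi_pos]

theorem range_gam (j : Fin 4) : range (gam Z j) = Z '' sphere (cen j) (rad j) := by
  have h1 : range (circleMap (cen j) (rad j)) = sphere (cen j) (rad j) := by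
    rw [range_circleMap, abs_of_pos (rad_pos j)]
  rw [← h1, ← range_comp]
  apply Subset.antisymm
  · rintro _ ⟨t, rfl⟩
    exact ⟨2 * π * t, rfl⟩
  · rintro _ ⟨t, rfl⟩
    refine ⟨t / (2 * π), ?_⟩
    unfold gam
    have : 2 * π * (t / (2 * π)) = t := by
      have := Real.pi_ne_zero
      field_simp
    rw [this]
    rfl

theorem Data.gam_disjoint (h : Data P Q Z k₀ k₁) {i j : Fin 4} (hij : i ≠ j) :
    Disjoint (range (gam Z i)) (range (gam Z j)) := by
  rw [range_gam, range_gam, Set.disjoint_left]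
  rintro _ ⟨w, hw, rfl⟩ ⟨w', hw', he⟩
  have := h.inj (sphere_sub_SK j hw').1 (sphere_sub_SK i hw).1 he
  subst this
  exact Set.disjoint_left.1 (spheres_disjoint hij) hw hw'

theorem Data.isOpen_G (h : Data P Q Z k₀ k₁) : IsOpen (Z '' SO) := by
  rw [isOpen_iff_mem_nhds]
  rintro _ ⟨w, hw, rfl⟩
  have hwD := SK_subset_DD (SO_subset_SK hw)
  have h1 : HasStrictDerivAt Z (Q w ^ 2) w := by
    have := (h.analytic w hwD).hasStrictDerivAt
    rwa [(h.dZ w hwD).deriv] at this
  have h2 := h1.map_nhds_eq (pow_ne_zero 2 (h.Qne w hwD))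
  rw [← h2]
  exact image_mem_map (isOpen_SO.mem_nhds hw)

theorem Data.closure_G (h : Data P Q Z k₀ k₁) : closure (Z '' SO) = Z '' SK := by
  have hc : ContinuousOn Z SK := h.contZ.mono SK_subset_DD
  apply Subset.antisymm
  · apply closure_minimal (image_mono SO_subset_SK)
    exact (isCompact_SK.image_of_continuousOn hc).isClosed
  · rw [← closure_SO]
    rw [← closure_SO] at hc
    exact hc.image_closure

theorem Data.frontier_G (h : Data P Q Z k₀ k₁) : frontier (Z '' SO) = ⋃ j, range (gam Z j) := by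
  rw [frontier, h.closure_G, h.isOpen_G.interior_eq]
  have : Z '' SK \ Z '' SO = Z '' (SK \ SO) := by
    apply Subset.antisymm
    · rintro _ ⟨⟨w, hw, rfl⟩, hn⟩
      exact ⟨w, ⟨hw, fun hs => hn ⟨w, hs, rfl⟩⟩, rfl⟩
    · rintro _ ⟨w, ⟨hw, hn⟩, rfl⟩
      refine ⟨⟨w, hw, rfl⟩, ?_⟩
      rintro ⟨w', hw', he⟩
      have := h.inj (SO_subset_SK hw') hw he
      subst this
      exact hn hw'
  rw [this, SK_diff_SO, image_iUnion]
  congr 1
  ext j : 1
  exact (range_gam j).symm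

theorem Data.connected_G (h : Data P Q Z k₀ k₁) : IsConnected (Z '' SO) :=
  isConnected_SO.image _ (h.contZ.mono (SO_subset_SK.trans SK_subset_DD))

theorem Data.bounded_G (h : Data P Q Z k₀ k₁) : Bornology.IsBounded (Z '' SO) := by
  have hc : ContinuousOn Z SK := h.contZ.mono SK_subset_DD
  exact (isCompact_SK.image_of_continuousOn hc).isBounded.subset (image_mono SO_subset_SK)

end Pool.Agent.Work.MP_090684_an
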