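import Pool.Agent.Work.MP_090684_an.Banach

set_option autoImplicit false

namespace Pool.Agent.Work.MP_090684_an

open Complex Metric Set MeasureTheory Filter Topology
open scoped Real ComplexConjugate

variable {a a0 B : ℂ → ℂ}

noncomputable def Qf (a a0 B : ℂ → ℂ) (w : ℂ) : ℂ :=
  AA a a0 B w + qc a a0 B w + qp a a0 B w + qm a a0 B w

noncomputable def Pf (a a0 B : ℂ → ℂ) (w : ℂ) : ℂ :=
  BB a a0 B w + ell a a0 B * a0 (rho / w) / w + a (rho / (w - 1)) / (w - 1)
    + a (-rho / (w + 1)) / (w + 1)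

/-- The common domain of `P` and `Q`. -/
def UU : Set ℂ := {w | ‖w‖ < 2000 ∧ 1 / 20000 < ‖w‖ ∧ 1 / 20000 < ‖w - 1‖ ∧ 1 / 20000 < ‖w + 1‖}

theorem isOpen_UU : IsOpen UU := by
  unfold UU
  refine IsOpen.and (isOpen_lt continuous_norm continuous_const)
    (IsOpen.and (isOpen_lt continuous_const continuous_norm)
    (IsOpen.and (isOpen_lt continuous_const (by fun_prop)) (isOpen_lt continuous_const (by fun_prop))))

theorem Reg.diff_Q (h : Reg a a0 B) {w : ℂ} (hw : w ∈ UU) :
    DifferentiableAt ℂ (Qf a a0 B) w :=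
  (((h.diff_AA hw.1.le).add (h.diff_qc hw.2.1)).add (h.diff_qp hw.2.2.1)).add
    (h.diff_qm hw.2.2.2)

theorem Reg.diff_P (h : Reg a a0 B) {w : ℂ} (hw : w ∈ UU) :
    DifferentiableAt ℂ (Pf a a0 B) w := by
  obtain ⟨h0, h1, h2, h3⟩ := hw
  have n1 : w ≠ 0 := ne_of_norm_ge (by norm_num) h1.le
  have n2 : w - 1 ≠ 0 := ne_of_norm_ge (by norm_num) h2.le
  have n3 : w + 1 ≠ 0 := ne_of_norm_ge (by norm_num) h3.le
  have s1 : ‖rho / w‖ < 2 := by
    rw [norm_div, norm_rho, div_lt_iff₀ (by linarith)]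
    linarith
  have s2 : ‖rho / (w - 1)‖ < 2 := by
    rw [norm_div, norm_rho, div_lt_iff₀ (by linarith)]
    linarith
  have s3 : ‖-rho / (w + 1)‖ < 2 := by
    rw [norm_div, norm_neg, norm_rho, div_lt_iff₀ (by linarith)]
    linarith
  have d1 : DifferentiableAt ℂ (fun w : ℂ => rho / w) w := by fun_prop (disch := assumption)
  have d2 : DifferentiableAt ℂ (fun w : ℂ => rho / (w - 1)) w := by fun_prop (disch := assumption)
  have d3 : DifferentiableAt ℂ (fun w : ℂ => -rho / (w + 1)) w := by fun_prop (disch := assumption)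
  have e1 : DifferentiableAt ℂ (fun w : ℂ => a0 (rho / w)) w :=
    DifferentiableAt.comp (g := a0) w (diffAt_of_ball h.da0 s1) d1
  have e2 : DifferentiableAt ℂ (fun w : ℂ => a (rho / (w - 1))) w :=
    DifferentiableAt.comp (g := a) w (diffAt_of_ball h.da s2) d2
  have e3 : DifferentiableAt ℂ (fun w : ℂ => a (-rho / (w + 1))) w :=
    DifferentiableAt.comp (g := a) w (diffAt_of_ball h.da s3) d3
  exact (((h.diff_BB h0.le).add ((e1.const_mul _).div differentiableAt_id n1)).add
    (e2.div (differentiableAt_id.sub_const _) n2)).add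
    (e3.div (differentiableAt_id.add_const _) n3)

theorem Reg.Q_close (h : Reg a a0 B) {w : ℂ} (hw : w ∈ UU) :
    ‖Qf a a0 B w ^ 2 - 1‖ ≤ 1 / 50 := by
  obtain ⟨h0, h1, h2, h3⟩ := hw
  have e1 := h.AA_close h0.le le_rfl
  have e2 := h.qc_le le_rfl h1.le
  have e3 := h.qp_le le_rfl h2.le
  have e4 := h.qm_le le_rfl h3.le
  have e : Qf a a0 B w - 1 = (AA a a0 B w - 1) + qc a a0 B w + qp a a0 B w + qm a a0 B w := by
    unfold Qf; ring
  have e5 : ‖Qf a a0 B w - 1‖ ≤ 7 / 1000 := by
    rw [e]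
    refine (nadd (nadd (nadd e1 e2) e3) e4).trans ?_
    norm_num
  have e6 : Qf a a0 B w ^ 2 - 1 = (Qf a a0 B w - 1) * ((Qf a a0 B w - 1) + 2) := by ring
  rw [e6]
  refine (nmul e5 (nadd e5 (show ‖(2 : ℂ)‖ ≤ 2 by simp))).trans ?_
  norm_num

theorem Sym.Q_conj (h : Sym a a0 B) (w : ℂ) : Qf a a0 B (conj w) = conj (Qf a a0 B w) := by
  unfold Qf
  rw [h.AA_conj, h.qc_conj, h.qp_conj, h.qm_conj, map_add, map_add, map_add]

theorem Sym.Q_even (h : Sym a a0 B) (w : ℂ) : Qf a a0 B (-w) = Qf a a0 B w := by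
  unfold Qf
  rw [h.AA_even, h.qc_even, qp_neg, qm_neg]
  ring

theorem Sym.P_odd (h : Sym a a0 B) (w : ℂ) : Pf a a0 B (-w) = -Pf a a0 B w := by
  have e1 : rho / -w = -(rho / w) := by rw [div_neg]
  have e2 : rho / (-w - 1) = -rho / (w + 1) := by
    rw [show -w - 1 = -(w + 1) by ring, div_neg, neg_div]
  have e3 : -rho / (-w + 1) = rho / (w - 1) := by
    rw [show -w + 1 = -(w - 1) by ring, neg_div_neg_eq]
  unfold Pf
  rw [h.BB_odd, e1, e2, e3, h.ea0, show -w - 1 = -(w + 1) by ring,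
    show -w + 1 = -(w - 1) by ring, div_neg, div_neg, div_neg]
  ring

/-- boundary relation at the hole `1` -/
theorem rel_one (hS : Sym a a0 B)
    (hf : ∀ z, ‖z‖ ≤ 2 → a z = an a a0 B z ∧ a0 z = a0n a a0 B z ∧ B z = BB a a0 B z)
    {w : ℂ} (hw : ‖w - 1‖ = 1 / 10000) : (w - 1) * Pf a a0 B w = conj (Qf a a0 B w) := by
  have hne : w - 1 ≠ 0 := ne_of_norm_ge (m := 1 / 10000) (by norm_num) hw.ge
  have hrho := rho_ne
  have hz : ‖rho / (w - 1)‖ = 1 := by
    rw [norm_div, norm_rho, hw]; norm_num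
  have hw2 : ‖w‖ ≤ 2 := by
    have := norm_le_of_close hw.le
    rw [norm_one] at this
    linarith
  have hconj : conj w = 1 + rho * (rho / (w - 1)) := by
    have h1 : (w - 1) * conj (w - 1) = rho ^ 2 := by
      rw [Complex.mul_conj, Complex.normSq_eq_norm_sq, hw]
      simp [rho]
    rw [map_sub, map_one] at h1
    field_simp
    linear_combination h1
  have hBw := (hf w hw2).2.2
  have haz := (hf (rho / (w - 1)) (by rw [hz]; norm_num)).1
  rw [← hS.Q_conj, hconj]
  have hq : qp a a0 B (1 + rho * (rho / (w - 1))) = (w - 1) * bb a a0 B ((w - 1) / rho) := by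
    unfold qp
    have e1 : rho / (1 + rho * (rho / (w - 1)) - 1) = (w - 1) / rho := by
      field_simp
      ring_nf
    rw [e1, add_sub_cancel_left]
    field_simp
  have hQ : Qf a a0 B (1 + rho * (rho / (w - 1)))
      = a (rho / (w - 1)) + (w - 1) * bb a a0 B ((w - 1) / rho) := by
    rw [haz, ← hq]
    unfold Qf an
    ring
  have hb : bb a a0 B ((w - 1) / rho) = ell a a0 B * (a0 (rho / w) / w)
      + (B w + a (-rho / (w + 1)) / (w + 1)) := by
    unfold bb g1 g2
    have e1 : 1 + rho * ((w - 1) / rho) = w := by field_simp; ring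
    have e2 : 2 + rho * ((w - 1) / rho) = w + 1 := by field_simp; ring
    rw [e1, e2]
  rw [hQ, hb, hBw]
  unfold Pf
  have e3 : (w - 1) * (a (rho / (w - 1)) / (w - 1)) = a (rho / (w - 1)) := by
    field_simp
  linear_combination e3

/-- boundary relation at the central hole -/
theorem rel_zero (hR : Reg a a0 B) (hS : Sym a a0 B)
    (hf : ∀ z, ‖z‖ ≤ 2 → a z = an a a0 B z ∧ a0 z = a0n a a0 B z ∧ B z = BB a a0 B z)
    {w : ℂ} (hw : ‖w‖ = 1 / 10000) : w * Pf a a0 B w = ell a a0 B * conj (Qf a a0 B w) := by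
  have hne : w ≠ 0 := ne_of_norm_ge (m := 1 / 10000) (by norm_num) hw.ge
  have hrho := rho_ne
  have hell := hR.ell_ne
  have hz : ‖rho / w‖ = 1 := by
    rw [norm_div, norm_rho, hw]; norm_num
  have hw2 : ‖w‖ ≤ 2 := by linarith
  have hconj : conj w = rho * (rho / w) := by
    have h1 : w * conj w = rho ^ 2 := by
      rw [Complex.mul_conj, Complex.normSq_eq_norm_sq, hw]
      simp [rho]
    field_simp
    linear_combination h1
  have hBw := (hf w hw2).2.2
  have haz := (hf (rho / w) (by rw [hz]; norm_num)).2.1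
  rw [← hS.Q_conj, hconj]
  have hq : qc a a0 B (rho * (rho / w)) = (ell a a0 B)⁻¹ * (w * b0 a B (w / rho)) := by
    unfold qc
    have e1 : rho / (rho * (rho / w)) = w / rho := by
      field_simp
    rw [e1]
    field_simp
  have hQ : Qf a a0 B (rho * (rho / w))
      = a0 (rho / w) + (ell a a0 B)⁻¹ * (w * b0 a B (w / rho)) := by
    rw [haz, ← hq]
    unfold Qf a0n
    ring
  have hb : b0 a B (w / rho) = B w + a (rho / (w - 1)) / (w - 1)
      + a (-rho / (w + 1)) / (w + 1) := by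
    unfold b0
    have e1 : rho * (w / rho) = w := by field_simp
    rw [e1]
  rw [hQ, hb, hBw]
  unfold Pf
  have e3 : w * (ell a a0 B * a0 (rho / w) / w) = ell a a0 B * a0 (rho / w) := by
    field_simp
  have e4 : ell a a0 B * ((ell a a0 B)⁻¹ * (w * (BB a a0 B w + a (rho / (w - 1)) / (w - 1)
      + a (-rho / (w + 1)) / (w + 1)))) = w * (BB a a0 B w + a (rho / (w - 1)) / (w - 1)
      + a (-rho / (w + 1)) / (w + 1)) := by
    field_simp
  linear_combination e3 - e4

/-- boundary relation on the outer circle -/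
theorem rel_out (hR : Reg a a0 B) (hS : Sym a a0 B)
    {w : ℂ} (hw : ‖w‖ = 1000) : w * Pf a a0 B w = kap a a0 B * conj (Qf a a0 B w) := by
  have hne : w ≠ 0 := ne_of_norm_ge (m := 1000) (by norm_num) hw.ge
  have hT := TT_ne
  have hkap := hR.kap_ne
  have hell := hR.ell_ne
  have hne1 : w - 1 ≠ 0 := by
    have := norm_sub_norm_le w 1
    rw [norm_one, hw] at this
    exact ne_of_norm_ge (m := 999) (by norm_num) (by linarith)
  have hne2 : w + 1 ≠ 0 := by
    have := norm_sub_norm_le w (-1)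
    rw [norm_neg, norm_one, hw, sub_neg_eq_add] at this
    exact ne_of_norm_ge (m := 999) (by norm_num) (by linarith)
  have hTs : TT - w ≠ 0 := ne_of_norm_ge (by norm_num) (norm_TT_sub (by rw [hw]; norm_num))
  have hTa : TT + w ≠ 0 := ne_of_norm_ge (by norm_num) (norm_TT_add (by rw [hw]; norm_num))
  have hconj : conj w = TT / w := by
    have h1 : w * conj w = TT := by
      rw [Complex.mul_conj, Complex.normSq_eq_norm_sq, hw]
      norm_num [TT]
    field_simp
    linear_combination h1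
  rw [← hS.Q_conj, hconj]
  have x1 : TT - TT / w = TT * (w - 1) / w := by field_simp
  have x2 : TT + TT / w = TT * (w + 1) / w := by field_simp
  have x3 : TT / w - 1 = (TT - w) / w := by field_simp
  have x4 : TT / w + 1 = (TT + w) / w := by field_simp
  have hA : kap a a0 B * AA a a0 B (TT / w) = ell a a0 B * a0 (rho / w)
      + w / (w - 1) * a (rho / (w - 1)) + w / (w + 1) * a (-rho / (w + 1)) := by
    unfold AA SS
    rw [mul_div_cancel₀ _ hkap, x1, x2]
    have y1 : rho * (TT / w) / TT = rho / w := by field_simp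
    have y2 : TT / (TT * (w - 1) / w) = w / (w - 1) := by field_simp
    have y3 : rho * (TT / w) / (TT * (w - 1) / w) = rho / (w - 1) := by field_simp
    have y4 : TT / (TT * (w + 1) / w) = w / (w + 1) := by field_simp
    have y5 : -(rho * (TT / w)) / (TT * (w + 1) / w) = -rho / (w + 1) := by field_simp
    rw [y1, y2, y3, y4, y5]
  have hc : qc a a0 B (TT / w) = w * ((ell a a0 B)⁻¹ * (rho ^ 2 / TT) * b0 a B (rho * w / TT)) := by
    unfold qc
    have y1 : rho / (TT / w) = rho * w / TT := by field_simp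
    rw [y1]
    field_simp
  have hp : qp a a0 B (TT / w) = w * (rho ^ 2 / (TT - w) * bb a a0 B (rho * w / (TT - w))) := by
    unfold qp
    rw [x3]
    have y1 : rho / ((TT - w) / w) = rho * w / (TT - w) := by field_simp
    rw [y1]
    field_simp
  have hm : qm a a0 B (TT / w)
      = -(w * (rho ^ 2 / (TT + w) * bb a a0 B (-(rho * w) / (TT + w)))) := by
    unfold qm
    rw [x4]
    have y1 : -rho / ((TT + w) / w) = -(rho * w) / (TT + w) := by field_simp
    rw [y1]
    field_simp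
  have hB : w * BB a a0 B w = kap a a0 B * (qc a a0 B (TT / w) + qp a a0 B (TT / w)
      + qm a a0 B (TT / w)) := by
    rw [hc, hp, hm]
    unfold BB
    ring
  have hQ : kap a a0 B * Qf a a0 B (TT / w) = kap a a0 B * AA a a0 B (TT / w)
      + kap a a0 B * (qc a a0 B (TT / w) + qp a a0 B (TT / w) + qm a a0 B (TT / w)) := by
    unfold Qf; ring
  rw [hQ, hA, ← hB]
  unfold Pf
  field_simp
  ring

theorem rel_neg (hS : Sym a a0 B)
    (hf : ∀ z, ‖z‖ ≤ 2 → a z = an a a0 B z ∧ a0 z = a0n a a0 B z ∧ B z = BB a a0 B z)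
    {w : ℂ} (hw : ‖w + 1‖ = 1 / 10000) : (w + 1) * Pf a a0 B w = conj (Qf a a0 B w) := by
  have h1 : ‖-w - 1‖ = 1 / 10000 := by
    rw [show -w - 1 = -(w + 1) by ring, norm_neg, hw]
  have h2 := rel_one hS hf h1
  rw [hS.P_odd, hS.Q_even] at h2
  rw [← h2]
  ring

/-- circle integrals of even functions -/
theorem circle_even {f : ℂ → ℂ} (hf : ∀ w, f (-w) = f w) (c : ℂ) (r : ℝ) :
    ∮ w in C(-c, r), f w = -∮ w in C(c, r), f w := by
  simp only [circleIntegral, deriv_circleMap, smul_eq_mul]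
  set g : ℝ → ℂ := fun θ => circleMap 0 r θ * I * f (circleMap c r θ) with hg
  have hper : Function.Periodic g (2 * π) := by
    intro θ
    simp only [hg, periodic_circleMap 0 r θ, periodic_circleMap c r θ]
  have h1 : ∫ θ in (0 : ℝ)..(2 * π), g (θ + π) = ∫ θ in (0 : ℝ)..(2 * π), g θ := by
    rw [intervalIntegral.integral_comp_add_right, zero_add]
    have := hper.intervalIntegral_add_eq π 0
    rw [zero_add] at this
    rw [← this, add_comm]
  rw [← h1, ← intervalIntegral.integral_neg]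
  apply intervalIntegral.integral_congr
  intro θ _
  simp only [hg]
  have e1 : circleMap 0 r (θ + π) = -circleMap 0 r θ := by
    simp only [circleMap, zero_add]
    push_cast
    rw [add_mul, Complex.exp_add, Complex.exp_pi_mul_I]
    ring
  have e2 : circleMap (-c) r θ = -circleMap c r (θ + π) := by
    have : circleMap c r (θ + π) = c + circleMap 0 r (θ + π) := by simp [circleMap]
    rw [this, e1]
    simp [circleMap]
    ring
  rw [e1, e2, hf]
  ring

theorem cc_lin {g k : ℂ → ℂ} (ha : ContinuousOn a (closedBall 0 2))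
    (hg : ContinuousOn g (closedBall 0 2)) (hk : ContinuousOn k (closedBall 0 2)) (l : ℂ) :
    cc a (fun z => l * g z + k z) = l * cc a g + cc a k := by
  have c1 := (cont_cc ha hg).intervalIntegrable (μ := volume) 0 (2 * π)
  have c3 := (cont_cc ha hk).intervalIntegrable (μ := volume) 0 (2 * π)
  have e : ∫ θ in (0 : ℝ)..(2 * π), a (exp (θ * I))
      * (l * g (exp (-(θ * I))) + k (exp (-(θ * I))))
      = l * (∫ θ in (0 : ℝ)..(2 * π), a (exp (θ * I)) * g (exp (-(θ * I))))
      + (∫ θ in (0 : ℝ)..(2 * π), a (exp (θ * I)) * k (exp (-(θ * I)))) := by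
    rw [← intervalIntegral.integral_const_mul,
      ← intervalIntegral.integral_add (c1.const_mul l) c3]
    apply intervalIntegral.integral_congr
    intro θ _
    simp only
    ring
  unfold cc
  simp only at e ⊢
  rw [e]
  ring

theorem cc_bb (hR : Reg a a0 B) : cc a (bb a a0 B) = 0 := by
  have h := cc_lin hR.ca.continuousOn (cont_g1 hR.ca0) (cont_g2 hR.ca hR.cB) (ell a a0 B)
  have e : (fun z => ell a a0 B * g1 a0 z + g2 a B z) = bb a a0 B := rfl
  rw [e] at h
  rw [h]
  unfold ell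
  rw [div_mul_cancel₀ _ hR.cc1_ne]
  ring

theorem circle_inv_cc {g : ℂ → ℂ} :
    ∮ z in C(0, 1), a z * g z⁻¹ * z⁻¹ = (2 * π * I) * cc a g := by
  unfold cc
  simp only [circleIntegral, deriv_circleMap, smul_eq_mul]
  rw [← mul_assoc]
  have hpi : (2 * π * I : ℂ) * (2 * π : ℂ)⁻¹ = I := by
    have : (2 * π : ℂ) ≠ 0 := by simp [Real.pi_ne_zero]
    field_simp
  rw [hpi, ← intervalIntegral.integral_const_mul]
  apply intervalIntegral.integral_congr
  intro θ _
  simp only
  have e1 : circleMap 0 1 θ = exp (θ * I) := by simp [circleMap]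
  have e2 : (exp (θ * I))⁻¹ = exp (-(θ * I)) := by rw [Complex.exp_neg]
  have e3 : exp (θ * I) ≠ 0 := Complex.exp_ne_zero _
  rw [e1, e2]
  have e4 : exp (θ * I) * exp (-(θ * I)) = 1 := by
    rw [← Complex.exp_add, add_neg_cancel, Complex.exp_zero]
  linear_combination I * a (exp (θ * I)) * g (exp (-(θ * I))) * e4

theorem period_one (hR : Reg a a0 B)
    (hf : ∀ z, ‖z‖ ≤ 2 → a z = an a a0 B z ∧ a0 z = a0n a a0 B z ∧ B z = BB a a0 B z) :
    ∮ w in C(1, 1 / 10000), Qf a a0 B w ^ 2 = 0 := by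
  have hrho := rho_ne
  have e1 : ∮ w in C(1, 1 / 10000), Qf a a0 B w ^ 2
      = rho * ∮ z in C(0, 1), (a z + rho * z⁻¹ * bb a a0 B z⁻¹) ^ 2 := by
    simp only [circleIntegral, deriv_circleMap, smul_eq_mul]
    rw [← intervalIntegral.integral_const_mul]
    apply intervalIntegral.integral_congr
    intro θ _
    simp only
    have m1 : circleMap 1 (1 / 10000) θ = 1 + rho * circleMap 0 1 θ := by
      simp [circleMap, rho]
    have m2 : circleMap 0 (1 / 10000) θ = rho * circleMap 0 1 θ := by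
      simp [circleMap, rho]
    have hz : ‖circleMap 0 1 θ‖ = 1 := by simp
    have hz0 : circleMap 0 1 θ ≠ 0 := ne_of_norm_ge (m := 1) (by norm_num) hz.ge
    have haz := (hf (circleMap 0 1 θ) (by rw [hz]; norm_num)).1
    have hQ : Qf a a0 B (1 + rho * circleMap 0 1 θ)
        = a (circleMap 0 1 θ) + rho * (circleMap 0 1 θ)⁻¹ * bb a a0 B (circleMap 0 1 θ)⁻¹ := by
      have hq : qp a a0 B (1 + rho * circleMap 0 1 θ)
          = rho * (circleMap 0 1 θ)⁻¹ * bb a a0 B (circleMap 0 1 θ)⁻¹ := by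
        unfold qp
        have x : rho / (1 + rho * circleMap 0 1 θ - 1) = (circleMap 0 1 θ)⁻¹ := by
          rw [add_sub_cancel_left]
          field_simp
        rw [x, add_sub_cancel_left]
        field_simp
      rw [haz, ← hq]
      unfold Qf an
      ring
    rw [m1, m2, hQ]
    ring
  have hne : ∀ z ∈ sphere (0 : ℂ) 1, z ≠ 0 := by
    intro z hz h
    rw [h] at hz
    simp at hz
  have hinv : ContinuousOn (fun z : ℂ => z⁻¹) (sphere 0 1) := continuousOn_id.inv₀ hne
  have hbbc : ContinuousOn (bb a a0 B) (closedBall 0 1) := by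
    intro z hz
    have : ‖z‖ ≤ 1 := by simpa using hz
    exact (hR.diff_bb (by linarith)).continuousAt.continuousWithinAt
  have hbbi : ContinuousOn (fun z : ℂ => bb a a0 B z⁻¹) (sphere 0 1) := by
    apply hbbc.comp hinv
    intro z hz
    have : ‖z‖ = 1 := by simpa using hz
    simp [this]
  have hac : ContinuousOn a (sphere 0 1) := hR.ca.continuousOn
  have i1 : CircleIntegrable (fun z => a z ^ 2) 0 1 :=
    (hac.pow 2).circleIntegrable (by norm_num)
  have i2 : CircleIntegrable (fun z => (2 * rho) * (a z * bb a a0 B z⁻¹ * z⁻¹)) 0 1 :=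
    (continuousOn_const.mul ((hac.mul hbbi).mul hinv)).circleIntegrable (by norm_num)
  have i3 : CircleIntegrable (fun z => rho ^ 2 * (z⁻¹ ^ 2 * bb a a0 B (0 + z⁻¹) ^ 2)) 0 1 := by
    simp only [zero_add]
    exact (continuousOn_const.mul ((hinv.pow 2).mul (hbbi.pow 2))).circleIntegrable (by norm_num)
  have i12 : CircleIntegrable (fun z => a z ^ 2 + (2 * rho) * (a z * bb a a0 B z⁻¹ * z⁻¹)) 0 1 :=
    i1.add i2
  have e2 : ∮ z in C(0, 1), (a z + rho * z⁻¹ * bb a a0 B z⁻¹) ^ 2
      = ∮ z in C(0, 1), ((a z ^ 2 + (2 * rho) * (a z * bb a a0 B z⁻¹ * z⁻¹))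
        + rho ^ 2 * (z⁻¹ ^ 2 * bb a a0 B (0 + z⁻¹) ^ 2)) := by
    apply circleIntegral.integral_congr (by norm_num)
    intro z _
    simp only [zero_add]
    ring
  have z1 : ∮ z in C(0, 1), a z ^ 2 = 0 := by
    apply DiffContOnCl.circleIntegral_eq_zero (by norm_num)
    apply DifferentiableOn.diffContOnCl
    rw [closure_ball _ one_ne_zero]
    apply (hR.da.pow 2).mono
    intro z hz
    have : ‖z‖ ≤ 1 := by simpa using hz
    simp only [mem_ball, dist_zero_right]
    linarith
  have z3 : ∮ z in C(0, 1), z⁻¹ ^ 2 * bb a a0 B (0 + z⁻¹) ^ 2 = 0 := by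
    have h := circleIntegral_inversion (c := 0) (r := 1) one_pos (fun z => bb a a0 B z ^ 2)
    rw [inv_one] at h
    rw [← h]
    apply DiffContOnCl.circleIntegral_eq_zero (by norm_num)
    apply DifferentiableOn.diffContOnCl
    rw [closure_ball _ one_ne_zero]
    intro z hz
    have : ‖z‖ ≤ 1 := by simpa using hz
    exact ((hR.diff_bb (by linarith)).pow 2).differentiableWithinAt
  rw [e1, e2, circleIntegral.integral_add i12 i3, circleIntegral.integral_add i1 i2,
    circleIntegral.integral_const_mul, circleIntegral.integral_const_mul, z1, z3, circle_inv_cc,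
    cc_bb hR]
  ring

/-- Summary of the construction. -/
theorem exists_PQ : ∃ (P Q : ℂ → ℂ) (k₀ k₁ : ℂ), k₀ ≠ 0 ∧
    (∀ w ∈ UU, DifferentiableAt ℂ P w) ∧ (∀ w ∈ UU, DifferentiableAt ℂ Q w) ∧
    (∀ w ∈ UU, ‖Q w ^ 2 - 1‖ ≤ 1 / 50) ∧
    (∀ w, ‖w‖ = 1000 → w * P w = k₀ * conj (Q w)) ∧
    (∀ w, ‖w‖ = 1 / 10000 → w * P w = k₁ * conj (Q w)) ∧
    (∀ w, ‖w - 1‖ = 1 / 10000 → (w - 1) * P w = conj (Q w)) ∧
    (∀ w, ‖w + 1‖ = 1 / 10000 → (w + 1) * P w = conj (Q w)) ∧
    (∮ w in C(0, 3 / 4 * (1 / 10000)), Q w ^ 2 = 0) ∧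
    (∮ w in C(1, 3 / 4 * (1 / 10000)), Q w ^ 2 = 0) ∧
    (∮ w in C(-1, 3 / 4 * (1 / 10000)), Q w ^ 2 = 0) := by
  obtain ⟨a, a0, B, hR, hS, hf⟩ := exists_fix
  have heven : ∀ w, Qf a a0 B (-w) ^ 2 = Qf a a0 B w ^ 2 := fun w => by rw [hS.Q_even]
  have p1 : ∮ w in C(1, 3 / 4 * (1 / 10000)), Qf a a0 B w ^ 2 = 0 := by
    rw [← period_one hR hf]
    symm
    apply circleIntegral_eq_of_differentiable_on_annulus_off_countable (s := ∅) (by norm_num)
      (by norm_num) countable_empty
    · intro w hw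
      have h1 : ‖w - 1‖ ≤ 1 / 10000 := by simpa [dist_eq_norm] using hw.1
      have h2 : 3 / 4 * (1 / 10000) ≤ ‖w - 1‖ := by simpa [dist_eq_norm] using hw.2
      have h3 : 1 - ‖w - 1‖ ≤ ‖w‖ := by
        have := norm_sub_norm_le (1 : ℂ) (1 - w)
        rwa [norm_one, norm_sub_rev 1 w, sub_sub_cancel] at this
      have h4 : ‖w‖ ≤ 1 + ‖w - 1‖ := by
        have := norm_add_le (1 : ℂ) (w - 1)
        rwa [norm_one, add_sub_cancel] at this
      have h5 : 2 - ‖w - 1‖ ≤ ‖w + 1‖ := by
        have := norm_sub_norm_le (2 : ℂ) (1 - w)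
        rw [norm_sub_rev 1 w] at this
        have e : (2 : ℂ) - (1 - w) = w + 1 := by ring
        rw [e] at this
        simpa using this
      have hm : w ∈ UU := ⟨by linarith, by linarith, by linarith, by linarith⟩
      exact ((hR.diff_Q hm).pow 2).continuousAt.continuousWithinAt
    · intro w hw
      have hw' := hw.1
      have h1 : ‖w - 1‖ < 1 / 10000 := by simpa [dist_eq_norm] using hw'.1
      have h2 : 3 / 4 * (1 / 10000) < ‖w - 1‖ := by
        have := hw'.2
        simpa [dist_eq_norm] using this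
      have h3 : 1 - ‖w - 1‖ ≤ ‖w‖ := by
        have := norm_sub_norm_le (1 : ℂ) (1 - w)
        rwa [norm_one, norm_sub_rev 1 w, sub_sub_cancel] at this
      have h4 : ‖w‖ ≤ 1 + ‖w - 1‖ := by
        have := norm_add_le (1 : ℂ) (w - 1)
        rwa [norm_one, add_sub_cancel] at this
      have h5 : 2 - ‖w - 1‖ ≤ ‖w + 1‖ := by
        have := norm_sub_norm_le (2 : ℂ) (1 - w)
        rw [norm_sub_rev 1 w] at this
        have e : (2 : ℂ) - (1 - w) = w + 1 := by ring
        rw [e] at this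
        simpa using this
      have hm : w ∈ UU := ⟨by linarith, by linarith, by linarith, by linarith⟩
      exact (hR.diff_Q hm).pow 2
  refine ⟨Pf a a0 B, Qf a a0 B, kap a a0 B, ell a a0 B, hR.kap_ne, fun w hw => hR.diff_P hw,
    fun w hw => hR.diff_Q hw, fun w hw => hR.Q_close hw, fun w hw => rel_out hR hS hw,
    fun w hw => rel_zero hR hS hf hw, fun w hw => rel_one hS hf hw,
    fun w hw => rel_neg hS hf hw, ?_, p1, ?_⟩
  · have h := circle_even (f := fun w => Qf a a0 B w ^ 2) heven 0 (3 / 4 * (1 / 10000))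
    rw [neg_zero] at h
    exact self_eq_neg.1 h
  · rw [circle_even (f := fun w => Qf a a0 B w ^ 2) heven, p1, neg_zero]

end Pool.Agent.Work.MP_090684_an
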