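import Pool.Agent.Work.MP_090684_an.Diff

set_option autoImplicit false

namespace Pool.Agent.Work.MP_090684_an

open Complex Metric Set MeasureTheory Filter Topology
open scoped Real ComplexConjugate

structure Sym (a a0 B : ℂ → ℂ) : Prop where
  ra : ∀ z, a (conj z) = conj (a z)
  ra0 : ∀ z, a0 (conj z) = conj (a0 z)
  rB : ∀ z, B (conj z) = conj (B z)
  ea0 : ∀ z, a0 (-z) = a0 z
  oB : ∀ z, B (-z) = -B z

variable {a a0 B : ℂ → ℂ}

theorem Sym.g1_conj (h : Sym a a0 B) (z : ℂ) : g1 a0 (conj z) = conj (g1 a0 z) := by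
  have e : rho / (1 + rho * conj z) = conj (rho / (1 + rho * z)) := by
    simp only [map_div₀, map_add, map_mul, map_one, conj_rho]
  unfold g1
  rw [e, h.ra0]
  simp only [map_div₀, map_add, map_mul, map_one, conj_rho]

theorem Sym.g2_conj (h : Sym a a0 B) (z : ℂ) : g2 a B (conj z) = conj (g2 a B z) := by
  have e : -rho / (2 + rho * conj z) = conj (-rho / (2 + rho * z)) := by
    simp only [map_div₀, map_add, map_mul, map_neg, map_ofNat, conj_rho]
  have e2 : 1 + rho * conj z = conj (1 + rho * z) := by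
    simp only [map_add, map_mul, map_one, conj_rho]
  unfold g2
  rw [e, h.ra, e2, h.rB]
  simp only [map_div₀, map_add, map_mul, map_ofNat, conj_rho]

theorem cc_conj {g : ℂ → ℂ} (ha : ∀ z, a (conj z) = conj (a z))
    (hg : ∀ z, g (conj z) = conj (g z)) : conj (cc a g) = cc a g := by
  unfold cc
  rw [map_mul, map_inv₀, map_mul, map_ofNat, Complex.conj_ofReal]
  congr 1
  have hc : ∀ F : ℝ → ℂ, conj (∫ θ in (0 : ℝ)..(2 * π), F θ)
      = ∫ θ in (0 : ℝ)..(2 * π), conj (F θ) := by
    intro F
    rw [intervalIntegral.integral_of_le (by positivity),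
      intervalIntegral.integral_of_le (by positivity), integral_conj]
  rw [hc]
  have h := intervalIntegral.integral_comp_sub_left (a := 0) (b := 2 * π)
    (fun θ : ℝ => a (exp (θ * I)) * g (exp (-(θ * I)))) (2 * π)
  simp only [sub_self, sub_zero] at h
  rw [← h]
  apply intervalIntegral.integral_congr
  intro θ _
  simp only
  have e1 : exp (((2 * π - θ : ℝ) : ℂ) * I) = conj (exp (θ * I)) := by
    rw [← Complex.exp_conj]
    push_cast
    rw [sub_mul, Complex.exp_sub, Complex.exp_two_pi_mul_I, map_mul, Complex.conj_ofReal,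
      Complex.conj_I, mul_neg, Complex.exp_neg, one_div]
  have e2 : exp (-(((2 * π - θ : ℝ) : ℂ) * I)) = conj (exp (-(θ * I))) := by
    rw [← Complex.exp_conj, Complex.exp_neg, e1, ← Complex.exp_conj, ← Complex.exp_neg, map_neg]
  rw [e1, e2, ha, hg, map_mul]

theorem Sym.ell_conj (h : Sym a a0 B) : conj (ell a a0 B) = ell a a0 B := by
  unfold ell
  rw [map_div₀, map_neg, cc_conj h.ra h.g2_conj, cc_conj h.ra h.g1_conj]

theorem Sym.kap_conj (h : Sym a a0 B) : conj (kap a a0 B) = kap a a0 B := by
  have e0 : conj (a 0) = a 0 := by rw [← h.ra, map_zero]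
  have e1 : conj (a0 0) = a0 0 := by rw [← h.ra0, map_zero]
  unfold kap
  rw [map_add, map_mul, map_mul, map_ofNat, h.ell_conj, e0, e1]

theorem Sym.bb_conj (h : Sym a a0 B) (z : ℂ) : bb a a0 B (conj z) = conj (bb a a0 B z) := by
  unfold bb
  rw [h.g1_conj, h.g2_conj, map_add, map_mul, h.ell_conj]

theorem Sym.b0_conj (h : Sym a a0 B) (z : ℂ) : b0 a B (conj z) = conj (b0 a B z) := by
  have e1 : rho / (rho * conj z - 1) = conj (rho / (rho * z - 1)) := by
    simp only [map_div₀, map_sub, map_mul, map_one, conj_rho]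
  have e2 : -rho / (rho * conj z + 1) = conj (-rho / (rho * z + 1)) := by
    simp only [map_div₀, map_add, map_neg, map_mul, map_one, conj_rho]
  have e3 : rho * conj z = conj (rho * z) := by
    simp only [map_mul, conj_rho]
  unfold b0
  rw [e1, e2, h.ra, h.ra, e3, h.rB]
  simp only [map_div₀, map_add, map_sub, map_mul, map_one, conj_rho]

theorem Sym.AA_conj (h : Sym a a0 B) (w : ℂ) : AA a a0 B (conj w) = conj (AA a a0 B w) := by
  have e0 : rho * conj w / TT = conj (rho * w / TT) := by
    simp only [map_div₀, map_mul, conj_rho, conj_TT]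
  have e1 : rho * conj w / (TT - conj w) = conj (rho * w / (TT - w)) := by
    simp only [map_div₀, map_mul, map_sub, conj_rho, conj_TT]
  have e2 : -(rho * conj w) / (TT + conj w) = conj (-(rho * w) / (TT + w)) := by
    simp only [map_div₀, map_mul, map_add, map_neg, conj_rho, conj_TT]
  unfold AA SS
  rw [e0, e1, e2, h.ra, h.ra, h.ra0]
  simp only [map_div₀, map_add, map_sub, map_mul, conj_TT, h.ell_conj, h.kap_conj]

theorem Sym.BB_conj (h : Sym a a0 B) (w : ℂ) : BB a a0 B (conj w) = conj (BB a a0 B w) := by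
  have e0 : rho * conj w / TT = conj (rho * w / TT) := by
    simp only [map_div₀, map_mul, conj_rho, conj_TT]
  have e1 : rho * conj w / (TT - conj w) = conj (rho * w / (TT - w)) := by
    simp only [map_div₀, map_mul, map_sub, conj_rho, conj_TT]
  have e2 : -(rho * conj w) / (TT + conj w) = conj (-(rho * w) / (TT + w)) := by
    simp only [map_div₀, map_mul, map_add, map_neg, conj_rho, conj_TT]
  unfold BB
  rw [e0, e1, e2, h.bb_conj, h.bb_conj, h.b0_conj]
  simp only [map_div₀, map_add, map_sub, map_mul, map_pow, map_inv₀, conj_rho, conj_TT,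
    h.ell_conj, h.kap_conj]

theorem Sym.qc_conj (h : Sym a a0 B) (w : ℂ) : qc a a0 B (conj w) = conj (qc a a0 B w) := by
  have e0 : rho / conj w = conj (rho / w) := by
    simp only [map_div₀, conj_rho]
  unfold qc
  rw [e0, h.b0_conj]
  simp only [map_div₀, map_mul, map_pow, map_inv₀, conj_rho, h.ell_conj]

theorem Sym.qp_conj (h : Sym a a0 B) (w : ℂ) : qp a a0 B (conj w) = conj (qp a a0 B w) := by
  have e0 : rho / (conj w - 1) = conj (rho / (w - 1)) := by
    simp only [map_div₀, map_sub, map_one, conj_rho]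
  unfold qp
  rw [e0, h.bb_conj]
  simp only [map_div₀, map_mul, map_pow, map_sub, map_one, conj_rho]

theorem Sym.qm_conj (h : Sym a a0 B) (w : ℂ) : qm a a0 B (conj w) = conj (qm a a0 B w) := by
  have e0 : -rho / (conj w + 1) = conj (-rho / (w + 1)) := by
    simp only [map_div₀, map_add, map_neg, map_one, conj_rho]
  unfold qm
  rw [e0, h.bb_conj]
  simp only [map_div₀, map_mul, map_pow, map_add, map_neg, map_one, conj_rho]

theorem Sym.an_conj (h : Sym a a0 B) (z : ℂ) : an a a0 B (conj z) = conj (an a a0 B z) := by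
  have e2 : 1 + rho * conj z = conj (1 + rho * z) := by
    simp only [map_add, map_mul, map_one, conj_rho]
  unfold an
  rw [e2, h.AA_conj, h.qc_conj, h.qm_conj, map_add, map_add]

theorem Sym.a0n_conj (h : Sym a a0 B) (z : ℂ) : a0n a a0 B (conj z) = conj (a0n a a0 B z) := by
  have e2 : rho * conj z = conj (rho * z) := by
    simp only [map_mul, conj_rho]
  unfold a0n
  rw [e2, h.AA_conj, h.qp_conj, h.qm_conj, map_add, map_add]

/-! parity -/

theorem Sym.b0_odd (h : Sym a a0 B) (z : ℂ) : b0 a B (-z) = -b0 a B z := by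
  have e1 : rho / (rho * -z - 1) = -rho / (rho * z + 1) := by
    rw [show rho * -z - 1 = -(rho * z + 1) by ring, div_neg, neg_div]
  have e2 : -rho / (rho * -z + 1) = rho / (rho * z - 1) := by
    rw [show rho * -z + 1 = -(rho * z - 1) by ring, neg_div_neg_eq]
  unfold b0
  rw [e1, e2, show rho * -z = -(rho * z) by ring, h.oB,
    show -(rho * z) - 1 = -(rho * z + 1) by ring, show -(rho * z) + 1 = -(rho * z - 1) by ring,
    div_neg, div_neg]
  ring

theorem Sym.AA_even (h : Sym a a0 B) (w : ℂ) : AA a a0 B (-w) = AA a a0 B w := by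
  unfold AA SS
  rw [show rho * -w / TT = -(rho * w / TT) by ring, h.ea0,
    show TT - -w = TT + w by ring, show TT + -w = TT - w by ring,
    show -(rho * -w) = rho * w by ring, show rho * -w = -(rho * w) by ring]
  ring

theorem Sym.BB_odd (h : Sym a a0 B) (w : ℂ) : BB a a0 B (-w) = -BB a a0 B w := by
  unfold BB
  rw [show rho * -w / TT = -(rho * w / TT) by ring, h.b0_odd,
    show TT - -w = TT + w by ring, show TT + -w = TT - w by ring,
    show -(rho * -w) = rho * w by ring, show rho * -w = -(rho * w) by ring]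
  ring

theorem Sym.qc_even (h : Sym a a0 B) (w : ℂ) : qc a a0 B (-w) = qc a a0 B w := by
  unfold qc
  rw [show rho / -w = -(rho / w) by rw [div_neg], h.b0_odd, div_neg]
  ring

theorem qp_neg (w : ℂ) : qp a a0 B (-w) = qm a a0 B w := by
  unfold qp qm
  rw [show -w - 1 = -(w + 1) by ring, div_neg, div_neg, neg_div]

theorem qm_neg (w : ℂ) : qm a a0 B (-w) = qp a a0 B w := by
  unfold qp qm
  rw [show -w + 1 = -(w - 1) by ring, neg_div_neg_eq, div_neg, neg_neg]

theorem Sym.a0n_even (h : Sym a a0 B) (z : ℂ) : a0n a a0 B (-z) = a0n a a0 B z := by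
  unfold a0n
  rw [show rho * -z = -(rho * z) by ring, h.AA_even, qp_neg, qm_neg]
  ring

end Pool.Agent.Work.MP_090684_an
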